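import Pool.Agent.W462.PL.COSP
import Pool.Agent.W23.PL.Cou
import Pool.Agent.W24.DC.WU
import Pool.Agent.W324.DC.BCF
import Pool.Agent.W324.DC.BBF
import Pool.Agent.W324.DC.COF
import Pool.Agent.W583.DC.FIF
import Pool.Agent.H442R2.BX.Asm

/-! The level of distribution beyond one half of coprime pairs of rough moduli, unconditionally (assembly as in
`Pool.Agent.W25.UB.Final`). -/

set_option autoImplicit false

namespace Pool.Agent.J4.H38.SR3

open Pool.Agent.H442R2

theorem hTTC : Pool.Agent.W23.PL.St_TTC :=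
  Pool.Agent.W462.PL.TTC
    (Pool.Agent.W23.PL.COU BX.CO_thm (Pool.Agent.W324.DC.COF
      (Pool.Agent.W324.DC.BBF (Pool.Agent.W324.DC.BCF Pool.Agent.W24.DC.WU BX.PW)) BX.SV_thm))
    BX.RC BX.GS

end Pool.Agent.J4.H38.SR3
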