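import Mathlib
import Pool.Agent.H20R2.EN.FLem
import Pool.Agent.W41.Sieve

/-! The fundamental lemma of the sieve for weighted sets of integers which are well distributed in the classes to
small squarefree moduli. -/

set_option autoImplicit false

namespace Pool.Agent.J4.H38.SR3

open Finset
open Pool.Agent.W41 (JJ JJ_lt JJ_le JJ_small)

lemma crt2 {q p : ℕ} (h : Nat.Coprime q p) (c a : ℤ) : ∃ d : ℤ, ∀ n : ℤ,
    (((q * p : ℕ) : ℤ) ∣ n - d ↔ (q : ℤ) ∣ n - c ∧ (p : ℤ) ∣ n - a) := by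
  have hc : IsCoprime (q : ℤ) (p : ℤ) := Nat.isCoprime_iff_coprime.2 h
  obtain ⟨u, v, huv⟩ := hc
  refine ⟨c + u * q * (a - c), fun n => ?_⟩
  push_cast
  constructor
  · intro hd
    constructor
    · have h1 : (q : ℤ) ∣ n - (c + u * q * (a - c)) := (Dvd.intro _ rfl : (q : ℤ) ∣ q * p).trans hd
      have h2 : n - c = (n - (c + u * q * (a - c))) + q * (u * (a - c)) := by ring
      rw [h2]
      exact dvd_add h1 (Dvd.intro _ rfl)
    · have h1 : (p : ℤ) ∣ n - (c + u * q * (a - c)) := (Dvd.intro_left _ rfl : (p : ℤ) ∣ q * p).trans hd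
      have h2 : n - a = (n - (c + u * q * (a - c))) + p * (v * (c - a)) := by
        have h3 : u * q = 1 - v * p := by linarith
        rw [h3]
        ring
      rw [h2]
      exact dvd_add h1 (Dvd.intro _ rfl)
  · rintro ⟨h1, h2⟩
    have hc' : IsCoprime (q : ℤ) (p : ℤ) := ⟨u, v, huv⟩
    refine hc'.mul_dvd ?_ ?_
    · have h3 : n - (c + u * q * (a - c)) = (n - c) - q * (u * (a - c)) := by ring
      rw [h3]
      exact dvd_sub h1 (Dvd.intro _ rfl)
    · have h3 : n - (c + u * q * (a - c)) = (n - a) - p * (v * (c - a)) := by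
        have h4 : u * q = 1 - v * p := by linarith
        rw [h4]
        ring
      rw [h3]
      exact dvd_sub h2 (Dvd.intro _ rfl)

/-- the residue -/
def rs (p : ℕ) (n : ℤ) : ℕ := (n % (p : ℤ)).toNat

lemma rs_lt {p : ℕ} (hp : 0 < p) (n : ℤ) : rs p n < p := by
  unfold rs
  have h1 := Int.emod_lt_of_pos n (by exact_mod_cast hp : (0 : ℤ) < p)
  have h2 := Int.emod_nonneg n (by exact_mod_cast hp.ne' : (p : ℤ) ≠ 0)
  omega

lemma rs_eq {p : ℕ} (hp : 0 < p) (n : ℤ) {a : ℕ} (ha : a < p) : rs p n = a ↔ (p : ℤ) ∣ n - a := by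
  unfold rs
  have h1 := Int.emod_lt_of_pos n (by exact_mod_cast hp : (0 : ℤ) < p)
  have h2 := Int.emod_nonneg n (by exact_mod_cast hp.ne' : (p : ℤ) ≠ 0)
  have h3 : ((a : ℤ) % p) = a := Int.emod_eq_of_lt (by omega) (by exact_mod_cast ha)
  constructor
  · intro h
    have h4 : n % p = a := by omega
    rw [← Int.modEq_iff_dvd]
    unfold Int.ModEq
    rw [h3, h4]
  · intro h
    rw [← Int.modEq_iff_dvd] at h
    unfold Int.ModEq at h
    rw [h3] at h
    omega

open Classical in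
/-- the number of the residues -/
noncomputable def cd (A : ℕ → ℕ → Prop) (p : ℕ) : ℕ := ((range p).filter (fun a => A p a)).card

open Classical in
/-- a system of residues -/
theorem wsys (Ω : Finset ℤ) (w : ℤ → ℝ) (X r : ℝ) (A : ℕ → ℕ → Prop) (S : Finset ℕ)
    (hS : ∀ p ∈ S, p.Prime) :
    ∀ q : ℕ, 1 ≤ q → (∀ p ∈ S, ¬ p ∣ q) → ∀ c : ℤ,
    (∀ b : ℤ, |∑ n ∈ Ω.filter (fun n => ((q * ∏ p ∈ S, p : ℕ) : ℤ) ∣ n - b), w n -
      X / ((q * ∏ p ∈ S, p : ℕ) : ℝ)| ≤ r) →
    |∑ n ∈ Ω.filter (fun n => (q : ℤ) ∣ n - c ∧ ∀ p ∈ S, A p (rs p n)), w n -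
      X / q * ∏ p ∈ S, ((cd A p : ℝ) / p)| ≤
      (∏ p ∈ S, (cd A p : ℝ)) * r := by
  induction S using Finset.induction_on with
  | empty =>
    intro q _ _ c hyp
    have h := hyp c
    simp only [prod_empty, mul_one, notMem_empty, false_implies, implies_true, and_true, one_mul] at h ⊢
    exact h
  | insert p S hp ih =>
    intro q hq hdq c hyp
    have hpp := hS p (mem_insert_self _ _)
    have hS' : ∀ p' ∈ S, p'.Prime := fun p' h => hS p' (mem_insert_of_mem h)
    have hpq : q.Coprime p := by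
      rw [Nat.coprime_comm]
      exact (Nat.Prime.coprime_iff_not_dvd hpp).2 (hdq p (mem_insert_self _ _))
    have hp0 : (0 : ℝ) < p := by exact_mod_cast hpp.pos
    have hq0 : (0 : ℝ) < q := by exact_mod_cast hq
    rw [prod_insert hp, prod_insert hp]
    set ρ := (range p).filter (fun a => A p a) with hρ
    have hρc : ρ.card = cd A p := rfl
    choose dd hdd using fun a : ℤ => crt2 hpq c a
    -- fibres
    have h1 : ∑ n ∈ Ω.filter (fun n => (q : ℤ) ∣ n - c ∧ ∀ p' ∈ insert p S, A p' (rs p' n)), w n =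
        ∑ a ∈ ρ, ∑ n ∈ Ω.filter (fun n => ((q * p : ℕ) : ℤ) ∣ n - dd a ∧
          ∀ p' ∈ S, A p' (rs p' n)), w n := by
      rw [← sum_fiberwise_of_maps_to (g := fun n => rs p n) (t := ρ)]
      · apply sum_congr rfl
        intro a ha
        rw [hρ, mem_filter, mem_range] at ha
        rw [filter_filter]
        refine sum_congr ?_ fun _ _ => rfl
        refine filter_congr fun n _ => ?_
        rw [hdd, rs_eq hpp.pos n ha.1]
        constructor
        · rintro ⟨⟨h1, h2⟩, h3⟩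
          exact ⟨⟨h1, h3⟩, fun p' hp' => h2 p' (mem_insert_of_mem hp')⟩
        · rintro ⟨⟨h1, h3⟩, h4⟩
          refine ⟨⟨h1, fun p' hp' => ?_⟩, h3⟩
          rcases mem_insert.1 hp' with rfl | h
          · rw [(rs_eq hpp.pos n ha.1).2 h3]
            exact ha.2
          · exact h4 p' h
      · intro n hn
        rw [mem_filter] at hn
        rw [hρ, mem_filter, mem_range]
        exact ⟨rs_lt hpp.pos n, hn.2.2 p (mem_insert_self _ _)⟩
    rw [h1]
    have h2 : X / q * (((cd A p : ℝ) / p) * ∏ p' ∈ S, ((cd A p' : ℝ) / p')) =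
        ∑ _a ∈ ρ, X / ((q * p : ℕ) : ℝ) * ∏ p' ∈ S, ((cd A p' : ℝ) / p') := by
      rw [sum_const, nsmul_eq_mul, hρc]
      push_cast
      rw [← div_div]
      ring
    rw [h2, ← sum_sub_distrib]
    refine (abs_sum_le_sum_abs _ _).trans ?_
    have h3 : ∀ a ∈ ρ, |∑ n ∈ Ω.filter (fun n => ((q * p : ℕ) : ℤ) ∣ n - dd a ∧
          ∀ p' ∈ S, A p' (rs p' n)), w n -
        X / ((q * p : ℕ) : ℝ) * ∏ p' ∈ S, ((cd A p' : ℝ) / p')| ≤
        (∏ p' ∈ S, (cd A p' : ℝ)) * r := by
      intro a _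
      apply ih hS' (q * p) (Nat.mul_pos hq hpp.pos)
      · intro p' hp' hd
        have hp'p := hS' p' hp'
        rcases (Nat.Prime.dvd_mul hp'p).1 hd with h | h
        · exact hdq p' (mem_insert_of_mem hp') h
        · rw [Nat.prime_dvd_prime_iff_eq hp'p hpp] at h
          exact hp (h ▸ hp')
      · intro b
        have h4 := hyp b
        rw [prod_insert hp, ← mul_assoc] at h4
        exact h4
    refine (sum_le_sum h3).trans ?_
    rw [sum_const, nsmul_eq_mul, mul_assoc, hρc]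

open Classical in
theorem flw (κ : ℕ) : ∃ C0 K0 : ℕ, 1 ≤ C0 ∧ 1 ≤ K0 ∧ ∀ b : ℕ, C0 ≤ b → ∀ y : ℕ, 2 ≤ y →
    ∀ (Ω : Finset ℤ) (w : ℤ → ℝ) (X e : ℝ) (P : Finset ℕ) (R : ℕ → ℕ → Prop), (∀ n ∈ Ω, 0 ≤ w n) →
    0 ≤ X → 0 ≤ e →
    (∀ p ∈ P, p.Prime ∧ p ≤ y ∧ cd R p ≤ κ) →
    (∀ S ⊆ P, ∏ p ∈ S, p ≤ K0 * y ^ (2 * (C0 * b)) → ∀ c : ℤ,
      |∑ n ∈ Ω.filter (fun n => ((∏ p ∈ S, p : ℕ) : ℤ) ∣ n - c), w n - X / ((∏ p ∈ S, p : ℕ) : ℝ)| ≤ e) →
    |∑ n ∈ Ω.filter (fun n => ∀ p ∈ P, ¬ R p (rs p n)), w n -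
        X * ∏ p ∈ P, (1 - (cd R p : ℝ) / p)| ≤
      (1 / 2 : ℝ) ^ b * (X * ∏ p ∈ P, (1 - (cd R p : ℝ) / p)) +
        ((JJ y : ℝ) + 2) * ((y : ℝ) ^ (2 * (C0 * b)) * (K0 * (y : ℝ) ^ (2 * (C0 * b)) * e)) := by
  obtain ⟨C0, hC0, hFL⟩ := Pool.Agent.H20R2.fLem κ
  set z0 := C0 + κ + 1 with hz0
  set K0 : ℕ := ∏ p ∈ (Icc 1 z0).filter Nat.Prime, p with hK0
  have hK01 : 1 ≤ K0 := Nat.pos_of_ne_zero (prod_ne_zero_iff.2 fun p hp => (mem_filter.1 hp).2.ne_zero)
  refine ⟨C0, K0, hC0, hK01, fun b hbC y hy Ω w X e P R hw hX he hP hcl => ?_⟩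
  have hPp : ∀ p ∈ P, p.Prime := fun p hp => (hP p hp).1
  set r : ℕ → ℕ := fun p => cd R p with hr
  have hrp : ∀ p, r p ≤ p := by
    intro p
    rw [hr]
    exact (card_filter_le _ _).trans (card_range p).le
  have hrκ : ∀ p ∈ P, r p ≤ κ := fun p hp => (hP p hp).2.2
  set V : Finset ℕ → ℝ := fun S => ∏ p ∈ S, (1 - (r p : ℝ) / p) with hVd
  have hfac : ∀ p : ℕ, 0 ≤ 1 - (r p : ℝ) / p := by
    intro p
    rw [sub_nonneg]
    apply div_le_one_of_le₀ _ (Nat.cast_nonneg _)
    exact_mod_cast hrp p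
  have hV0 : ∀ S, 0 ≤ V S := fun S => prod_nonneg fun p _ => hfac p
  show |∑ n ∈ Ω.filter (fun n => ∀ p ∈ P, ¬ R p (rs p n)), w n - X * V P| ≤
      (1 / 2 : ℝ) ^ b * (X * V P) + _
  set J := JJ y with hJ
  set Y : ℕ := 2 ^ 2 ^ J with hY
  have hyY : y < Y := JJ_lt y
  have hYy : Y ≤ y ^ 2 := JJ_le y (by omega)
  obtain ⟨D, hD⟩ : ∃ D : ℕ, D = (2 ^ 2 ^ J) ^ (C0 * b) := ⟨_, rfl⟩
  have hDy : D ≤ y ^ (2 * (C0 * b)) := by
    calc D ≤ (y ^ 2) ^ (C0 * b) := by rw [hD]; exact Nat.pow_le_pow_left hYy _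
      _ = y ^ (2 * (C0 * b)) := by rw [← pow_mul]
  set P0 : Finset ℕ := P.filter (fun p => p ≤ z0) with hP0
  set P1 : Finset ℕ := P.filter (fun p => ¬ p ≤ z0) with hP1
  have hPu : P = P0 ∪ P1 := (filter_union_filter_not_eq _ _).symm
  have hdisj : Disjoint P0 P1 := disjoint_filter_filter_not _ _ _
  have hPp1 : ∀ p ∈ P1, p.Prime ∧ z0 < p ∧ p ≤ Y := by
    intro p hp
    rw [hP1, mem_filter] at hp
    exact ⟨hPp p hp.1, by omega, (((hP p hp.1).2.1).trans hyY.le)⟩
  have hPp0 : ∀ p ∈ P0, p.Prime ∧ p ≤ z0 := by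
    intro p hp
    rw [hP0, mem_filter] at hp
    exact ⟨hPp p hp.1, hp.2⟩
  have hP0K : ∏ p ∈ P0, p ≤ K0 := by
    rw [hK0]
    refine Finset.prod_le_prod_of_subset_of_one_le' ?_ ?_
    · intro p hp
      rw [mem_filter, mem_Icc]
      exact ⟨⟨(hPp0 p hp).1.one_lt.le, (hPp0 p hp).2⟩, (hPp0 p hp).1⟩
    · intro p hp _
      exact (mem_filter.1 hp).2.one_lt.le
  have hV : V P = V P0 * V P1 := by
    show ∏ p ∈ P, (1 - (r p : ℝ) / p) = _
    conv_lhs => rw [hPu]
    rw [prod_union hdisj]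
  set E : ℤ ≃ ℕ := Equiv.intEquivNat with hE
  set Ω0 : Finset ℤ := Ω.filter (fun n => ∀ p ∈ P0, ¬ R p (rs p n)) with hΩ0
  have hmap : ∀ (Q : ℕ → Prop) [DecidablePred Q], ∑ m ∈ (Ω0.map E.toEmbedding).filter Q, w (E.symm m) =
      ∑ n ∈ Ω0.filter (fun n => Q (E n)), w n := by
    intro Q _
    rw [filter_map, sum_map]
    refine sum_congr rfl fun n _ => ?_
    simp
  have key := hFL b J z0 P1 (fun p => (r p : ℝ) / p) hbC (by omega) hPp1 (fun p hp => by
      have hp0 : (0 : ℝ) < p := by exact_mod_cast (hPp1 p hp).1.pos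
      have hp1 : (1 : ℝ) < p := by exact_mod_cast (hPp1 p hp).1.one_lt
      refine ⟨div_nonneg (Nat.cast_nonneg _) hp0.le, ?_⟩
      apply div_le_div₀ (Nat.cast_nonneg _) _ (by linarith) (by linarith)
      exact_mod_cast hrκ p (mem_filter.1 hp).1)
    (Ω0.map E.toEmbedding) (fun m => w (E.symm m))
    (fun p m => R p (rs p (E.symm m))) (X * V P0) (fun _ => (K0 * D * e : ℝ))
    (fun m hm => by
      rw [mem_map] at hm
      obtain ⟨n, hn, rfl⟩ := hm
      have h1 : E.symm (E.toEmbedding n) = n := by simp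
      rw [h1]
      exact hw n (mem_filter.1 hn).1) (mul_nonneg hX (hV0 _)) (by
      intro T hT hTD
      have hTp : ∀ p ∈ T, p.Prime := fun p hp => (hPp1 p (hT hp)).1
      have hdT : Disjoint P0 T := disjoint_of_subset_right hT hdisj
      have hTP : ∀ p ∈ P0 ∪ T, p ∈ P := by
        intro p hp
        rcases mem_union.1 hp with h | h
        · exact (mem_filter.1 h).1
        · exact (mem_filter.1 (hT h)).1
      have hPT : ∏ p ∈ P0 ∪ T, p ≤ K0 * y ^ (2 * (C0 * b)) := by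
        rw [prod_union hdT]
        refine Nat.mul_le_mul hP0K (le_trans ?_ hDy)
        rw [hD]
        exact hTD
      obtain ⟨A', hA'⟩ : ∃ A' : ℕ → ℕ → Prop, A' = fun p a => if p ≤ z0 then ¬ R p a else R p a := ⟨_, rfl⟩
      have h3 := wsys Ω w X e A' (P0 ∪ T)
        (fun p hp => hPp p (hTP p hp)) 1 le_rfl
        (fun p hp => (hPp p (hTP p hp)).one_lt.ne' ∘ Nat.dvd_one.1) 0 (fun c => by
          rw [one_mul]
          exact hcl (P0 ∪ T) hTP hPT c)
      have hTz : ∀ p ∈ T, ¬ p ≤ z0 := fun p hp => by have := (hPp1 p (hT hp)).2.1; omega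
      have c1 : ∀ p ∈ P0, (cd A' p : ℝ) = p - r p := by
        intro p hp
        have h4 := card_filter_add_card_filter_not (s := range p) (fun a => R p a)
        rw [card_range] at h4
        have h5 : cd A' p = ((range p).filter (fun a => ¬ R p a)).card := by
          unfold cd
          rw [hA']
          simp only [if_pos (hPp0 p hp).2]
        rw [h5]
        have h7 : ((r p : ℕ) : ℝ) + (((range p).filter (fun a => ¬ R p a)).card : ℝ) = p := by
          rw [hr]
          unfold cd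
          exact_mod_cast h4
        linarith
      have c2 : ∀ p ∈ T, (cd A' p : ℝ) = r p := by
        intro p hp
        have h5 : cd A' p = cd R p := by
          unfold cd
          rw [hA']
          simp only [if_neg (hTz p hp)]
        rw [h5]
      rw [prod_union hdT, prod_union hdT] at h3
      have e1 : ∏ p ∈ P0, ((cd A' p : ℝ) / p) = V P0 := by
        apply prod_congr rfl
        intro p hp
        rw [c1 p hp]
        have hp0 : (p : ℝ) ≠ 0 := by exact_mod_cast (hPp0 p hp).1.ne_zero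
        field_simp
      have e2 : ∏ p ∈ T, ((cd A' p : ℝ) / p) =
          ∏ p ∈ T, ((r p : ℝ) / p) := by
        apply prod_congr rfl
        intro p hp
        rw [c2 p hp]
      have e3 : ∏ p ∈ P0, (cd A' p : ℝ) ≤ K0 := by
        have h5 : ∏ p ∈ P0, (cd A' p : ℝ) ≤ ∏ p ∈ P0, (p : ℝ) := by
          apply prod_le_prod (fun _ _ => Nat.cast_nonneg _)
          intro p hp
          rw [c1 p hp]
          have : (0 : ℝ) ≤ r p := Nat.cast_nonneg _
          linarith
        refine h5.trans ?_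
        have h6 : ((∏ p ∈ P0, p : ℕ) : ℝ) ≤ K0 := by exact_mod_cast hP0K
        push_cast at h6
        exact h6
      have e4 : ∏ p ∈ T, (cd A' p : ℝ) ≤ D := by
        calc ∏ p ∈ T, (cd A' p : ℝ)
            ≤ ∏ p ∈ T, (p : ℝ) := by
              apply prod_le_prod (fun _ _ => Nat.cast_nonneg _)
              intro p hp
              rw [c2 p hp]
              exact_mod_cast hrp p
          _ = ((∏ p ∈ T, p : ℕ) : ℝ) := by push_cast; rfl
          _ ≤ D := by
              rw [hD]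
              exact_mod_cast hTD
      have hX1 : X / ((1 : ℕ) : ℝ) = X := by simp
      rw [e1, e2, hX1] at h3
      have e5 : ∑ m ∈ (Ω0.map E.toEmbedding).filter (fun m => ∀ p ∈ T, R p (rs p (E.symm m))), w (E.symm m) =
          ∑ n ∈ Ω.filter (fun n => ((1 : ℕ) : ℤ) ∣ n - 0 ∧
            ∀ p ∈ P0 ∪ T, A' p (rs p n)), w n := by
        refine (hmap (fun m => ∀ p ∈ T, R p (rs p (E.symm m)))).trans ?_
        rw [hΩ0, filter_filter]
        refine sum_congr (filter_congr fun n _ => ?_) fun _ _ => rfl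
        simp only [Equiv.symm_apply_apply, hA']
        constructor
        · rintro ⟨h5, h6⟩
          refine ⟨by simp, fun p hp => ?_⟩
          rcases mem_union.1 hp with h | h
          · rw [if_pos (hPp0 p h).2]
            exact h5 p h
          · rw [if_neg (hTz p h)]
            exact h6 p h
        · rintro ⟨_, h5⟩
          refine ⟨?_, ?_⟩
          · intro p hp
            have h8 := h5 p (mem_union_left _ hp)
            rwa [if_pos (hPp0 p hp).2] at h8
          · intro p hp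
            have h8 := h5 p (mem_union_right _ hp)
            rwa [if_neg (hTz p hp)] at h8
      have h6 := h3.trans (mul_le_mul_of_nonneg_right
        (mul_le_mul e3 e4 (prod_nonneg fun _ _ => Nat.cast_nonneg _) (Nat.cast_nonneg _)) he)
      rw [← mul_assoc X, ← e5] at h6
      exact h6)
  have f1 : ∑ m ∈ (Ω0.map E.toEmbedding).filter (fun m => ∀ p ∈ P1, ¬ R p (rs p (E.symm m))), w (E.symm m) =
      ∑ n ∈ Ω.filter (fun n => ∀ p ∈ P, ¬ R p (rs p n)), w n := by
    refine (hmap (fun m => ∀ p ∈ P1, ¬ R p (rs p (E.symm m)))).trans ?_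
    rw [hΩ0, filter_filter]
    refine sum_congr (filter_congr fun n _ => ?_) fun _ _ => rfl
    simp only [Equiv.symm_apply_apply]
    constructor
    · rintro ⟨h5, h6⟩
      intro p hp
      rw [hPu] at hp
      rcases mem_union.1 hp with h | h
      · exact h5 p h
      · exact h6 p h
    · intro h
      exact ⟨fun p hp => h p (hPu ▸ mem_union_left _ hp), fun p hp => h p (hPu ▸ mem_union_right _ hp)⟩
  have f2 : X * V P0 * ∏ p ∈ P1, (1 - (r p : ℝ) / p) = X * V P := by
    rw [hV, mul_assoc]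
  rw [f2] at key
  have key2 : |∑ n ∈ Ω.filter (fun n => ∀ p ∈ P, ¬ R p (rs p n)), w n - X * V P| ≤
      (1 / 2 : ℝ) ^ b * (X * V P) + ((J : ℝ) + 2) *
        ∑ T ∈ P1.powerset.filter (fun T : Finset ℕ => ∏ p ∈ T, p ≤ (2 ^ 2 ^ J) ^ (C0 * b)), (K0 * D * e : ℝ) := by
    rw [← f1]
    convert key using 3
  refine key2.trans ?_
  have hcard : (P1.powerset.filter (fun T : Finset ℕ => ∏ p ∈ T, p ≤ D)).card ≤ D := by
    calc _ ≤ (Icc 1 D).card := by
          apply card_le_card_of_injOn (fun T : Finset ℕ => ∏ p ∈ T, p)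
          · intro T hT
            rw [mem_coe, mem_filter, mem_powerset] at hT
            have h5 : 1 ≤ ∏ p ∈ T, p := Nat.pos_of_ne_zero (prod_ne_zero_iff.2 fun p hp => (hPp1 p (hT.1 hp)).1.ne_zero)
            exact mem_coe.2 (mem_Icc.2 ⟨h5, hT.2⟩)
          · intro S hS S' hS' h
            rw [mem_coe, mem_filter, mem_powerset] at hS hS'
            have hSp : ∀ p ∈ S, p.Prime := fun p hp => (hPp1 p (hS.1 hp)).1
            have hSp' : ∀ p ∈ S', p.Prime := fun p hp => (hPp1 p (hS'.1 hp)).1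
            simp only at h
            ext p
            constructor
            · intro hp
              have h1 : p ∣ ∏ p ∈ S', p := h ▸ dvd_prod_of_mem _ hp
              obtain ⟨p', hp', hd⟩ := (Nat.Prime.prime (hSp p hp)).exists_mem_finset_dvd h1
              rw [Nat.prime_dvd_prime_iff_eq (hSp p hp) (hSp' p' hp')] at hd
              exact hd ▸ hp'
            · intro hp
              have h1 : p ∣ ∏ p ∈ S, p := h ▸ dvd_prod_of_mem _ hp
              obtain ⟨p', hp', hd⟩ := (Nat.Prime.prime (hSp' p hp)).exists_mem_finset_dvd h1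
              rw [Nat.prime_dvd_prime_iff_eq (hSp' p hp) (hSp p' hp')] at hd
              exact hd ▸ hp'
      _ = D := by simp
  apply add_le_add_right
  apply mul_le_mul_of_nonneg_left _ (by positivity)
  rw [sum_const, nsmul_eq_mul]
  have hDr : (D : ℝ) ≤ (y : ℝ) ^ (2 * (C0 * b)) := by exact_mod_cast hDy
  apply mul_le_mul _ _ (by positivity) (by positivity)
  · refine le_trans ?_ hDr
    rw [← hD]
    exact_mod_cast hcard
  · exact mul_le_mul_of_nonneg_right (mul_le_mul_of_nonneg_left hDr (Nat.cast_nonneg _)) he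

end Pool.Agent.J4.H38.SR3
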