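import Mathlib
import Pool.Agent.J4.H38.SR3.Base
import Pool.Agent.J4.H38.SR3.Flw

/-! The distribution in classes of the products of two centred divisor sums over coprime pairs of moduli. -/

set_option autoImplicit false

namespace Pool.Agent.J4.H38.SR3

open Finset
open Pool.Agent.H442R2
open Pool.Agent.H442R2.KF
open Pool.Agent.H442R2.BX.TaskEX (II II_one II_abs summable_bd Wt_pos dl_eq dl_abs)
open Pool.Agent.W23.PL (SEb)

/-- the weight in a class -/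
noncomputable def uq (N q : ℕ) (b n : ℤ) : ℝ := if (q : ℤ) ∣ n - b then Wt N n else 0

lemma uq_eq (N q : ℕ) (b n : ℤ) : uq N q b n = Wt N n * II q (n - b) := by
  unfold uq II
  split_ifs <;> simp

lemma uq_nonneg (N q : ℕ) (b n : ℤ) : 0 ≤ uq N q b n := by
  unfold uq
  split_ifs
  · exact (Wt_pos N n).le
  · exact le_rfl

/-- `1_{d | m} + 1/d` -/
noncomputable def al (d : ℕ) (m : ℤ) : ℝ := BX.dl d m + 2 / (d : ℝ)

lemma al_eq (d : ℕ) (m : ℤ) : al d m = II d m + 1 / (d : ℝ) := by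
  unfold al
  rw [dl_eq]
  ring

lemma al_nonneg (d : ℕ) (m : ℤ) : 0 ≤ al d m := by
  rw [al_eq]
  unfold II
  split_ifs <;> positivity

lemma abs_dl_le_al (d : ℕ) (m : ℤ) : |BX.dl d m| ≤ al d m := by
  rw [dl_eq, al_eq]
  have h1 : (0 : ℝ) ≤ 1 / d := by positivity
  have h2 : 0 ≤ II d m := by unfold II; split_ifs <;> norm_num
  rw [abs_le]
  constructor <;> linarith

lemma al_le (d : ℕ) (hd : 1 ≤ d) (m : ℤ) : al d m ≤ 2 := by
  rw [al_eq]
  have h1 : (1 : ℝ) / d ≤ 1 := by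
    rw [div_le_one (by exact_mod_cast hd)]
    exact_mod_cast hd
  have h2 : II d m ≤ 1 := by unfold II; split_ifs <;> norm_num
  linarith

/-- the coprime part of the product of two divisor sums -/
noncomputable def Gc (c c' : ℕ → ℝ) (D0 X : ℕ) (a a' n : ℤ) : ℝ :=
  ∑ d ∈ Ioc D0 X, ∑ d' ∈ (Ioc D0 X).filter (fun d' => Nat.Coprime d d'),
    c d * c' d' * (BX.dl d (n - a) * BX.dl d' (n - a'))

/-- its majorant -/
noncomputable def Kc (c c' : ℕ → ℝ) (D0 X : ℕ) (a a' n : ℤ) : ℝ :=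
  ∑ d ∈ Ioc D0 X, ∑ d' ∈ (Ioc D0 X).filter (fun d' => Nat.Coprime d d'),
    |c d| * |c' d'| * (al d (n - a) * al d' (n - a'))

/-- the mean value of the majorant, divided by `4 N` -/
noncomputable def Mc (c c' : ℕ → ℝ) (D0 X : ℕ) : ℝ :=
  ∑ d ∈ Ioc D0 X, ∑ d' ∈ (Ioc D0 X).filter (fun d' => Nat.Coprime d d'),
    |c d| * |c' d'| * (1 / ((d : ℝ) * d'))

lemma Kc_nonneg (c c' : ℕ → ℝ) (D0 X : ℕ) (a a' n : ℤ) : 0 ≤ Kc c c' D0 X a a' n :=
  sum_nonneg fun _ _ => sum_nonneg fun _ _ => mul_nonneg (mul_nonneg (abs_nonneg _) (abs_nonneg _))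
    (mul_nonneg (al_nonneg _ _) (al_nonneg _ _))

lemma Mc_nonneg (c c' : ℕ → ℝ) (D0 X : ℕ) : 0 ≤ Mc c c' D0 X :=
  sum_nonneg fun _ _ => sum_nonneg fun _ _ => by positivity

lemma abs_Gc_le (c c' : ℕ → ℝ) (D0 X : ℕ) (a a' n : ℤ) :
    |Gc c c' D0 X a a' n| ≤ Kc c c' D0 X a a' n := by
  unfold Gc Kc
  refine (abs_sum_le_sum_abs _ _).trans (sum_le_sum fun d _ => ?_)
  refine (abs_sum_le_sum_abs _ _).trans (sum_le_sum fun d' _ => ?_)
  rw [abs_mul, abs_mul, abs_mul]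
  exact mul_le_mul_of_nonneg_left (mul_le_mul (abs_dl_le_al _ _) (abs_dl_le_al _ _) (abs_nonneg _)
    (al_nonneg _ _)) (by positivity)

lemma Mc_le (c c' : ℕ → ℝ) (D0 X : ℕ) :
    Mc c c' D0 X ≤ (∑ d ∈ Ioc D0 X, |c d| / d) * ∑ d ∈ Ioc D0 X, |c' d| / d := by
  unfold Mc
  rw [sum_mul_sum]
  refine sum_le_sum fun d _ => ?_
  refine (sum_le_sum_of_subset_of_nonneg (filter_subset _ _) fun _ _ _ => by positivity).trans
    (sum_le_sum fun d' _ => le_of_eq ?_)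
  rw [div_mul_div_comm, mul_one_div]

lemma Kc_le {c c' : ℕ → ℝ} {D0 X : ℕ} (hD0 : 1 ≤ D0) (hc : ∀ d, |c d| ≤ 1) (hc' : ∀ d, |c' d| ≤ 1)
    (a a' n : ℤ) : Kc c c' D0 X a a' n ≤ 4 * (X : ℝ) ^ 2 := by
  unfold Kc
  have hX : ((Ioc D0 X).card : ℝ) ≤ X := by
    rw [Nat.card_Ioc]
    exact_mod_cast Nat.sub_le _ _
  calc _ ≤ ∑ _d ∈ Ioc D0 X, (X : ℝ) * 4 := by
        refine sum_le_sum fun d hd => ?_
        calc _ ≤ ∑ _d' ∈ (Ioc D0 X).filter (fun d' => Nat.Coprime d d'), (4 : ℝ) := by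
              refine sum_le_sum fun d' hd' => ?_
              have h1 : 1 ≤ d := by have := (mem_Ioc.1 hd).1; omega
              have h2 : 1 ≤ d' := by have := (mem_Ioc.1 (mem_filter.1 hd').1).1; omega
              have h3 := al_le d h1 (n - a)
              have h4 := al_le d' h2 (n - a')
              have h5 : |c d| * |c' d'| ≤ 1 * 1 :=
                mul_le_mul (hc d) (hc' d') (abs_nonneg _) zero_le_one
              have h6 : al d (n - a) * al d' (n - a') ≤ 2 * 2 :=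
                mul_le_mul h3 h4 (al_nonneg _ _) (by norm_num)
              calc _ ≤ (1 * 1) * (2 * 2 : ℝ) := mul_le_mul h5 h6
                    (mul_nonneg (al_nonneg _ _) (al_nonneg _ _)) (by norm_num)
                _ = 4 := by norm_num
          _ ≤ X * 4 := by
              rw [sum_const, nsmul_eq_mul]
              refine mul_le_mul_of_nonneg_right ?_ (by norm_num)
              refine le_trans ?_ hX
              exact_mod_cast card_filter_le _ _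
    _ ≤ 4 * (X : ℝ) ^ 2 := by
        rw [sum_const, nsmul_eq_mul]
        have : ((Ioc D0 X).card : ℝ) * (X * 4) ≤ X * (X * 4) := mul_le_mul_of_nonneg_right hX (by positivity)
        linarith

/-- exchange of the sums -/
lemma tsum_ds (N : ℕ) (hN : 1 ≤ N) (q : ℕ) (b : ℤ) (R : Finset ℕ) (F : ℕ → Finset ℕ) (k : ℕ → ℕ → ℝ)
    (ψ : ℕ → ℕ → ℤ → ℝ) (hψ : ∀ d d', ∃ B : ℝ, ∀ n, |ψ d d' n| ≤ B) :
    HasSum (fun n : ℤ => uq N q b n * ∑ d ∈ R, ∑ d' ∈ F d, k d d' * ψ d d' n)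
      (∑ d ∈ R, ∑ d' ∈ F d, k d d' * ∑' n : ℤ, uq N q b n * ψ d d' n) := by
  have h1 : ∀ d d', HasSum (fun n : ℤ => uq N q b n * ψ d d' n) (∑' n : ℤ, uq N q b n * ψ d d' n) := by
    intro d d'
    obtain ⟨B, hB⟩ := hψ d d'
    refine Summable.hasSum ?_
    have h2 := summable_bd N hN (fun n => II q (n - b) * ψ d d' n) B (fun n => by
      rw [abs_mul]
      calc |II q (n - b)| * |ψ d d' n| ≤ 1 * B :=
            mul_le_mul (II_abs _ _) (hB n) (abs_nonneg _) zero_le_one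
        _ = B := one_mul B)
    refine h2.congr fun n => ?_
    rw [uq_eq]
    ring
  have h3 := hasSum_sum fun d (_ : d ∈ R) => hasSum_sum fun d' (_ : d' ∈ F d) => (h1 d d').mul_left (k d d')
  refine h3.congr_fun ?_ |> fun h => h
  intro n
  rw [mul_sum]
  refine sum_congr rfl fun d _ => ?_
  rw [mul_sum]
  refine sum_congr rfl fun d' _ => ?_
  ring

lemma uq_bd (N : ℕ) (hN : 1 ≤ N) (q : ℕ) (b : ℤ) (F : ℤ → ℝ) (B : ℝ) (hF : ∀ n, |F n| ≤ B) :
    Summable (fun n : ℤ => uq N q b n * F n) := by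
  have h2 := summable_bd N hN (fun n => II q (n - b) * F n) B (fun n => by
    rw [abs_mul]
    calc |II q (n - b)| * |F n| ≤ 1 * B :=
          mul_le_mul (II_abs _ _) (hF n) (abs_nonneg _) zero_le_one
      _ = B := one_mul B)
  refine h2.congr fun n => ?_
  rw [uq_eq]
  ring

lemma uq_II (N q : ℕ) (b a : ℤ) (d : ℕ) : ∑' n : ℤ, uq N q b n * II d (n - a) = SEb N b a a q d 1 := by
  unfold SEb
  refine tsum_congr fun n => ?_
  rw [uq_eq]
  unfold II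
  by_cases h1 : (q : ℤ) ∣ n - b
  · by_cases h2 : (d : ℤ) ∣ n - a
    · rw [if_pos h1, if_pos h2, if_pos ⟨h1, h2, by simp⟩]; ring
    · simp [h1, h2]
  · simp [h1]

/-- the sums over one class -/
theorem lin0 : ∃ N₀ : ℕ, 2 ≤ N₀ ∧ ∀ N : ℕ, N₀ ≤ N → ∀ q d : ℕ, 1 ≤ q → 1 ≤ d → Nat.Coprime q d →
    (q : ℝ) * d ≤ (N : ℝ) ^ (9 / 10 : ℝ) → ∀ b a : ℤ,
    |∑' n : ℤ, uq N q b n - N / q| ≤ 1 / (N : ℝ) ^ 5 ∧
    |∑' n : ℤ, uq N q b n * BX.dl d (n - a)| ≤ 2 / (N : ℝ) ^ 5 := by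
  obtain ⟨N₁, hN₁⟩ := Pool.Agent.W347.PL.pois0
  obtain ⟨N₂, hN₂⟩ : ∃ N₂ : ℕ, ∀ N : ℕ, N₂ ≤ N → Real.log N ≤ (N : ℝ) ^ (1 / 10 : ℝ) := by
    have h1 := (isLittleO_log_rpow_atTop (by norm_num : (0 : ℝ) < 1 / 10)).bound (one_pos)
    have h2 := (tendsto_natCast_atTop_atTop (R := ℝ)).eventually h1
    have h3 := h2.and (Filter.eventually_ge_atTop 1)
    obtain ⟨N₂, hN₂⟩ := Filter.eventually_atTop.mp h3
    refine ⟨N₂, fun N hN => ?_⟩
    obtain ⟨h4, h5⟩ := hN₂ N hN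
    rw [one_mul, Real.norm_eq_abs, Real.norm_eq_abs, abs_of_nonneg (Real.log_natCast_nonneg N),
      abs_of_nonneg (by positivity)] at h4
    exact h4
  refine ⟨max 2 (max N₁ N₂), le_max_left _ _, fun N hN q d hq hd hqd hle b a => ?_⟩
  have hN2 : 2 ≤ N := (le_max_left _ _).trans hN
  have hNN₁ : N₁ ≤ N := ((le_max_left _ _).trans (le_max_right _ _)).trans hN
  have hNN₂ : N₂ ≤ N := ((le_max_right _ _).trans (le_max_right _ _)).trans hN
  have hN1 : (1 : ℝ) ≤ N := by exact_mod_cast (by omega : 1 ≤ N)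
  have hN0 : (0 : ℝ) < N := by linarith
  have hlog0 : 0 ≤ Real.log N := Real.log_natCast_nonneg N
  have hmod : ∀ m : ℕ, (m : ℝ) ≤ (N : ℝ) ^ (9 / 10 : ℝ) →
      (m : ℝ) ≤ (N : ℝ) ^ 3 ∧ (m : ℝ) * Real.log N ≤ N := by
    intro m hm
    constructor
    · refine hm.trans ?_
      rw [← Real.rpow_natCast (N : ℝ) 3]
      apply Real.rpow_le_rpow_of_exponent_le hN1
      norm_num
    · calc (m : ℝ) * Real.log N ≤ (N : ℝ) ^ (9 / 10 : ℝ) * (N : ℝ) ^ (1 / 10 : ℝ) :=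
            mul_le_mul hm (hN₂ N hNN₂) hlog0 (by positivity)
        _ = (N : ℝ) ^ (9 / 10 + 1 / 10 : ℝ) := (Real.rpow_add hN0 _ _).symm
        _ = N := by rw [show (9 / 10 + 1 / 10 : ℝ) = 1 by norm_num, Real.rpow_one]
  have hd1 : (1 : ℝ) ≤ d := by exact_mod_cast hd
  have hq0 : (0 : ℝ) < q := by exact_mod_cast hq
  have hd0 : (0 : ℝ) < d := by linarith
  have s0 : |∑' n : ℤ, uq N q b n - N / q| ≤ 1 / (N : ℝ) ^ 5 := by
    obtain ⟨m1, m2⟩ := hmod q ((le_mul_of_one_le_right hq0.le hd1).trans hle)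
    exact hN₁ N hNN₁ q hq m1 m2 b
  refine ⟨s0, ?_⟩
  have s1 : |SEb N b a a q d 1 - N / (q * d)| ≤ 1 / (N : ℝ) ^ 5 := by
    obtain ⟨c, hc⟩ := Pool.Agent.W347.PL.SEb_eq N b a a q d 1 hqd (Nat.coprime_one_right _)
      (Nat.coprime_one_right _)
    obtain ⟨m1, m2⟩ := hmod (q * d * 1) (by push_cast; rw [mul_one]; exact hle)
    have h4 := hN₁ N hNN₁ (q * d * 1) (Nat.succ_le_of_lt (by positivity)) m1 m2 c
    rw [← hc] at h4
    push_cast at h4
    rw [mul_one] at h4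
    exact h4
  have e1 : ∑' n : ℤ, uq N q b n * BX.dl d (n - a) =
      SEb N b a a q d 1 - (∑' n : ℤ, uq N q b n) / d := by
    rw [← uq_II, ← tsum_div_const]
    have h1 := (uq_bd N (by omega) q b (fun n => II d (n - a)) 1 (fun n => II_abs _ _))
    have h2 := (uq_bd N (by omega) q b (fun _ => (1 : ℝ)) 1 (fun n => by simp))
    have h3 : Summable (fun n : ℤ => uq N q b n / d) := by
      refine (h2.div_const (d : ℝ)).congr fun n => ?_
      rw [mul_one]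
    rw [← h1.tsum_sub h3]
    refine tsum_congr fun n => ?_
    rw [dl_eq]
    ring
  rw [e1]
  have e2 : SEb N b a a q d 1 - (∑' n : ℤ, uq N q b n) / d =
      (SEb N b a a q d 1 - N / (q * d)) - (∑' n : ℤ, uq N q b n - N / q) / d := by
    field_simp
    ring
  rw [e2]
  have s2 : |(∑' n : ℤ, uq N q b n - N / q) / d| ≤ 1 / (N : ℝ) ^ 5 := by
    rw [abs_div, abs_of_pos hd0, div_le_iff₀ hd0]
    exact s0.trans (le_mul_of_one_le_right (by positivity) hd1)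
  have e3 : (2 : ℝ) / (N : ℝ) ^ 5 = 1 / (N : ℝ) ^ 5 + 1 / (N : ℝ) ^ 5 := by ring
  rw [e3]
  exact (abs_sub _ _).trans (add_le_add s1 s2)

lemma dl_bd (d : ℕ) (a : ℤ) : ∀ n : ℤ, |BX.dl d (n - a)| ≤ 2 := fun n => dl_abs d (n - a)

/-- the class sums of the majorant, one pair -/
lemma al_pair {N : ℕ} (hN : 1 ≤ N) (q : ℕ) (b a a' : ℤ) (d d' : ℕ) :
    ∑' n : ℤ, uq N q b n * (al d (n - a) * al d' (n - a')) =
      ∑' n : ℤ, uq N q b n * (BX.dl d (n - a) * BX.dl d' (n - a')) +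
      (2 / (d : ℝ)) * (∑' n : ℤ, uq N q b n * BX.dl d' (n - a')) +
      (2 / (d' : ℝ)) * (∑' n : ℤ, uq N q b n * BX.dl d (n - a)) +
      (4 / ((d : ℝ) * d')) * (∑' n : ℤ, uq N q b n) := by
  have h1 := (uq_bd N hN q b (fun n => BX.dl d (n - a) * BX.dl d' (n - a')) 4 (fun n => by
    rw [abs_mul]
    calc _ ≤ (2 : ℝ) * 2 := mul_le_mul (dl_bd d a n) (dl_bd d' a' n) (abs_nonneg _) (by norm_num)
      _ = 4 := by norm_num)).hasSum
  have h2 := ((uq_bd N hN q b (fun n => BX.dl d' (n - a')) 2 (dl_bd d' a')).hasSum).mul_left (2 / (d : ℝ))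
  have h3 := ((uq_bd N hN q b (fun n => BX.dl d (n - a)) 2 (dl_bd d a)).hasSum).mul_left (2 / (d' : ℝ))
  have h4' : Summable (fun n : ℤ => uq N q b n) :=
    (uq_bd N hN q b (fun _ => (1 : ℝ)) 1 (fun n => by simp)).congr fun n => by rw [mul_one]
  have h4 := h4'.hasSum.mul_left (4 / ((d : ℝ) * d'))
  rw [← (((h1.add h2).add h3).add h4).tsum_eq]
  refine tsum_congr fun n => ?_
  unfold al
  have e : (4 : ℝ) / ((d : ℝ) * d') = (2 / (d : ℝ)) * (2 / (d' : ℝ)) := by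
    rw [div_mul_div_comm]
    norm_num
  rw [e]
  ring

/-- the conditions on the moduli and the coefficients -/
structure Cd (N : ℕ) (θ δ ε ε₀ : ℝ) (D0 X : ℕ) (a a' : ℤ) (c c' : ℕ → ℝ) : Prop where
  hX : (X : ℝ) ≤ (N : ℝ) ^ θ
  hD0 : 1 ≤ D0
  hXD : (X : ℝ) ≤ (N : ℝ) ^ ε₀ * D0
  ha : |(a : ℝ)| ≤ N - (N : ℝ) ^ (1 / 2 : ℝ)
  ha' : |(a' : ℝ)| ≤ N - (N : ℝ) ^ (1 / 2 : ℝ)
  hne : a ≠ a'
  hR : BX.CofR ((N : ℝ) ^ ε) X c
  hR' : BX.CofR ((N : ℝ) ^ ε) X c'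
  hF : Pool.Agent.W23.PL.Fc N θ δ c c'

/-- **the class sums** -/
theorem cls (θ δ : ℝ) (hθ0 : 0 < θ) (hθ : θ < 5 / 9) (hδ : 0 < δ) : ∃ ε₀ η : ℝ, 0 < ε₀ ∧ ε₀ ≤ 1 / 10 ∧
    0 < η ∧ η ≤ 1 ∧
    ∀ ε : ℝ, 0 < ε → ∃ (C : ℝ) (N₀ : ℕ), 0 < C ∧ ∀ (N q D0 X : ℕ), N₀ ≤ N → 1 ≤ q → Odd q →
    Squarefree q → (q : ℝ) ≤ (N : ℝ) ^ ε₀ → ∀ (a a' : ℤ) (c c' : ℕ → ℝ), Cd N θ δ ε ε₀ D0 X a a' c c' →
    BX.CofO q c → BX.CofO q c' → ∀ b : ℤ,
    |∑' n : ℤ, uq N q b n * Gc c c' D0 X a a' n| ≤ C * (N : ℝ) ^ (1 - η) ∧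
    |∑' n : ℤ, uq N q b n * Kc c c' D0 X a a' n - 4 * N * Mc c c' D0 X / q| ≤ C * (N : ℝ) ^ (1 - η) := by
  obtain ⟨ε₀', η', hε₀', hη', H⟩ := hTTC θ δ hθ0 hθ hδ
  obtain ⟨N₁, hN₁2, hN₁⟩ := lin0
  set ε₀ : ℝ := min ε₀' (1 / 10) with hε₀d
  have hε₀ : 0 < ε₀ := lt_min hε₀' (by norm_num)
  have hε₀1 : ε₀ ≤ ε₀' := min_le_left _ _
  have hε₀2 : ε₀ ≤ 1 / 10 := min_le_right _ _
  set η : ℝ := min η' 1 with hηd
  have hη : 0 < η := lt_min hη' one_pos
  have hη1 : η ≤ η' := min_le_left _ _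
  have hη2 : η ≤ 1 := min_le_right _ _
  refine ⟨ε₀, η, hε₀, hε₀2, hη, hη2, fun ε hε => ?_⟩
  obtain ⟨C, hC, H⟩ := H ε hε
  refine ⟨C + 12, N₁, by linarith, ?_⟩
  intro N q D0 X hN hq hodd hsq hqN a a' c c' hcd hcO hcO' b
  have hN2 : 2 ≤ N := hN₁2.trans hN
  have hN1 : (1 : ℝ) ≤ N := by exact_mod_cast (by omega : 1 ≤ N)
  have hN0 : (0 : ℝ) < N := by linarith
  have hpow : (1 : ℝ) ≤ (N : ℝ) ^ (1 - η) := Real.one_le_rpow hN1 (by linarith)
  have hqN' : (q : ℝ) ≤ (N : ℝ) ^ ε₀' := hqN.trans (Real.rpow_le_rpow_of_exponent_le hN1 hε₀1)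
  have hXD' : (X : ℝ) ≤ (N : ℝ) ^ ε₀' * D0 :=
    hcd.hXD.trans (mul_le_mul_of_nonneg_right (Real.rpow_le_rpow_of_exponent_le hN1 hε₀1)
      (Nat.cast_nonneg _))
  -- reduction of the class
  obtain ⟨b', hb'⟩ : ∃ b' : ℤ, b' = b % q := ⟨_, rfl⟩
  have hqz : (0 : ℤ) < q := by exact_mod_cast hq
  have hb1 : |(b' : ℝ)| ≤ q := by
    have h1 := Int.emod_nonneg b hqz.ne'
    have h2 := Int.emod_lt_of_pos b hqz
    rw [← hb'] at h1 h2
    rw [abs_of_nonneg (by exact_mod_cast h1)]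
    exact_mod_cast h2.le
  have hbb : ∀ n : ℤ, uq N q b n = uq N q b' n := by
    intro n
    unfold uq
    have h1 : ((q : ℤ) ∣ n - b) ↔ ((q : ℤ) ∣ n - b') := by
      rw [hb', ← Int.modEq_iff_dvd, ← Int.modEq_iff_dvd]
      constructor
      · intro h
        exact (Int.mod_modEq b q).trans h
      · intro h
        exact (Int.mod_modEq b q).symm.trans h
    simp only [h1]
  simp only [hbb]
  -- the signed sum for general coefficients
  have hG : ∀ e e' : ℕ → ℝ, BX.CofO q e → BX.CofO q e' → BX.CofR ((N : ℝ) ^ ε) X e →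
      BX.CofR ((N : ℝ) ^ ε) X e' → Pool.Agent.W23.PL.Fc N θ δ e e' →
      |∑ d ∈ Ioc D0 X, ∑ d' ∈ (Ioc D0 X).filter (fun d' => Nat.Coprime d d'), e d * e' d' *
        ∑' n : ℤ, uq N q b' n * (BX.dl d (n - a) * BX.dl d' (n - a'))| ≤ C * (N : ℝ) ^ (1 - η) := by
    intro e e' h1 h2 h3 h4 h5
    refine (H N q D0 X hN2 hq hodd hsq hqN' hcd.hX hcd.hD0 hXD' b' a a' hb1 hcd.ha hcd.ha' hcd.hne e e'
      h1 h2 h3 h4 h5).trans ?_
    exact mul_le_mul_of_nonneg_left (Real.rpow_le_rpow_of_exponent_le hN1 (by linarith)) hC.le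
  have hψ : ∀ d d' : ℕ, ∃ B : ℝ, ∀ n : ℤ, |BX.dl d (n - a) * BX.dl d' (n - a')| ≤ B := fun d d' =>
    ⟨2 * 2, fun n => by
      rw [abs_mul]
      exact mul_le_mul (dl_bd d a n) (dl_bd d' a' n) (abs_nonneg _) (by norm_num)⟩
  constructor
  · have h1 := (tsum_ds N (by omega) q b' (Ioc D0 X) (fun d => (Ioc D0 X).filter (fun d' => Nat.Coprime d d'))
      (fun d d' => c d * c' d') (fun d d' n => BX.dl d (n - a) * BX.dl d' (n - a')) hψ).tsum_eq
    have h2 : ∑' n : ℤ, uq N q b' n * Gc c c' D0 X a a' n = ∑ d ∈ Ioc D0 X,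
        ∑ d' ∈ (Ioc D0 X).filter (fun d' => Nat.Coprime d d'), c d * c' d' *
        ∑' n : ℤ, uq N q b' n * (BX.dl d (n - a) * BX.dl d' (n - a')) := h1
    rw [h2]
    refine (hG c c' hcO hcO' hcd.hR hcd.hR' hcd.hF).trans ?_
    exact mul_le_mul_of_nonneg_right (by linarith) (by positivity)
  · have hψ' : ∀ d d' : ℕ, ∃ B : ℝ, ∀ n : ℤ, |al d (n - a) * al d' (n - a')| ≤ B := fun d d' =>
      ⟨(2 + 2 / d) * (2 + 2 / d'), fun n => by
        have h1 : ∀ (k : ℕ) (m : ℤ), |al k m| ≤ 2 + 2 / k := by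
          intro k m
          rw [abs_of_nonneg (al_nonneg _ _)]
          unfold al
          have := (abs_le.1 (dl_abs k m)).2
          linarith
        rw [abs_mul]
        exact mul_le_mul (h1 _ _) (h1 _ _) (abs_nonneg _) (by positivity)⟩
    have h1 := (tsum_ds N (by omega) q b' (Ioc D0 X) (fun d => (Ioc D0 X).filter (fun d' => Nat.Coprime d d'))
      (fun d d' => |c d| * |c' d'|) (fun d d' n => al d (n - a) * al d' (n - a')) hψ').tsum_eq
    have h2 : ∑' n : ℤ, uq N q b' n * Kc c c' D0 X a a' n = ∑ d ∈ Ioc D0 X,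
        ∑ d' ∈ (Ioc D0 X).filter (fun d' => Nat.Coprime d d'), |c d| * |c' d'| *
        ∑' n : ℤ, uq N q b' n * (al d (n - a) * al d' (n - a')) := h1
    rw [h2]
    have habsO : ∀ e : ℕ → ℝ, BX.CofO q e → BX.CofO q (fun d => |e d|) := fun e he =>
      ⟨fun d => by rw [abs_abs]; exact he.bd d, fun d hd => he.cop d (abs_ne_zero.1 hd)⟩
    have habsR : ∀ e : ℕ → ℝ, BX.CofR ((N : ℝ) ^ ε) X e → BX.CofR ((N : ℝ) ^ ε) X (fun d => |e d|) :=
      fun e he => ⟨fun d => by rw [abs_abs]; exact he.bd d, fun d hd => he.supp d (abs_ne_zero.1 hd)⟩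
    have h3 := hG (fun d => |c d|) (fun d => |c' d|) (habsO c hcO) (habsO c' hcO') (habsR c hcd.hR)
      (habsR c' hcd.hR') (by
        rcases hcd.hF with h | ⟨h, h'⟩
        · exact Or.inl h
        · exact Or.inr ⟨fun d hd => h d (abs_ne_zero.1 hd), fun d hd => h' d (abs_ne_zero.1 hd)⟩)
    -- the difference
    have hdiff : |(∑ d ∈ Ioc D0 X, ∑ d' ∈ (Ioc D0 X).filter (fun d' => Nat.Coprime d d'), |c d| * |c' d'| *
        ∑' n : ℤ, uq N q b' n * (al d (n - a) * al d' (n - a'))) - 4 * N * Mc c c' D0 X / q -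
        (∑ d ∈ Ioc D0 X, ∑ d' ∈ (Ioc D0 X).filter (fun d' => Nat.Coprime d d'), |c d| * |c' d'| *
        ∑' n : ℤ, uq N q b' n * (BX.dl d (n - a) * BX.dl d' (n - a')))| ≤ 12 := by
      have e1 : (∑ d ∈ Ioc D0 X, ∑ d' ∈ (Ioc D0 X).filter (fun d' => Nat.Coprime d d'), |c d| * |c' d'| *
        ∑' n : ℤ, uq N q b' n * (al d (n - a) * al d' (n - a'))) - 4 * N * Mc c c' D0 X / q -
        (∑ d ∈ Ioc D0 X, ∑ d' ∈ (Ioc D0 X).filter (fun d' => Nat.Coprime d d'), |c d| * |c' d'| *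
        ∑' n : ℤ, uq N q b' n * (BX.dl d (n - a) * BX.dl d' (n - a'))) =
        ∑ d ∈ Ioc D0 X, ∑ d' ∈ (Ioc D0 X).filter (fun d' => Nat.Coprime d d'), |c d| * |c' d'| *
        ((2 / (d : ℝ)) * (∑' n : ℤ, uq N q b' n * BX.dl d' (n - a')) +
        (2 / (d' : ℝ)) * (∑' n : ℤ, uq N q b' n * BX.dl d (n - a)) +
        (4 / ((d : ℝ) * d')) * (∑' n : ℤ, uq N q b' n - N / q)) := by
        unfold Mc
        rw [mul_sum, sum_div, ← sum_sub_distrib, ← sum_sub_distrib]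
        refine sum_congr rfl fun d _ => ?_
        rw [mul_sum, sum_div, ← sum_sub_distrib, ← sum_sub_distrib]
        refine sum_congr rfl fun d' _ => ?_
        rw [al_pair (by omega)]
        ring
      rw [e1]
      refine (abs_sum_le_sum_abs _ _).trans ?_
      have hterm : ∀ d ∈ Ioc D0 X, ∀ d' ∈ (Ioc D0 X).filter (fun d' => Nat.Coprime d d'),
          |(|c d| * |c' d'| *
          ((2 / (d : ℝ)) * (∑' n : ℤ, uq N q b' n * BX.dl d' (n - a')) +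
          (2 / (d' : ℝ)) * (∑' n : ℤ, uq N q b' n * BX.dl d (n - a)) +
          (4 / ((d : ℝ) * d')) * (∑' n : ℤ, uq N q b' n - N / q)))| ≤ 12 / (N : ℝ) ^ 5 := by
        intro d hd d' hd'
        have hd1 : 1 ≤ d := by have := (mem_Ioc.1 hd).1; omega
        have hd1' : 1 ≤ d' := by have := (mem_Ioc.1 (mem_filter.1 hd').1).1; omega
        have hdX : d ≤ X := (mem_Ioc.1 hd).2
        have hdX' : d' ≤ X := (mem_Ioc.1 (mem_filter.1 hd').1).2
        by_cases hz : c d * c' d' = 0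
        · have h0 : |c d| * |c' d'| = 0 := by rw [← abs_mul, hz, abs_zero]
          rw [h0, zero_mul, abs_zero]
          positivity
        have hcd0 : c d ≠ 0 := left_ne_zero_of_mul hz
        have hcd0' : c' d' ≠ 0 := right_ne_zero_of_mul hz
        have k1 : Nat.Coprime q d :=
          (Nat.Coprime.coprime_dvd_right (Dvd.intro_left 2 rfl) (hcO.cop d hcd0)).symm
        have k2 : Nat.Coprime q d' :=
          (Nat.Coprime.coprime_dvd_right (Dvd.intro_left 2 rfl) (hcO'.cop d' hcd0')).symm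
        have hqd : ∀ k : ℕ, k ≤ X → (q : ℝ) * k ≤ (N : ℝ) ^ (9 / 10 : ℝ) := by
          intro k hk
          have hk' : (k : ℝ) ≤ (N : ℝ) ^ θ := le_trans (by exact_mod_cast hk) hcd.hX
          calc (q : ℝ) * k ≤ (N : ℝ) ^ ε₀ * (N : ℝ) ^ θ :=
                mul_le_mul hqN hk' (Nat.cast_nonneg _) (by positivity)
            _ = (N : ℝ) ^ (ε₀ + θ) := by rw [← Real.rpow_add hN0]
            _ ≤ _ := Real.rpow_le_rpow_of_exponent_le hN1 (by linarith)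
        obtain ⟨s0, s1⟩ := hN₁ N hN q d hq hd1 k1 (hqd d hdX) b' a
        obtain ⟨_, s2⟩ := hN₁ N hN q d' hq hd1' k2 (hqd d' hdX') b' a'
        have hdr : (1 : ℝ) ≤ d := by exact_mod_cast hd1
        have hdr' : (1 : ℝ) ≤ d' := by exact_mod_cast hd1'
        have hN5 : (0 : ℝ) < (N : ℝ) ^ 5 := by positivity
        have f1 : |(2 / (d : ℝ)) * (∑' n : ℤ, uq N q b' n * BX.dl d' (n - a'))| ≤ 2 * (2 / (N : ℝ) ^ 5) := by
          rw [abs_mul, abs_of_nonneg (by positivity : (0 : ℝ) ≤ 2 / d)]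
          exact mul_le_mul (div_le_self (by norm_num) hdr) s2 (abs_nonneg _) (by norm_num)
        have f2 : |(2 / (d' : ℝ)) * (∑' n : ℤ, uq N q b' n * BX.dl d (n - a))| ≤ 2 * (2 / (N : ℝ) ^ 5) := by
          rw [abs_mul, abs_of_nonneg (by positivity : (0 : ℝ) ≤ 2 / d')]
          exact mul_le_mul (div_le_self (by norm_num) hdr') s1 (abs_nonneg _) (by norm_num)
        have f3 : |(4 / ((d : ℝ) * d')) * (∑' n : ℤ, uq N q b' n - N / q)| ≤ 4 * (1 / (N : ℝ) ^ 5) := by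
          rw [abs_mul, abs_of_nonneg (by positivity : (0 : ℝ) ≤ 4 / (d * d'))]
          exact mul_le_mul (div_le_self (by norm_num) (one_le_mul_of_one_le_of_one_le hdr hdr')) s0
            (abs_nonneg _) (by norm_num)
        have hcc : |(|c d| * |c' d'|)| ≤ 1 := by
          rw [abs_mul, abs_abs, abs_abs]
          calc |c d| * |c' d'| ≤ 1 * 1 :=
                mul_le_mul (hcO.bd d) (hcO'.bd d') (abs_nonneg _) zero_le_one
            _ = 1 := one_mul 1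
        rw [abs_mul]
        calc _ ≤ 1 * (2 * (2 / (N : ℝ) ^ 5) + 2 * (2 / (N : ℝ) ^ 5) + 4 * (1 / (N : ℝ) ^ 5)) := by
              refine mul_le_mul hcc ?_ (abs_nonneg _) zero_le_one
              exact (abs_add_le _ _).trans (add_le_add ((abs_add_le _ _).trans (add_le_add f1 f2)) f3)
          _ = 12 / (N : ℝ) ^ 5 := by ring
      have hXN : (X : ℝ) ≤ N := by
        refine hcd.hX.trans ?_
        calc (N : ℝ) ^ θ ≤ (N : ℝ) ^ (1 : ℝ) := Real.rpow_le_rpow_of_exponent_le hN1 (by linarith)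
          _ = N := Real.rpow_one _
      have hcardI : ((Ioc D0 X).card : ℝ) ≤ N := by
        rw [Nat.card_Ioc]
        refine le_trans ?_ hXN
        exact_mod_cast Nat.sub_le X D0
      calc _ ≤ ∑ _d ∈ Ioc D0 X, (N : ℝ) * (12 / (N : ℝ) ^ 5) := by
            refine sum_le_sum fun d hd => ?_
            refine (abs_sum_le_sum_abs _ _).trans ?_
            refine (sum_le_sum fun d' hd' => hterm d hd d' hd').trans ?_
            rw [sum_const, nsmul_eq_mul]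
            refine mul_le_mul_of_nonneg_right (le_trans ?_ hcardI) (by positivity)
            exact_mod_cast card_filter_le _ _
        _ ≤ 12 := by
            rw [sum_const, nsmul_eq_mul]
            calc ((Ioc D0 X).card : ℝ) * (N * (12 / (N : ℝ) ^ 5)) ≤ N * (N * (12 / (N : ℝ) ^ 5)) :=
                  mul_le_mul_of_nonneg_right hcardI (by positivity)
              _ = 12 / (N : ℝ) ^ 3 := by field_simp
              _ ≤ 12 := div_le_self (by norm_num) (one_le_pow₀ hN1)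
    have h5 := abs_sub_abs_le_abs_sub
      ((∑ d ∈ Ioc D0 X, ∑ d' ∈ (Ioc D0 X).filter (fun d' => Nat.Coprime d d'), |c d| * |c' d'| *
        ∑' n : ℤ, uq N q b' n * (al d (n - a) * al d' (n - a'))) - 4 * N * Mc c c' D0 X / q)
      (∑ d ∈ Ioc D0 X, ∑ d' ∈ (Ioc D0 X).filter (fun d' => Nat.Coprime d d'), |c d| * |c' d'| *
        ∑' n : ℤ, uq N q b' n * (BX.dl d (n - a) * BX.dl d' (n - a')))
    calc _ ≤ C * (N : ℝ) ^ (1 - η) + 12 := by linarith
      _ ≤ (C + 12) * (N : ℝ) ^ (1 - η) := by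
          have : (12 : ℝ) ≤ 12 * (N : ℝ) ^ (1 - η) := by linarith
          linarith

end Pool.Agent.J4.H38.SR3
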