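import Mathlib
import Pool.Agent.J4.H38.SR3.Cls

/-! The sieved correlations of centred divisor sums, coprime part. -/

set_option autoImplicit false

namespace Pool.Agent.J4.H38.SR3

open Finset
open Pool.Agent.H442R2
open Pool.Agent.H442R2.KF
open Pool.Agent.H442R2.BX.TaskEX (II II_one II_abs summable_bd Wt_pos dl_eq dl_abs)
open Pool.Agent.W41 (JJ)

/-- a finite set of integers which carries almost all of the weight -/
structure OmP (N : ℕ) (Ω : Finset ℤ) : Prop where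
  hsub : ∀ n : ℕ, 1 ≤ n → n ≤ N → (n : ℤ) ∈ Ω
  t1 : ∀ (h : ℤ → ℝ) (M : ℝ), (∀ n, |h n| ≤ M) →
    |∑ n ∈ Ω, Wt N n * h n - ∑' n : ℤ, Wt N n * h n| ≤ M * (1 / (N : ℝ) ^ 10)
  t2 : ∀ (h : ℤ → ℝ) (M : ℝ), (∀ n, |h n| ≤ M) →
    |∑ n ∈ Ω, Wt (2 * N) n * h n - ∑' n : ℤ, Wt (2 * N) n * h n| ≤ M * (1 / (N : ℝ) ^ 10)

lemma trunc_set {u : ℤ → ℝ} (hu : Summable u) (hu0 : ∀ n, 0 ≤ u n) {e : ℝ} (he : 0 < e) :
    ∀ᶠ Ω : Finset ℤ in Filter.atTop, ∀ (h : ℤ → ℝ) (M : ℝ), (∀ n, |h n| ≤ M) →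
      |∑ n ∈ Ω, u n * h n - ∑' n : ℤ, u n * h n| ≤ M * e := by
  have h1 := tendsto_tsum_compl_atTop_zero u
  have h2 := h1.eventually_le_const he
  filter_upwards [h2] with Ω hΩ
  intro h M hM
  have hM0 : 0 ≤ M := (abs_nonneg _).trans (hM 0)
  have hs : Summable (fun n => u n * h n) := by
    refine Summable.of_norm_bounded (hu.mul_right M) fun n => ?_
    rw [Real.norm_eq_abs, abs_mul, abs_of_nonneg (hu0 n)]
    exact mul_le_mul_of_nonneg_left (hM n) (hu0 n)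
  have h3 := hs.sum_add_tsum_compl (s := Ω)
  have h4 : ∑ n ∈ Ω, u n * h n - ∑' n : ℤ, u n * h n =
      -∑' n : ((Ω : Set ℤ)ᶜ : Set ℤ), u n * h n := by
    rw [← h3]; ring
  rw [h4, abs_neg, ← Real.norm_eq_abs]
  have hsub : Summable (fun n : ((Ω : Set ℤ)ᶜ : Set ℤ) => u n) := hu.subtype _
  have h5 : ‖∑' n : ((Ω : Set ℤ)ᶜ : Set ℤ), u n * h n‖ ≤ M * ∑' n : ((Ω : Set ℤ)ᶜ : Set ℤ), u n := by
    refine tsum_of_norm_bounded (hsub.hasSum.mul_left M) fun n => ?_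
    rw [Real.norm_eq_abs, abs_mul, abs_of_nonneg (hu0 n), mul_comm]
    exact mul_le_mul_of_nonneg_right (hM n) (hu0 n)
  refine h5.trans (mul_le_mul_of_nonneg_left ?_ hM0)
  exact hΩ

theorem exists_Om (N : ℕ) (hN : 1 ≤ N) : ∃ Ω : Finset ℤ, OmP N Ω := by
  have hN0 : (0 : ℝ) < N := by exact_mod_cast hN
  have h1 := trunc_set (TaskS.summable_Wt N hN) (fun n => (Wt_pos N n).le)
    (by positivity : 0 < 1 / (N : ℝ) ^ 10)
  have h2 := trunc_set (TaskS.summable_Wt (2 * N) (by omega)) (fun n => (Wt_pos (2 * N) n).le)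
    (by positivity : 0 < 1 / (N : ℝ) ^ 10)
  obtain ⟨Ω, ⟨h3, h4⟩, h5⟩ := ((h1.and h2).and (Filter.eventually_ge_atTop
    ((Icc 1 N).image (fun n : ℕ => (n : ℤ))))).exists
  refine ⟨Ω, ⟨fun n hn1 hn2 => h5 ?_, h3, h4⟩⟩
  rw [mem_image]
  exact ⟨n, mem_Icc.2 ⟨hn1, hn2⟩, rfl⟩

open Classical in
/-- the sifted integers -/
noncomputable def xr (P : Finset ℕ) (R : ℕ → ℕ → Prop) (n : ℤ) : ℝ :=
  if ∀ p ∈ P, ¬ R p (rs p n) then 1 else 0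

/-- the density -/
noncomputable def Vr (P : Finset ℕ) (R : ℕ → ℕ → Prop) : ℝ := ∏ p ∈ P, (1 - (cd R p : ℝ) / p)

lemma xr_bd (P : Finset ℕ) (R : ℕ → ℕ → Prop) (n : ℤ) : 0 ≤ xr P R n ∧ xr P R n ≤ 1 := by
  unfold xr
  split_ifs <;> norm_num

lemma cd_le (R : ℕ → ℕ → Prop) (p : ℕ) : cd R p ≤ p := by
  classical
  unfold cd
  exact (card_filter_le _ _).trans (card_range p).le

lemma Vr_nonneg (P : Finset ℕ) (R : ℕ → ℕ → Prop) : 0 ≤ Vr P R := by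
  refine prod_nonneg fun p _ => ?_
  rw [sub_nonneg]
  apply div_le_one_of_le₀ _ (Nat.cast_nonneg _)
  exact_mod_cast cd_le R p

/-- the error factor of the fundamental lemma -/
noncomputable def Er (C0 K0 b y : ℕ) : ℝ :=
  ((JJ y : ℝ) + 2) * ((y : ℝ) ^ (2 * (C0 * b)) * (K0 * (y : ℝ) ^ (2 * (C0 * b))))

lemma Er_nonneg (C0 K0 b y : ℕ) : 0 ≤ Er C0 K0 b y := by unfold Er; positivity

/-- the fundamental lemma with given constants -/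
def FLH (κd C0 K0 b y : ℕ) : Prop :=
  ∀ (Ω : Finset ℤ) (w : ℤ → ℝ) (X e : ℝ) (P : Finset ℕ) (R : ℕ → ℕ → Prop), (∀ n ∈ Ω, 0 ≤ w n) →
    0 ≤ X → 0 ≤ e → (∀ p ∈ P, p.Prime ∧ p ≤ y ∧ cd R p ≤ κd) →
    (∀ S ⊆ P, ∏ p ∈ S, p ≤ K0 * y ^ (2 * (C0 * b)) → ∀ c : ℤ,
      |∑ n ∈ Ω, w n * II (∏ p ∈ S, p) (n - c) - X / ((∏ p ∈ S, p : ℕ) : ℝ)| ≤ e) →
    |∑ n ∈ Ω, w n * xr P R n - X * Vr P R| ≤ (1 / 2 : ℝ) ^ b * (X * Vr P R) + Er C0 K0 b y * e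

theorem flh (κd : ℕ) : ∃ C0 K0 : ℕ, 1 ≤ C0 ∧ 1 ≤ K0 ∧ ∀ b : ℕ, C0 ≤ b → ∀ y : ℕ, 2 ≤ y →
    FLH κd C0 K0 b y := by
  classical
  obtain ⟨C0, K0, h1, h2, H⟩ := flw κd
  refine ⟨C0, K0, h1, h2, fun b hb y hy Ω w X e P R hw hX he hP hcl => ?_⟩
  have h3 := H b hb y hy Ω w X e P R hw hX he hP (by
    intro S hS hSp c
    have h4 := hcl S hS hSp c
    refine le_trans (le_of_eq ?_) h4
    congr 2
    rw [sum_filter]
    refine sum_congr rfl fun n _ => ?_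
    unfold II
    split_ifs <;> simp)
  have e1 : ∑ n ∈ Ω, w n * xr P R n = ∑ n ∈ Ω.filter (fun n => ∀ p ∈ P, ¬ R p (rs p n)), w n := by
    rw [sum_filter]
    refine sum_congr rfl fun n _ => ?_
    unfold xr
    split_ifs <;> simp
  rw [e1]
  refine h3.trans (le_of_eq ?_)
  unfold Vr Er
  ring

/-- products of small odd primes are coprime to rough numbers -/
lemma cofO_of {y : ℕ} (hy : 2 ≤ y) {S : Finset ℕ} (hS : ∀ p ∈ S, p.Prime ∧ p ≤ y) {c : ℕ → ℝ}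
    (hb : ∀ d, |c d| ≤ 1) (hc : ∀ d, c d ≠ 0 → ∀ p : ℕ, p.Prime → p ∣ d → y < p) :
    BX.CofO (∏ p ∈ S, p) c := by
  refine ⟨hb, fun d hd => ?_⟩
  refine Nat.Coprime.symm (Nat.coprime_of_dvd ?_)
  intro p hp hp1 hp2
  have h4 := hc d hd p hp hp2
  rcases (Nat.Prime.dvd_mul hp).1 hp1 with h5 | h5
  · have h6 : p ≤ 2 := Nat.le_of_dvd (by norm_num) h5
    omega
  · obtain ⟨l, hl, hpl⟩ := (hp.prime.dvd_finsetProd_iff _).1 h5
    have h6 : p = l := (Nat.prime_dvd_prime_iff_eq hp (hS l hl).1).1 hpl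
    have h7 := (hS l hl).2
    omega

lemma odd_prod {S : Finset ℕ} (hS : ∀ p ∈ S, p.Prime ∧ Odd p) :
    1 ≤ ∏ p ∈ S, p ∧ Odd (∏ p ∈ S, p) ∧ Squarefree (∏ p ∈ S, p) := by
  refine ⟨Nat.pos_of_ne_zero (prod_ne_zero_iff.2 fun p hp => (hS p hp).1.ne_zero), ?_, ?_⟩
  · exact Finset.prod_induction _ Odd (fun a b ha hb => ha.mul hb) odd_one fun p hp => (hS p hp).2
  · exact (Finset.squarefree_prod_of_pairwise_isCoprime (fun p hp q hq hpq => by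
      exact Nat.coprime_iff_isRelPrime.1 ((Nat.coprime_primes (hS p hp).1 (hS q hq).1).2 hpq))
      (fun p h => (hS p h).1.prime.squarefree))

/-- **the sieved correlation, coprime part** -/
theorem offc (θ δ : ℝ) (hθ0 : 0 < θ) (hθ : θ < 5 / 9) (hδ : 0 < δ) : ∃ ε₀ η : ℝ, 0 < ε₀ ∧ ε₀ ≤ 1 / 10 ∧
    0 < η ∧ η ≤ 1 ∧
    ∀ ε : ℝ, 0 < ε → ∃ (C : ℝ) (N₀ : ℕ), 0 < C ∧ ∀ (N D0 X : ℕ), N₀ ≤ N →
    ∀ (a a' : ℤ) (c c' : ℕ → ℝ), Cd N θ δ ε ε₀ D0 X a a' c c' →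
    ∀ (κd C0 K0 b y : ℕ), FLH κd C0 K0 b y → 2 ≤ y →
    (∀ d, c d ≠ 0 → ∀ p : ℕ, p.Prime → p ∣ d → y < p) →
    (∀ d, c' d ≠ 0 → ∀ p : ℕ, p.Prime → p ∣ d → y < p) →
    ((K0 * y ^ (2 * (C0 * b)) : ℕ) : ℝ) ≤ (N : ℝ) ^ ε₀ →
    ∀ (Ω : Finset ℤ), OmP N Ω → ∀ (P : Finset ℕ) (R : ℕ → ℕ → Prop),
    (∀ p ∈ P, p.Prime ∧ Odd p ∧ p ≤ y ∧ cd R p ≤ κd) →
    |∑ n ∈ Ω, Wt N n * Gc c c' D0 X a a' n * xr P R n| ≤
      8 * (1 / 2 : ℝ) ^ b * (N * (Mc c c' D0 X * Vr P R)) + Er C0 K0 b y * (C * (N : ℝ) ^ (1 - η)) := by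
  obtain ⟨ε₀, η, hε₀, hε₀1, hη, hη1, H⟩ := cls θ δ hθ0 hθ hδ
  refine ⟨ε₀, η, hε₀, hε₀1, hη, hη1, fun ε hε => ?_⟩
  obtain ⟨C, N₁, hC, H⟩ := H ε hε
  refine ⟨3 * C + 2, max 2 N₁, by linarith, ?_⟩
  intro N D0 X hN a a' c c' hcd κd C0 K0 b y hFL hy2 hcy hcy' hKN Ω hΩ P R hP
  have hN2 : 2 ≤ N := (le_max_left _ _).trans hN
  have hNN₁ : N₁ ≤ N := (le_max_right _ _).trans hN
  have hN1 : (1 : ℝ) ≤ N := by exact_mod_cast (by omega : 1 ≤ N)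
  have hN2r : (2 : ℝ) ≤ N := by exact_mod_cast hN2
  have hN0 : (0 : ℝ) < N := by linarith
  have hpow : (1 : ℝ) ≤ (N : ℝ) ^ (1 - η) := Real.one_le_rpow hN1 (by linarith)
  have hXN : (X : ℝ) ≤ N := by
    refine hcd.hX.trans ?_
    calc (N : ℝ) ^ θ ≤ (N : ℝ) ^ (1 : ℝ) := Real.rpow_le_rpow_of_exponent_le hN1 (by linarith)
      _ = N := Real.rpow_one _
  have hK4 : ∀ n, Kc c c' D0 X a a' n ≤ 4 * (N : ℝ) ^ 2 := fun n =>
    (Kc_le hcd.hD0 hcd.hR.bd hcd.hR'.bd a a' n).trans (by gcongr)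
  have hK0' : ∀ n, 0 ≤ Kc c c' D0 X a a' n := fun n => Kc_nonneg _ _ _ _ _ _ _
  have hG4 : ∀ n, |Gc c c' D0 X a a' n| ≤ Kc c c' D0 X a a' n := fun n => abs_Gc_le _ _ _ _ _ _ _
  set E := C * (N : ℝ) ^ (1 - η) with hE
  have hE0 : 0 ≤ E := by positivity
  have hM0 := Mc_nonneg c c' D0 X
  -- the truncated class sums
  have hN10 : (8 * (N : ℝ) ^ 2) * (1 / (N : ℝ) ^ 10) ≤ 1 := by
    have h1 : (8 * (N : ℝ) ^ 2) * (1 / (N : ℝ) ^ 10) = 8 / (N : ℝ) ^ 8 := by field_simp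
    rw [h1, div_le_one (by positivity)]
    calc (8 : ℝ) ≤ 2 ^ 8 := by norm_num
      _ ≤ (N : ℝ) ^ 8 := pow_le_pow_left₀ (by norm_num) hN2r 8
  have htr : ∀ (F : ℤ → ℝ), (∀ n, |F n| ≤ 8 * (N : ℝ) ^ 2) → ∀ (q : ℕ) (z : ℤ),
      |∑ n ∈ Ω, Wt N n * F n * II q (n - z) - ∑' n : ℤ, uq N q z n * F n| ≤ 1 := by
    intro F hF q z
    have h1 := hΩ.t1 (fun n => F n * II q (n - z)) (8 * (N : ℝ) ^ 2) (fun n => by
      rw [abs_mul]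
      calc |F n| * |II q (n - z)| ≤ 8 * (N : ℝ) ^ 2 * 1 :=
            mul_le_mul (hF n) (II_abs _ _) (abs_nonneg _) (by positivity)
        _ = _ := mul_one _)
    refine le_trans (le_of_eq ?_) (h1.trans hN10)
    congr 2
    · refine sum_congr rfl fun n _ => ?_
      ring
    · refine tsum_congr fun n => ?_
      rw [uq_eq]
      ring
  have hcls : ∀ S ⊆ P, ∏ p ∈ S, p ≤ K0 * y ^ (2 * (C0 * b)) → ∀ z : ℤ,
      |∑' n : ℤ, uq N (∏ p ∈ S, p) z n * Gc c c' D0 X a a' n| ≤ E ∧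
      |∑' n : ℤ, uq N (∏ p ∈ S, p) z n * Kc c c' D0 X a a' n -
        4 * N * Mc c c' D0 X / ((∏ p ∈ S, p : ℕ) : ℝ)| ≤ E := by
    intro S hS hSp z
    obtain ⟨g1, g2, g3⟩ := odd_prod (S := S) (fun p hp => ⟨(hP p (hS hp)).1, (hP p (hS hp)).2.1⟩)
    have hSy : ∀ p ∈ S, p.Prime ∧ p ≤ y := fun p hp => ⟨(hP p (hS hp)).1, (hP p (hS hp)).2.2.1⟩
    refine H N (∏ p ∈ S, p) D0 X hNN₁ g1 g2 g3 ?_ a a' c c' hcd (cofO_of hy2 hSy hcd.hR.bd hcy)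
      (cofO_of hy2 hSy hcd.hR'.bd hcy') z
    refine le_trans ?_ hKN
    exact_mod_cast hSp
  have hP' : ∀ p ∈ P, p.Prime ∧ p ≤ y ∧ cd R p ≤ κd := fun p hp =>
    ⟨(hP p hp).1, (hP p hp).2.2.1, (hP p hp).2.2.2⟩
  have hX4 : 0 ≤ 4 * (N : ℝ) * Mc c c' D0 X := by positivity
  have f1 := hFL Ω (fun n => Wt N n * (Kc c c' D0 X a a' n + Gc c c' D0 X a a' n))
    (4 * N * Mc c c' D0 X) (2 * E + 1) P R (fun n _ => mul_nonneg (Wt_pos N n).le (by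
      have := (abs_le.1 (hG4 n)).1
      linarith)) hX4 (by linarith) hP' (by
      intro S hS hSp z
      obtain ⟨g1, g2⟩ := hcls S hS hSp z
      have g3 := htr (fun n => Kc c c' D0 X a a' n + Gc c c' D0 X a a' n) (fun n => by
        have h1 := hG4 n
        have h2 := hK4 n
        have h3 := hK0' n
        have h4 := abs_le.1 h1
        rw [abs_le]
        constructor <;> linarith) (∏ p ∈ S, p) z
      have e1 : ∑' n : ℤ, uq N (∏ p ∈ S, p) z n * (Kc c c' D0 X a a' n + Gc c c' D0 X a a' n) =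
          ∑' n : ℤ, uq N (∏ p ∈ S, p) z n * Kc c c' D0 X a a' n +
          ∑' n : ℤ, uq N (∏ p ∈ S, p) z n * Gc c c' D0 X a a' n := by
        rw [← Summable.tsum_add]
        · exact tsum_congr fun n => by ring
        · exact uq_bd N (by omega) _ _ _ (4 * (N : ℝ) ^ 2) fun n => by
            rw [abs_of_nonneg (hK0' n)]
            exact hK4 n
        · exact uq_bd N (by omega) _ _ _ (4 * (N : ℝ) ^ 2) fun n => (hG4 n).trans (hK4 n)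
      rw [e1] at g3
      rw [abs_le] at g1 g2 g3 ⊢
      constructor <;> linarith)
  have f2 := hFL Ω (fun n => Wt N n * Kc c c' D0 X a a' n)
    (4 * N * Mc c c' D0 X) (E + 1) P R (fun n _ => mul_nonneg (Wt_pos N n).le (hK0' n)) hX4
    (by linarith) hP' (by
      intro S hS hSp z
      obtain ⟨g1, g2⟩ := hcls S hS hSp z
      have g3 := htr (fun n => Kc c c' D0 X a a' n) (fun n => by
        rw [abs_of_nonneg (hK0' n)]
        have := hK4 n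
        have : 0 ≤ (N : ℝ) ^ 2 := by positivity
        linarith) (∏ p ∈ S, p) z
      rw [abs_le] at g1 g2 g3 ⊢
      constructor <;> linarith)
  have e2 : ∑ n ∈ Ω, Wt N n * Gc c c' D0 X a a' n * xr P R n =
      ∑ n ∈ Ω, Wt N n * (Kc c c' D0 X a a' n + Gc c c' D0 X a a' n) * xr P R n -
      ∑ n ∈ Ω, Wt N n * Kc c c' D0 X a a' n * xr P R n := by
    rw [← sum_sub_distrib]
    refine sum_congr rfl fun n _ => ?_
    ring
  rw [e2]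
  have hEr := Er_nonneg C0 K0 b y
  have h7 : Er C0 K0 b y * (3 * E + 2) ≤ Er C0 K0 b y * ((3 * C + 2) * (N : ℝ) ^ (1 - η)) := by
    refine mul_le_mul_of_nonneg_left ?_ hEr
    rw [hE]
    have : (2 : ℝ) ≤ 2 * (N : ℝ) ^ (1 - η) := by linarith
    linarith
  have e3 : 8 * (1 / 2 : ℝ) ^ b * (N * (Mc c c' D0 X * Vr P R)) =
      2 * ((1 / 2 : ℝ) ^ b * (4 * N * Mc c c' D0 X * Vr P R)) := by ring
  rw [e3]
  have e4 : Er C0 K0 b y * (3 * E + 2) = Er C0 K0 b y * (2 * E + 1) + Er C0 K0 b y * (E + 1) := by ring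
  rw [e4] at h7
  rw [abs_le] at f1 f2 ⊢
  constructor <;> linarith

end Pool.Agent.J4.H38.SR3
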