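import Mathlib
import Pool.Agent.J4.H38.SR3.Off

/-! The sieved correlations of centred divisor sums. -/

set_option autoImplicit false

namespace Pool.Agent.J4.H38.SR3

open Finset
open Pool.Agent.H442R2
open Pool.Agent.H442R2.KF
open Pool.Agent.H442R2.BX.TaskEX (II II_one II_abs summable_bd Wt_pos dl_eq dl_abs)
open Pool.Agent.W41 (JJ)

/-- the part of the product which is not coprime -/
noncomputable def Gn (c c' : ℕ → ℝ) (D0 X : ℕ) (a a' n : ℤ) : ℝ :=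
  ∑ d ∈ Ioc D0 X, ∑ d' ∈ (Ioc D0 X).filter (fun d' => ¬ Nat.Coprime d d'),
    c d * c' d' * (BX.dl d (n - a) * BX.dl d' (n - a'))

lemma Rf_mul {c c' : ℕ → ℝ} {D0 X : ℕ} (hD : ∀ d, c d ≠ 0 → D0 < d) (hD' : ∀ d, c' d ≠ 0 → D0 < d)
    (a a' n : ℤ) : BX.Rf c X a n * BX.Rf c' X a' n = Gc c c' D0 X a a' n + Gn c c' D0 X a a' n := by
  classical
  have h1 : ∀ (e : ℕ → ℝ) (z : ℤ), (∀ d, e d ≠ 0 → D0 < d) →
      BX.Rf e X z n = ∑ d ∈ Ioc D0 X, e d * BX.dl d (n - z) := by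
    intro e z he
    unfold BX.Rf
    symm
    refine sum_subset ?_ ?_
    · intro d hd
      rw [mem_Ioc] at hd
      rw [mem_Icc]
      omega
    · intro d hd hnd
      rw [mem_Icc] at hd
      rw [mem_Ioc] at hnd
      have : e d = 0 := by
        by_contra h
        exact hnd ⟨he d h, hd.2⟩
      rw [this, zero_mul]
  rw [h1 c a hD, h1 c' a' hD', sum_mul_sum]
  unfold Gc Gn
  rw [← sum_add_distrib]
  refine sum_congr rfl fun d _ => ?_
  rw [sum_filter_add_sum_filter_not]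
  refine sum_congr rfl fun d' _ => ?_
  ring

/-- the majorant of the part which is not coprime -/
noncomputable def Hn (R : Finset ℕ) (a a' n : ℤ) : ℝ :=
  ∑ d ∈ R, ∑ d' ∈ R.filter (fun d' => ¬ Nat.Coprime d d'),
    (1 : ℝ) * (al d (n - a) * al d' (n - a'))

lemma abs_Gn_le {c c' : ℕ → ℝ} {y : ℝ} {D0 X : ℕ} (hc : BX.CofR y X c) (hc' : BX.CofR y X c')
    (a a' n : ℤ) : |Gn c c' D0 X a a' n| ≤ Hn (BX.roughs y X) a a' n := by
  classical
  unfold Gn Hn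
  have hmem : ∀ (e : ℕ → ℝ), BX.CofR y X e → ∀ d, 1 ≤ d → e d ≠ 0 → d ∈ BX.roughs y X := by
    intro e he d hd h
    obtain ⟨h1, h2⟩ := he.supp d h
    unfold BX.roughs
    rw [mem_filter, mem_Icc]
    exact ⟨⟨hd, h1⟩, h2⟩
  refine (abs_sum_le_sum_abs _ _).trans ?_
  have h1 : ∀ d ∈ Ioc D0 X, |∑ d' ∈ (Ioc D0 X).filter (fun d' => ¬ Nat.Coprime d d'),
      c d * c' d' * (BX.dl d (n - a) * BX.dl d' (n - a'))| ≤
      (if d ∈ BX.roughs y X then ∑ d' ∈ (BX.roughs y X).filter (fun d' => ¬ Nat.Coprime d d'),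
        (1 : ℝ) * (al d (n - a) * al d' (n - a')) else 0) := by
    intro d hd
    have hd1 : 1 ≤ d := by have := (mem_Ioc.1 hd).1; omega
    by_cases h : c d = 0
    · have : ∑ d' ∈ (Ioc D0 X).filter (fun d' => ¬ Nat.Coprime d d'),
          c d * c' d' * (BX.dl d (n - a) * BX.dl d' (n - a')) = 0 := by
        refine sum_eq_zero fun d' _ => ?_
        rw [h]
        ring
      rw [this, abs_zero]
      split_ifs
      · exact sum_nonneg fun _ _ => mul_nonneg zero_le_one (mul_nonneg (al_nonneg _ _) (al_nonneg _ _))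
      · exact le_rfl
    · rw [if_pos (hmem c hc d hd1 h)]
      refine (abs_sum_le_sum_abs _ _).trans ?_
      have h2 : ∀ d' ∈ (Ioc D0 X).filter (fun d' => ¬ Nat.Coprime d d'),
          |c d * c' d' * (BX.dl d (n - a) * BX.dl d' (n - a'))| ≤
          (if d' ∈ BX.roughs y X then (1 : ℝ) * (al d (n - a) * al d' (n - a')) else 0) := by
        intro d' hd'
        have hd1' : 1 ≤ d' := by have := (mem_Ioc.1 (mem_filter.1 hd').1).1; omega
        by_cases h' : c' d' = 0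
        · rw [h', mul_zero, zero_mul, abs_zero]
          split_ifs
          · exact mul_nonneg zero_le_one (mul_nonneg (al_nonneg _ _) (al_nonneg _ _))
          · exact le_rfl
        · rw [if_pos (hmem c' hc' d' hd1' h'), abs_mul, abs_mul, abs_mul]
          refine mul_le_mul ?_ (mul_le_mul (abs_dl_le_al _ _) (abs_dl_le_al _ _) (abs_nonneg _)
            (al_nonneg _ _)) (by positivity) zero_le_one
          calc |c d| * |c' d'| ≤ 1 * 1 := mul_le_mul (hc.bd d) (hc'.bd d') (abs_nonneg _) zero_le_one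
            _ = 1 := one_mul 1
      refine (sum_le_sum h2).trans ?_
      rw [← sum_filter]
      refine sum_le_sum_of_subset_of_nonneg ?_ fun _ _ _ =>
        mul_nonneg zero_le_one (mul_nonneg (al_nonneg _ _) (al_nonneg _ _))
      intro d' hd'
      rw [mem_filter, mem_filter] at hd'
      exact mem_filter.2 ⟨hd'.2, hd'.1.2⟩
  refine (sum_le_sum h1).trans ?_
  rw [← sum_filter]
  refine sum_le_sum_of_subset_of_nonneg ?_ fun _ _ _ => sum_nonneg fun _ _ =>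
    mul_nonneg zero_le_one (mul_nonneg (al_nonneg _ _) (al_nonneg _ _))
  intro d hd
  exact (mem_filter.1 hd).2

lemma tsum_II_le {N : ℕ} (hN : 1 ≤ N) (d : ℕ) (hd : 1 ≤ d) (hdN : d ≤ N) (a : ℤ) :
    ∑' n : ℤ, uq N 1 0 n * II d (n - a) ≤ 8 * N / d := by
  have h1 := (BX.GS N hN).2 d a hd
  have h2 : ∑' n : ℤ, uq N 1 0 n * II d (n - a) = ∑' n : ℤ, (if (d : ℤ) ∣ n - a then Wt N n else 0) := by
    refine tsum_congr fun n => ?_
    rw [uq_eq, II_one]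
    unfold II
    split_ifs <;> simp
  rw [h2]
  refine h1.trans ?_
  have hd0 : (0 : ℝ) < d := by exact_mod_cast hd
  have h3 : (1 : ℝ) ≤ N / d := by
    rw [le_div_iff₀ hd0, one_mul]
    exact_mod_cast hdN
  have h4 : 8 * (N : ℝ) / d = 8 * (N / d) := by ring
  rw [h4]
  linarith

/-- **pairs with a common factor** -/
theorem ncs (ε : ℝ) (hε : 0 < ε) : ∃ C : ℝ, 0 < C ∧ ∀ (N X : ℕ), 2 ≤ N → X ≤ N →
    ∀ (a a' : ℤ), |(a : ℝ)| ≤ N → |(a' : ℝ)| ≤ N → a ≠ a' → ∀ (Ω : Finset ℤ),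
    ∑ n ∈ Ω, Wt N n * Hn (BX.roughs ((N : ℝ) ^ ε) X) a a' n ≤ C * ((N : ℝ) ^ (1 - ε / 2) + X) := by
  classical
  obtain ⟨C₁, hC₁, H1⟩ := BX.NC BX.RC BX.GS ε hε
  obtain ⟨C₂, hC₂, H2⟩ := BX.RB ε hε
  refine ⟨C₁ + 24 * C₂, by positivity, fun N X hN hXN a a' ha ha' haa Ω => ?_⟩
  have hN1 : (1 : ℝ) ≤ N := by exact_mod_cast (by omega : 1 ≤ N)
  have hN0 : (0 : ℝ) < N := by linarith
  set R := BX.roughs ((N : ℝ) ^ ε) X with hR
  have hRm : ∀ d ∈ R, 1 ≤ d ∧ d ≤ N := by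
    intro d hd
    rw [hR] at hd
    unfold BX.roughs at hd
    rw [mem_filter, mem_Icc] at hd
    exact ⟨hd.1.1, hd.1.2.trans hXN⟩
  have hψ' : ∀ d d' : ℕ, ∃ B : ℝ, ∀ n : ℤ, |al d (n - a) * al d' (n - a')| ≤ B := fun d d' =>
      ⟨(2 + 2 / d) * (2 + 2 / d'), fun n => by
        have h1 : ∀ (k : ℕ) (m : ℤ), |al k m| ≤ 2 + 2 / k := by
          intro k m
          rw [abs_of_nonneg (al_nonneg _ _)]
          unfold al
          have := (abs_le.1 (dl_abs k m)).2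
          linarith
        rw [abs_mul]
        exact mul_le_mul (h1 _ _) (h1 _ _) (abs_nonneg _) (by positivity)⟩
  have h1 := tsum_ds N (by omega) 1 0 R (fun d => R.filter (fun d' => ¬ Nat.Coprime d d'))
      (fun _ _ => (1 : ℝ)) (fun d d' n => al d (n - a) * al d' (n - a')) hψ'
  have hu1 : ∀ n, uq N 1 0 n = Wt N n := fun n => by rw [uq_eq, II_one, mul_one]
  have h2 : ∑ n ∈ Ω, Wt N n * Hn R a a' n ≤ ∑ d ∈ R, ∑ d' ∈ R.filter (fun d' => ¬ Nat.Coprime d d'),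
      1 * ∑' n : ℤ, uq N 1 0 n * (al d (n - a) * al d' (n - a')) := by
    have h3 := sum_le_hasSum Ω (fun n _ => mul_nonneg (uq_nonneg N 1 0 n) (sum_nonneg fun d _ =>
      sum_nonneg fun d' _ => mul_nonneg zero_le_one (mul_nonneg (al_nonneg d (n - a)) (al_nonneg d' (n - a'))))) h1
    refine le_trans (le_of_eq ?_) h3
    refine sum_congr rfl fun n _ => ?_
    rw [hu1]
    rfl
  refine h2.trans ?_
  have h3 : ∀ d ∈ R, ∀ d' ∈ R.filter (fun d' => ¬ Nat.Coprime d d'),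
      1 * ∑' n : ℤ, uq N 1 0 n * (al d (n - a) * al d' (n - a')) ≤
      BX.SE N a a' 1 d d' + 24 * N * (1 / ((d : ℝ) * d')) := by
    intro d hd d' hd'
    obtain ⟨hd1, hdN⟩ := hRm d hd
    obtain ⟨hd1', hdN'⟩ := hRm d' (mem_filter.1 hd').1
    have hd0 : (0 : ℝ) < d := by exact_mod_cast hd1
    have hd0' : (0 : ℝ) < d' := by exact_mod_cast hd1'
    have b1 := tsum_II_le (by omega : 1 ≤ N) d hd1 hdN a
    have b2 := tsum_II_le (by omega : 1 ≤ N) d' hd1' hdN' a'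
    have b3 := tsum_II_le (by omega : 1 ≤ N) 1 le_rfl (by omega) 0
    have s1 := (uq_bd N (by omega) 1 0 (fun n => II d (n - a) * II d' (n - a')) 1 (fun n => by
      rw [abs_mul]
      calc _ ≤ (1 : ℝ) * 1 := mul_le_mul (II_abs _ _) (II_abs _ _) (abs_nonneg _) (by norm_num)
        _ = 1 := by norm_num)).hasSum
    have s2 := ((uq_bd N (by omega) 1 0 (fun n => II d' (n - a')) 1 (fun n => II_abs _ _)).hasSum).mul_left
      (1 / (d : ℝ))
    have s3 := ((uq_bd N (by omega) 1 0 (fun n => II d (n - a)) 1 (fun n => II_abs _ _)).hasSum).mul_left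
      (1 / (d' : ℝ))
    have s4 := ((uq_bd N (by omega) 1 0 (fun n => II 1 (n - 0)) 1 (fun n => II_abs _ _)).hasSum).mul_left
      (1 / ((d : ℝ) * d'))
    have e1 : ∑' n : ℤ, uq N 1 0 n * (al d (n - a) * al d' (n - a')) =
        ∑' n : ℤ, uq N 1 0 n * (II d (n - a) * II d' (n - a')) +
        1 / (d : ℝ) * ∑' n : ℤ, uq N 1 0 n * II d' (n - a') +
        1 / (d' : ℝ) * ∑' n : ℤ, uq N 1 0 n * II d (n - a) +
        1 / ((d : ℝ) * d') * ∑' n : ℤ, uq N 1 0 n * II 1 (n - 0) := by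
      rw [← (((s1.add s2).add s3).add s4).tsum_eq]
      refine tsum_congr fun n => ?_
      rw [al_eq, al_eq, II_one]
      have e : (1 : ℝ) / ((d : ℝ) * d') = (1 / (d : ℝ)) * (1 / (d' : ℝ)) := by
        rw [div_mul_div_comm, one_mul]
      rw [e]
      ring
    have e2 : ∑' n : ℤ, uq N 1 0 n * (II d (n - a) * II d' (n - a')) = BX.SE N a a' 1 d d' := by
      unfold BX.SE
      refine tsum_congr fun n => ?_
      rw [hu1]
      unfold II
      by_cases g1 : (d : ℤ) ∣ n - a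
      · by_cases g2 : (d' : ℤ) ∣ n - a'
        · simp [g1, g2]
        · simp [g1, g2]
      · simp [g1]
    rw [one_mul, e1, e2]
    have c1 : 1 / (d : ℝ) * ∑' n : ℤ, uq N 1 0 n * II d' (n - a') ≤ 8 * N * (1 / ((d : ℝ) * d')) := by
      calc _ ≤ 1 / (d : ℝ) * (8 * N / d') := mul_le_mul_of_nonneg_left b2 (by positivity)
        _ = _ := by field_simp
    have c2 : 1 / (d' : ℝ) * ∑' n : ℤ, uq N 1 0 n * II d (n - a) ≤ 8 * N * (1 / ((d : ℝ) * d')) := by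
      calc _ ≤ 1 / (d' : ℝ) * (8 * N / d) := mul_le_mul_of_nonneg_left b1 (by positivity)
        _ = _ := by field_simp
    have c3 : 1 / ((d : ℝ) * d') * ∑' n : ℤ, uq N 1 0 n * II 1 (n - 0) ≤ 8 * N * (1 / ((d : ℝ) * d')) := by
      calc _ ≤ 1 / ((d : ℝ) * d') * (8 * N / (1 : ℕ)) := mul_le_mul_of_nonneg_left b3 (by positivity)
        _ = _ := by push_cast; ring
    linarith
  refine (sum_le_sum fun d hd => sum_le_sum (h3 d hd)).trans ?_
  simp only [sum_add_distrib, ← mul_sum]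
  have h4 := H1 N 1 X hN le_rfl hXN a a' ha ha' haa
  have h5 : ∑ d ∈ R, ∑ d' ∈ R.filter (fun d' => ¬ Nat.Coprime d d'), 1 / ((d : ℝ) * d') ≤
      C₂ * (N : ℝ) ^ (-(ε / 2)) := by
    refine le_trans ?_ (H2 N hN)
    have hsub : R ⊆ BX.roughs ((N : ℝ) ^ ε) N := by
      intro d hd
      rw [hR] at hd
      unfold BX.roughs at hd ⊢
      rw [mem_filter, mem_Icc] at hd ⊢
      exact ⟨⟨hd.1.1, hd.1.2.trans hXN⟩, hd.2⟩
    calc _ ≤ ∑ d ∈ R, ∑ d' ∈ (BX.roughs ((N : ℝ) ^ ε) N).filter (fun d' => ¬ Nat.Coprime d d'),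
          1 / ((d : ℝ) * d') := by
          refine Finset.sum_le_sum fun d _ => ?_
          exact Finset.sum_le_sum_of_subset_of_nonneg (Finset.filter_subset_filter _ hsub)
            fun _ _ _ => by positivity
      _ ≤ _ := Finset.sum_le_sum_of_subset_of_nonneg hsub
            fun _ _ _ => Finset.sum_nonneg fun _ _ => by positivity
  have h6 : 24 * (N : ℝ) * ∑ d ∈ R, ∑ d' ∈ R.filter (fun d' => ¬ Nat.Coprime d d'), 1 / ((d : ℝ) * d') ≤
      24 * C₂ * (N : ℝ) ^ (1 - ε / 2) := by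
    calc _ ≤ 24 * (N : ℝ) * (C₂ * (N : ℝ) ^ (-(ε / 2))) := mul_le_mul_of_nonneg_left h5 (by positivity)
      _ = 24 * C₂ * ((N : ℝ) ^ (1 : ℝ) * (N : ℝ) ^ (-(ε / 2))) := by rw [Real.rpow_one]; ring
      _ = _ := by rw [← Real.rpow_add hN0]; congr 2
  have h7 : (N : ℝ) ^ (1 - ε) ≤ (N : ℝ) ^ (1 - ε / 2) :=
    Real.rpow_le_rpow_of_exponent_le hN1 (by linarith)
  have hX0 : (0 : ℝ) ≤ X := Nat.cast_nonneg _
  calc _ ≤ C₁ * ((N : ℝ) ^ (1 - ε) + X) + 24 * C₂ * (N : ℝ) ^ (1 - ε / 2) := add_le_add h4 h6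
    _ ≤ C₁ * ((N : ℝ) ^ (1 - ε / 2) + X) + 24 * C₂ * ((N : ℝ) ^ (1 - ε / 2) + X) := by
        gcongr
        linarith
    _ = _ := by ring

/-- **the sieved correlation** -/
theorem offd (θ δ : ℝ) (hθ0 : 0 < θ) (hθ : θ < 5 / 9) (hδ : 0 < δ) : ∃ ε₀ η : ℝ, 0 < ε₀ ∧ ε₀ ≤ 1 / 10 ∧
    0 < η ∧ η ≤ 1 ∧
    ∀ ε : ℝ, 0 < ε → ∃ (C : ℝ) (N₀ : ℕ), 0 < C ∧ ∀ (N D0 X : ℕ), N₀ ≤ N →
    ∀ (a a' : ℤ) (c c' : ℕ → ℝ), Cd N θ δ ε ε₀ D0 X a a' c c' → (∀ d, c d ≠ 0 → D0 < d) →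
    (∀ d, c' d ≠ 0 → D0 < d) →
    ∀ (κd C0 K0 b y : ℕ), FLH κd C0 K0 b y → 2 ≤ y →
    (∀ d, c d ≠ 0 → ∀ p : ℕ, p.Prime → p ∣ d → y < p) →
    (∀ d, c' d ≠ 0 → ∀ p : ℕ, p.Prime → p ∣ d → y < p) →
    ((K0 * y ^ (2 * (C0 * b)) : ℕ) : ℝ) ≤ (N : ℝ) ^ ε₀ →
    ∀ (Ω : Finset ℤ), OmP N Ω → ∀ (P : Finset ℕ) (R : ℕ → ℕ → Prop),
    (∀ p ∈ P, p.Prime ∧ Odd p ∧ p ≤ y ∧ cd R p ≤ κd) →
    |∑ n ∈ Ω, Wt N n * (BX.rf c X a n * BX.rf c' X a' n) * xr P R n| ≤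
      8 * (1 / 2 : ℝ) ^ b * (N * (Mc c c' D0 X * Vr P R)) + Er C0 K0 b y * (C * (N : ℝ) ^ (1 - η)) +
        C * ((N : ℝ) ^ (1 - ε / 2) + (N : ℝ) ^ θ) := by
  obtain ⟨ε₀, η, hε₀, hε₀1, hη, hη1, H⟩ := offc θ δ hθ0 hθ hδ
  refine ⟨ε₀, η, hε₀, hε₀1, hη, hη1, fun ε hε => ?_⟩
  obtain ⟨C₁, N₁, hC₁, H⟩ := H ε hε
  obtain ⟨C₂, hC₂, H2⟩ := ncs ε hε
  obtain ⟨N₃, C₃, hC₃, H3⟩ := BX.PB_thm ε hε
  refine ⟨C₁ + C₂ + 4 * C₃, max 2 (max N₁ N₃), by positivity, ?_⟩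
  intro N D0 X hN a a' c c' hcd hD hD' κd C0 K0 b y hFL hy2 hcy hcy' hKN Ω hΩ P R hP
  have hN2 : 2 ≤ N := (le_max_left _ _).trans hN
  have hNN₁ : N₁ ≤ N := ((le_max_left _ _).trans (le_max_right _ _)).trans hN
  have hNN₃ : N₃ ≤ N := ((le_max_right _ _).trans (le_max_right _ _)).trans hN
  have hN1 : (1 : ℝ) ≤ N := by exact_mod_cast (by omega : 1 ≤ N)
  have hN0 : (0 : ℝ) < N := by linarith
  have hXNr : (X : ℝ) ≤ N := by
    refine hcd.hX.trans ?_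
    calc (N : ℝ) ^ θ ≤ (N : ℝ) ^ (1 : ℝ) := Real.rpow_le_rpow_of_exponent_le hN1 (by linarith)
      _ = N := Real.rpow_one _
  have hXN : X ≤ N := by exact_mod_cast hXNr
  have hsq : 0 ≤ (N : ℝ) ^ (1 / 2 : ℝ) := by positivity
  have ha : |(a : ℝ)| ≤ N := hcd.ha.trans (by linarith)
  have ha' : |(a' : ℝ)| ≤ N := hcd.ha'.trans (by linarith)
  have g1 := H N D0 X hNN₁ a a' c c' hcd κd C0 K0 b y hFL hy2 hcy hcy' hKN Ω hΩ P R hP
  have g2 := H2 N X hN2 hXN a a' ha ha' hcd.hne Ω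
  have hX0 : (0 : ℝ) ≤ X := Nat.cast_nonneg _
  -- the values at the two points
  have hval : ∀ (u : ℕ → ℝ), BX.CofR ((N : ℝ) ^ ε) X u → ∀ z n : ℤ, |(z : ℝ)| ≤ N →
      |(n : ℝ)| ≤ N → n ≠ z → |BX.Rf u X z n| ≤ 2 * C₃ := by
    intro u hu z n hz hn hnb
    have h1 := H3 N X hNN₃ hXN u hu z n hz
    have h2 : BX.rf u X z n = BX.Rf u X z n := by
      unfold BX.rf; rw [if_neg hnb]
    rw [h2] at h1
    have h3 : (1 + |(n : ℝ)| / N) ^ (1 / 4 : ℝ) ≤ 2 := by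
      have h4 : 1 + |(n : ℝ)| / N ≤ 2 := by
        have : |(n : ℝ)| / N ≤ 1 := by
          rw [div_le_one hN0]; exact hn
        linarith
      have h5 : (0 : ℝ) ≤ 1 + |(n : ℝ)| / N := by positivity
      calc (1 + |(n : ℝ)| / N) ^ (1 / 4 : ℝ) ≤ (2 : ℝ) ^ (1 / 4 : ℝ) :=
            Real.rpow_le_rpow h5 h4 (by norm_num)
        _ ≤ (2 : ℝ) ^ (1 : ℝ) := Real.rpow_le_rpow_of_exponent_le (by norm_num) (by norm_num)
        _ = 2 := Real.rpow_one _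
    calc |BX.Rf u X z n| ≤ C₃ * (1 + |(n : ℝ)| / N) ^ (1 / 4 : ℝ) := h1
      _ ≤ C₃ * 2 := mul_le_mul_of_nonneg_left h3 hC₃.le
      _ = 2 * C₃ := by ring
  have hpt : ∀ n : ℤ, |BX.rf c X a n * BX.rf c' X a' n - BX.Rf c X a n * BX.Rf c' X a' n| ≤
      (if n = a then (X : ℝ) * (2 * C₃) else 0) + (if n = a' then (X : ℝ) * (2 * C₃) else 0) := by
    intro n
    have hb0 : 0 ≤ (X : ℝ) * (2 * C₃) := by positivity
    by_cases h1 : n = a
    · subst h1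
      have h2 : BX.rf c X n n = 0 := by unfold BX.rf; rw [if_pos rfl]
      rw [h2, zero_mul, zero_sub, abs_neg, abs_mul, if_pos rfl]
      have h3 := mul_le_mul (BX.TaskTT.abs_Rf_le c hcd.hR.bd X n n)
        (hval c' hcd.hR' a' n ha' ha hcd.hne) (abs_nonneg _) hX0
      have h4 : 0 ≤ (if n = a' then (X : ℝ) * (2 * C₃) else 0) := by split_ifs <;> simp [hb0]
      linarith
    · by_cases h2 : n = a'
      · subst h2
        have h2 : BX.rf c' X n n = 0 := by unfold BX.rf; rw [if_pos rfl]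
        rw [h2, mul_zero, zero_sub, abs_neg, abs_mul, if_neg h1, if_pos rfl, zero_add]
        rw [mul_comm]
        exact mul_le_mul (BX.TaskTT.abs_Rf_le c' hcd.hR'.bd X n n)
          (hval c hcd.hR a n ha ha' h1) (abs_nonneg _) hX0
      · have h3 : BX.rf c X a n = BX.Rf c X a n := by unfold BX.rf; rw [if_neg h1]
        have h4 : BX.rf c' X a' n = BX.Rf c' X a' n := by unfold BX.rf; rw [if_neg h2]
        rw [h3, h4, sub_self, abs_zero, if_neg h1, if_neg h2, add_zero]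
  have hxr : ∀ n, 0 ≤ xr P R n ∧ xr P R n ≤ 1 := xr_bd P R
  have hsplit : ∑ n ∈ Ω, Wt N n * (BX.rf c X a n * BX.rf c' X a' n) * xr P R n =
      ∑ n ∈ Ω, Wt N n * Gc c c' D0 X a a' n * xr P R n +
      ∑ n ∈ Ω, Wt N n * Gn c c' D0 X a a' n * xr P R n +
      ∑ n ∈ Ω, Wt N n * (BX.rf c X a n * BX.rf c' X a' n - BX.Rf c X a n * BX.Rf c' X a' n) * xr P R n := by
    rw [← sum_add_distrib, ← sum_add_distrib]
    refine sum_congr rfl fun n _ => ?_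
    rw [Rf_mul hD hD']
    ring
  have k2 : |∑ n ∈ Ω, Wt N n * Gn c c' D0 X a a' n * xr P R n| ≤ C₂ * ((N : ℝ) ^ (1 - ε / 2) + X) := by
    refine (abs_sum_le_sum_abs _ _).trans (le_trans (sum_le_sum fun n _ => ?_) g2)
    rw [abs_mul, abs_mul, abs_of_nonneg (Wt_pos N n).le, abs_of_nonneg (hxr n).1]
    have h1 := abs_Gn_le (D0 := D0) hcd.hR hcd.hR' a a' n
    have h2 := Wt_pos N n
    calc Wt N n * |Gn c c' D0 X a a' n| * xr P R n ≤ Wt N n * |Gn c c' D0 X a a' n| * 1 :=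
          mul_le_mul_of_nonneg_left (hxr n).2 (by positivity)
      _ = Wt N n * |Gn c c' D0 X a a' n| := mul_one _
      _ ≤ _ := mul_le_mul_of_nonneg_left h1 h2.le
  have k3 : |∑ n ∈ Ω, Wt N n * (BX.rf c X a n * BX.rf c' X a' n - BX.Rf c X a n * BX.Rf c' X a' n) *
      xr P R n| ≤ 2 * ((X : ℝ) * (2 * C₃)) := by
    refine (abs_sum_le_sum_abs _ _).trans ?_
    calc _ ≤ ∑ n ∈ Ω, ((if n = a then (X : ℝ) * (2 * C₃) else 0) +
          (if n = a' then (X : ℝ) * (2 * C₃) else 0)) := by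
          refine sum_le_sum fun n _ => ?_
          rw [abs_mul, abs_mul, abs_of_nonneg (Wt_pos N n).le, abs_of_nonneg (hxr n).1]
          have h1 := hpt n
          have h2 := BX.TaskTT.Wt_le_one N n
          have h3 := (Wt_pos N n).le
          calc _ ≤ 1 * |BX.rf c X a n * BX.rf c' X a' n - BX.Rf c X a n * BX.Rf c' X a' n| * 1 := by
                refine mul_le_mul (mul_le_mul_of_nonneg_right h2 (abs_nonneg _)) (hxr n).2 (hxr n).1
                  (by positivity)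
            _ ≤ _ := by rw [one_mul, mul_one]; exact h1
      _ ≤ _ := by
          rw [sum_add_distrib, sum_ite_eq', sum_ite_eq']
          have hb0 : 0 ≤ (X : ℝ) * (2 * C₃) := by positivity
          split_ifs <;> linarith
  rw [hsplit]
  have hEr := Er_nonneg C0 K0 b y
  have hp1 : 0 ≤ (N : ℝ) ^ (1 - η) := by positivity
  have hp2 : 0 ≤ (N : ℝ) ^ (1 - ε / 2) := by positivity
  have hp3 : (X : ℝ) ≤ (N : ℝ) ^ θ := hcd.hX
  have k1' : Er C0 K0 b y * (C₁ * (N : ℝ) ^ (1 - η)) ≤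
      Er C0 K0 b y * ((C₁ + C₂ + 4 * C₃) * (N : ℝ) ^ (1 - η)) := by
    refine mul_le_mul_of_nonneg_left (mul_le_mul_of_nonneg_right ?_ hp1) hEr
    linarith
  have k4 : C₂ * ((N : ℝ) ^ (1 - ε / 2) + X) + 2 * ((X : ℝ) * (2 * C₃)) ≤
      (C₁ + C₂ + 4 * C₃) * ((N : ℝ) ^ (1 - ε / 2) + (N : ℝ) ^ θ) := by
    have h1 : C₂ * ((N : ℝ) ^ (1 - ε / 2) + X) ≤ C₂ * ((N : ℝ) ^ (1 - ε / 2) + (N : ℝ) ^ θ) := by gcongr
    have h2 : 2 * ((X : ℝ) * (2 * C₃)) ≤ 4 * C₃ * ((N : ℝ) ^ (1 - ε / 2) + (N : ℝ) ^ θ) := by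
      have : (X : ℝ) ≤ (N : ℝ) ^ (1 - ε / 2) + (N : ℝ) ^ θ := by linarith
      have := mul_le_mul_of_nonneg_left this (by positivity : 0 ≤ 4 * C₃)
      linarith
    have h3 : 0 ≤ C₁ * ((N : ℝ) ^ (1 - ε / 2) + (N : ℝ) ^ θ) := by positivity
    linarith
  refine (abs_add_le _ _).trans ?_
  have h9 := abs_add_le (∑ n ∈ Ω, Wt N n * Gc c c' D0 X a a' n * xr P R n)
    (∑ n ∈ Ω, Wt N n * Gn c c' D0 X a a' n * xr P R n)
  linarith

end Pool.Agent.J4.H38.SR3
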