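import Mathlib
import Pool.Agent.J4.H38.SR.Kuhn2
import Pool.Agent.W23.DC.Fin4
import Pool.Agent.W378.DC.FA
import Pool.Agent.W378.DC.MP
import Pool.Agent.W120.DC.NU

/-! Richert's weights with level `111/200` and a general weighted sequence. -/

set_option autoImplicit false

namespace Pool.Agent.J4.H38.SR3

open Finset
open Pool.Agent.W23
open Pool.Agent.W23.DC
open Pool.Agent.Y822.Lin (mer_of)

/-- the moduli of the error term -/
noncomputable def FR (N : ℕ) (ε₁ : ℝ) : Finset ℕ := by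
  classical
  exact (facR N (111 / 200) (ε₁ / 2) (1 / 500)).filter
    (fun d => 1 < d ∧ Squarefree d ∧ ∀ p ∈ d.primeFactors, ε₁ ≤ tt N p)

lemma mem_FR {N : ℕ} {ε₁ : ℝ} {d : ℕ} : d ∈ FR N ε₁ ↔ d ∈ facR N (111 / 200) (ε₁ / 2) (1 / 500) ∧
    1 < d ∧ Squarefree d ∧ ∀ p ∈ d.primeFactors, ε₁ ≤ tt N p := by
  classical
  unfold FR
  rw [mem_filter]

/-- the first error term -/
theorem errR1 {N : ℕ} (hN : 2 ≤ N) {ε₁ : ℝ} (hε : 0 < ε₁) (r : ℕ → ℝ) (hr : r 1 = 0) :
    ∑ e ∈ EE (pr N ε₁ (1 / 7)) (tt N) (111 / 200) (1 / 7), |r (1 * e)| ≤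
      ∑ d ∈ FR N ε₁, |r d| := by
  classical
  have h1 : ∑ e ∈ EE (pr N ε₁ (1 / 7)) (tt N) (111 / 200) (1 / 7), |r (1 * e)| =
      ∑ e ∈ (EE (pr N ε₁ (1 / 7)) (tt N) (111 / 200) (1 / 7)).filter (fun e => 1 < e), |r e| := by
    rw [Finset.sum_filter]
    apply Finset.sum_congr rfl
    intro e he
    rw [one_mul]
    split_ifs with h
    · rfl
    · have h0 := (mem_EE he).1
      have : e = 1 := by omega
      rw [this, hr, abs_zero]
  rw [h1]
  apply Finset.sum_le_sum_of_subset_of_nonneg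
  · intro e he
    rw [mem_filter] at he
    obtain ⟨h2, h3, h4, h5⟩ := mem_EE he.1
    exact mem_FR.2 ⟨(Pool.Agent.W378.DC.FA N ε₁ hN hε).1 e he.2 h3 (fun p hp => (h4 p hp).1) h5,
      he.2, h3, fun p hp => (h4 p hp).1⟩
  · intro _ _ _
    exact abs_nonneg _

/-- the second error term -/
theorem errR2 {N : ℕ} (hN : 2 ≤ N) {ε₁ : ℝ} (hε : 0 < ε₁) (hε2 : ε₁ ≤ 1 / 25) (r : ℕ → ℝ) :
    ∑ q ∈ pr N (1 / 7) (119 / 250),
      ∑ e ∈ EE (pr N ε₁ (1 / 7)) (tt N) (ta N q) (za N q), |r (q * e)| ≤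
      ∑ d ∈ FR N ε₁, |r d| := by
  classical
  rw [Finset.sum_sigma' (f := fun q e => |r (q * e)|)]
  have hinj : Set.InjOn (fun x : (_ : ℕ) × ℕ => x.1 * x.2)
      ((pr N (1 / 7) (119 / 250)).sigma
        (fun q => EE (pr N ε₁ (1 / 7)) (tt N) (ta N q) (za N q)) : Finset ((_ : ℕ) × ℕ)) := by
    rintro ⟨q, e⟩ hqe ⟨q', e'⟩ hqe' heq
    rw [mem_coe, mem_sigma] at hqe hqe'
    simp only at hqe hqe' heq
    have hq := mem_pr.1 hqe.1
    have hq' := mem_pr.1 hqe'.1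
    obtain ⟨h1, h2, h3, h4⟩ := mem_EE hqe.2
    obtain ⟨h1', h2', h3', h4'⟩ := mem_EE hqe'.2
    have hqq : q = q' := by
      have hd : q ∣ q' * e' := heq ▸ Dvd.intro e rfl
      rcases (hq.2.1.dvd_mul).1 hd with h | h
      · exact (Nat.prime_dvd_prime_iff_eq hq.2.1 hq'.2.1).1 h
      · exfalso
        have := (h3' q (Nat.mem_primeFactors.2 ⟨hq.2.1, h, h1'⟩)).2
        linarith [hq.2.2.1]
    subst hqq
    have : e = e' := Nat.eq_of_mul_eq_mul_left hq.2.1.pos heq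
    rw [this]
  calc ∑ x ∈ (pr N (1 / 7) (119 / 250)).sigma
        (fun q => EE (pr N ε₁ (1 / 7)) (tt N) (ta N q) (za N q)), |r (x.1 * x.2)|
      = ∑ d ∈ ((pr N (1 / 7) (119 / 250)).sigma
        (fun q => EE (pr N ε₁ (1 / 7)) (tt N) (ta N q) (za N q))).image (fun x => x.1 * x.2),
          |r d| := by
        rw [Finset.sum_image hinj]
    _ ≤ _ := by
        apply Finset.sum_le_sum_of_subset_of_nonneg
        · intro d hd
          rw [mem_image] at hd
          obtain ⟨⟨q, e⟩, hqe, rfl⟩ := hd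
          rw [mem_sigma] at hqe
          simp only at hqe ⊢
          have hq := mem_pr.1 hqe.1
          obtain ⟨h1, h2, h3, h4⟩ := mem_EE hqe.2
          have hnd : ¬ q ∣ e := by
            intro h
            have := (h3 q (Nat.mem_primeFactors.2 ⟨hq.2.1, h, h1⟩)).2
            linarith [hq.2.2.1]
          have hcop : Nat.Coprime q e := (hq.2.1.coprime_iff_not_dvd).2 hnd
          refine mem_FR.2 ⟨(Pool.Agent.W378.DC.FA N ε₁ hN hε).2 q e (Lv (tt N q)) hq.2.1 hnd h1 h2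
            (fun p hp => (h3 p hp).1) (by linarith [hq.2.2.1]) ?_ ?_ ?_ h4, ?_,
            (Nat.squarefree_mul hcop).2 ⟨hq.2.1.prime.squarefree, h2⟩, ?_⟩
          · unfold Lv
            split_ifs with h
            · linarith
            · linarith [hq.2.2.2]
          · unfold Lv
            split_ifs with h <;> norm_num
          · unfold Lv
            split_ifs with h
            · linarith
            · linarith [hq.2.2.2]
          · have h5 := hq.2.1.two_le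
            have h6 : 1 ≤ e := Nat.pos_of_ne_zero h1
            nlinarith
          · intro p hp
            rw [Nat.primeFactors_mul hq.2.1.ne_zero h1, mem_union, hq.2.1.primeFactors,
              mem_singleton] at hp
            rcases hp with rfl | hp
            · linarith [hq.2.2.1]
            · exact (h3 p hp).1
        · intro _ _ _
          exact abs_nonneg _

/-- **the weighted sieve** -/
theorem lowR : ∃ c₀ : ℝ, 0 < c₀ ∧ ∀ ε₁ : ℝ, 0 < ε₁ → ε₁ ≤ 1 / 25 → ∃ N₀ : ℕ, ∀ N : ℕ, N₀ ≤ N →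
      ∀ (Ω : Finset ℕ) (w : ℕ → ℝ) (m : ℕ → ℕ), (∀ n ∈ Ω, 0 ≤ w n) →
      c₀ * ε₁ * (∑ n ∈ Ω, w n) -
        3 * ∑ d ∈ FR N ε₁, |(∑ n ∈ Ω, w n * ind (m n) d) - (∑ n ∈ Ω, w n) * (1 / (d : ℝ))| ≤
        ∑ n ∈ Ω, w n * Wf N ε₁ (m n) := by
  classical
  obtain ⟨A0, F, f, hS⟩ := Pool.Agent.W366.DC.SFX
  obtain ⟨J, hJ⟩ : ∃ J : ℝ, J = 19 / 17 * ((∫ x in (1 / 7 : ℝ)..(11 / 25),
      (1 - x / (119 / 250)) / (x * (111 / 200 - x))) +
    ∫ x in (11 / 25 : ℝ)..(119 / 250), (1 - x / (119 / 250)) / (x * (261 / 500 - x))) := ⟨_, rfl⟩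
  obtain ⟨Z, hZ⟩ : ∃ Z : ℝ, Z = Real.log (577 / 200) / (111 / 200) := ⟨_, rfl⟩
  have hJZ : J < Z := by rw [hJ, hZ]; exact Pool.Agent.W120.DC.NU
  obtain ⟨c₂, hc₂⟩ : ∃ c₂ : ℝ, c₂ = Z - J := ⟨_, rfl⟩
  have hc₂0 : 0 < c₂ := by rw [hc₂]; linarith
  have hA0 := hS.pos
  refine ⟨A0 * c₂ / 2, by positivity, ?_⟩
  intro ε₁ hε hε2
  obtain ⟨η, hη0, HM⟩ := Pool.Agent.W505.DC.MT Pool.Agent.W505.DC.MI A0 F f hS ε₁ (ε₁ * A0 * c₂ / 32)
    ⌈1 / ε₁⌉₊ hε (by linarith) (by positivity)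
  obtain ⟨N₁, hN₁⟩ := mer_of ε₁ (1 / 7) η hε (by norm_num) hη0
  obtain ⟨N₂, hN₂⟩ := QS Pool.Agent.W505.DC.MI Pool.Agent.W378.DC.MP (c₂ / 4) (by positivity)
  obtain ⟨N₃, hN₃⟩ := Pool.Agent.W378.DC.MP (1 / 7) 1 (by norm_num) one_pos
  refine ⟨max (max N₁ N₂) (max N₃ 2), ?_⟩
  intro N hN Ω w m hw
  have hX : 0 ≤ ∑ n ∈ Ω, w n := sum_nonneg hw
  obtain ⟨X, hXd⟩ : ∃ X : ℝ, X = ∑ n ∈ Ω, w n := ⟨_, rfl⟩
  rw [← hXd] at hX ⊢
  have hNN₁ : N₁ ≤ N := ((le_max_left _ _).trans (le_max_left _ _)).trans hN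
  have hNN₂ : N₂ ≤ N := ((le_max_right _ _).trans (le_max_left _ _)).trans hN
  have hNN₃ : N₃ ≤ N := ((le_max_left _ _).trans (le_max_right _ _)).trans hN
  have hN2 : 2 ≤ N := ((le_max_right _ _).trans (le_max_right _ _)).trans hN
  set P := pr N ε₁ (1 / 7) with hP
  set Q := pr N (1 / 7) (119 / 250) with hQ
  set g : ℕ → ℝ := fun p => 1 / (p : ℝ) with hg
  set K := ⌈1 / ε₁⌉₊ with hK
  set r : ℕ → ℝ := fun e => (∑ n ∈ Ω, w n * ind (m n) e) - X * (1 / (e : ℝ)) with hr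
  set R := ∑ d ∈ FR N ε₁, |r d| with hR
  have hr1 : r 1 = 0 := by
    rw [hr]
    simp only [Nat.cast_one, div_one, mul_one]
    rw [hXd, sub_eq_zero]
    refine sum_congr rfl fun n _ => ?_
    unfold ind
    rw [if_pos (one_dvd _), mul_one]
  have hR0 : 0 ≤ R := Finset.sum_nonneg fun _ _ => abs_nonneg _
  have hKε : 1 ≤ (K + 2) * ε₁ := by
    have h1 : 1 / ε₁ ≤ K := Nat.le_ceil _
    have h2 : 1 / ε₁ * ε₁ = 1 := by field_simp
    nlinarith
  have hg0 : ∀ p ∈ P, 0 ≤ g p := fun p _ => by rw [hg]; positivity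
  have HM' := HM P (tt N) g (1 / 7) (by norm_num) hg0 (fun p hp => (mem_pr.1 hp).2.2.1)
    (hN₁ N hNN₁) K le_rfl
  -- the main terms
  have hminus : ε₁ * A0 * Z - ε₁ * A0 * c₂ / 32 ≤ MM P (tt N) g K false (111 / 200) (1 / 7) := by
    have h1 := (HM' (111 / 200) (1 / 7) (by linarith) (by linarith) le_rfl (by norm_num)
      (by norm_num)).2 (by norm_num)
    have h2 : ε₁ / (1 / 7) * f (111 / 200 / (1 / 7)) = ε₁ * A0 * Z := by
      rw [hS.f4 _ (by norm_num) (by norm_num), hZ]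
      have : (111 / 200 / (1 / 7) - 1 : ℝ) = 577 / 200 := by norm_num
      rw [this]
      ring
    rw [h2] at h1
    exact h1
  have hplus : ∀ q ∈ Q, MM P (tt N) g K true (ta N q) (za N q) ≤
      ε₁ * A0 / ta N q + ε₁ * A0 * c₂ / 32 := by
    intro q hq
    have h0 := ta_pos hq
    have h1 := ta_le hq
    have h2 : za N q ≤ ta N q := min_le_right _ _
    have h3 : ε₁ ≤ za N q := le_min (by linarith) (by linarith)
    have h4 : ta N q ≤ 1 := by
      have := (mem_pr.1 hq).2.2.1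
      unfold ta Lv
      split_ifs <;> linarith
    have h5 := (HM' (ta N q) (za N q) (by linarith) h3 (min_le_left _ _) h2 h4).1
    have h6 : 0 < za N q := by linarith
    have h7 : ε₁ / za N q * F (ta N q / za N q) = ε₁ * A0 / ta N q := by
      rw [hS.F3 _ ((one_le_div h6).2 h2) ((div_le_iff₀ h6).2 h1)]
      field_simp
    rw [h7] at h5
    exact h5
  -- the recursion, summed
  have e1 := Pool.Agent.Y822.F.LL_eq hN2 (ε₁ := ε₁) (w := 1 / 7) Ω w m X K false (111 / 200) (1 / 7) 1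
    (fun p hp _ h => (mem_pr.1 hp).2.1.one_lt.ne' (Nat.dvd_one.1 h))
  have e2 : ∀ q ∈ Q, ∑ n ∈ Ω, w n * LL P (tt N) (ind (m n)) K true (ta N q) (za N q) q =
      X * (1 / (q : ℝ) * MM P (tt N) g K true (ta N q) (za N q)) +
        LL P (tt N) r K true (ta N q) (za N q) q := by
    intro q hq
    exact Pool.Agent.Y822.F.LL_eq hN2 (ε₁ := ε₁) (w := 1 / 7) Ω w m X K true (ta N q) (za N q) q
      (fun p hp _ h => by
      have h4 := (Nat.prime_dvd_prime_iff_eq (mem_pr.1 hp).2.1 (mem_pr.1 hq).2.1).1 h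
      have h5 := (mem_pr.1 hp).2.2.2
      have h6 := (mem_pr.1 hq).2.2.1
      rw [h4] at h5
      linarith)
  have hsum : ∑ n ∈ Ω, w n * (LL P (tt N) (ind (m n)) K false (111 / 200) (1 / 7) 1 -
      ∑ q ∈ Q, cw N q * LL P (tt N) (ind (m n)) K true (ta N q) (za N q) q) ≤
      ∑ n ∈ Ω, w n * Wf N ε₁ (m n) :=
    Finset.sum_le_sum fun n hn => mul_le_mul_of_nonneg_left
      (Wf_ge Pool.Agent.W52.DC.PT hN2 K _) (hw n hn)
  have hsplit : ∑ n ∈ Ω, w n * (LL P (tt N) (ind (m n)) K false (111 / 200) (1 / 7) 1 -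
      ∑ q ∈ Q, cw N q * LL P (tt N) (ind (m n)) K true (ta N q) (za N q) q) =
      ∑ n ∈ Ω, w n * LL P (tt N) (ind (m n)) K false (111 / 200) (1 / 7) 1 -
      ∑ q ∈ Q, cw N q * ∑ n ∈ Ω, w n * LL P (tt N) (ind (m n)) K true (ta N q) (za N q) q := by
    simp only [mul_sub, Finset.sum_sub_distrib, Finset.mul_sum]
    congr 1
    rw [Finset.sum_comm]
    refine sum_congr rfl fun q _ => sum_congr rfl fun n _ => ?_
    ring
  rw [hsplit] at hsum
  have e3 : ∑ q ∈ Q, cw N q * ∑ n ∈ Ω, w n * LL P (tt N) (ind (m n)) K true (ta N q) (za N q) q =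
      ∑ q ∈ Q, cw N q * (X * (1 / (q : ℝ) * MM P (tt N) g K true (ta N q) (za N q))) +
      ∑ q ∈ Q, cw N q * LL P (tt N) r K true (ta N q) (za N q) q := by
    rw [← Finset.sum_add_distrib]
    refine sum_congr rfl fun q hq => ?_
    rw [e2 q hq]
    ring
  rw [e3, e1] at hsum
  -- the errors
  have hE1 : |LL P (tt N) r K false (111 / 200) (1 / 7) 1| ≤ R :=
    (Pool.Agent.W586.DC.ER P (tt N) (siz hN2 _ _) r K false (111 / 200) (1 / 7) 1 (by norm_num)
      (fun _ => by norm_num)).trans (errR1 hN2 hε r hr1)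
  have hE2 : ∑ q ∈ Q, cw N q * LL P (tt N) r K true (ta N q) (za N q) q ≤ 19 / 17 * R := by
    calc ∑ q ∈ Q, cw N q * LL P (tt N) r K true (ta N q) (za N q) q
        ≤ ∑ q ∈ Q, 19 / 17 * ∑ e ∈ EE P (tt N) (ta N q) (za N q), |r (q * e)| := by
          apply Finset.sum_le_sum
          intro q hq
          have h1 := Pool.Agent.W586.DC.ER P (tt N) (siz hN2 _ _) r K true (ta N q) (za N q) q
            (by have := ta_pos hq; linarith) (fun h => by simp at h)
          have h2 := cw_nonneg q hq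
          have h3 := cw_le hN2 q hq
          calc cw N q * LL P (tt N) r K true (ta N q) (za N q) q
              ≤ cw N q * |LL P (tt N) r K true (ta N q) (za N q) q| :=
                mul_le_mul_of_nonneg_left (le_abs_self _) h2
            _ ≤ 19 / 17 * ∑ e ∈ EE P (tt N) (ta N q) (za N q), |r (q * e)| :=
                mul_le_mul h3 h1 (abs_nonneg _) (by norm_num)
      _ = 19 / 17 * ∑ q ∈ Q, ∑ e ∈ EE P (tt N) (ta N q) (za N q), |r (q * e)| := by
          rw [Finset.mul_sum]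
      _ ≤ 19 / 17 * R := mul_le_mul_of_nonneg_left (errR2 hN2 hε hε2 r) (by norm_num)
  -- the sum over `q`
  have hgg : ∀ q ∈ Q, g q ≤ 1 / ((q : ℝ) - 1) := by
    intro q hq
    have h2 : (2 : ℝ) ≤ q := by exact_mod_cast (mem_pr.1 hq).2.1.two_le
    exact one_div_le_one_div_of_le (by linarith) (by linarith)
  have hq1 : ∑ q ∈ Q, g q * (cw N q / ta N q) ≤ J + c₂ / 4 := by
    have h1 : ∑ q ∈ Q, 1 / ((q : ℝ) - 1) * (cw N q / ta N q) ≤ J + c₂ / 4 := by
      have := hN₂ N hNN₂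
      rw [hJ]
      simpa only [cw, ta] using this
    refine le_trans (sum_le_sum fun q hq => ?_) h1
    exact mul_le_mul_of_nonneg_right (hgg q hq) (div_nonneg (cw_nonneg q hq)
      (by have := ta_pos hq; linarith))
  have hq2 : ∑ q ∈ Q, g q ≤ 3 := by
    have h1 := (abs_le.1 (hN₃ N hNN₃ (1 / 7) (119 / 250) le_rfl (by norm_num) (by norm_num))).2
    have h2 : Real.log (119 / 250 / (1 / 7)) ≤ 2 := by
      rw [Real.log_le_iff_le_exp (by norm_num)]
      have h3 := Real.add_one_le_exp (1 : ℝ)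
      have h4 : Real.exp 2 = Real.exp 1 * Real.exp 1 := by
        rw [← Real.exp_add]
        norm_num
      nlinarith
    have h3 := sum_le_sum hgg
    linarith
  have hq3 : ∑ q ∈ Q, cw N q * (X * (1 / (q : ℝ) * MM P (tt N) g K true (ta N q) (za N q))) ≤
      X * (ε₁ * A0 * (J + c₂ / 4) + ε₁ * A0 * c₂ / 32 * (19 / 17 * 3)) := by
    calc ∑ q ∈ Q, cw N q * (X * (1 / (q : ℝ) * MM P (tt N) g K true (ta N q) (za N q)))
        ≤ ∑ q ∈ Q, X * (ε₁ * A0 * (g q * (cw N q / ta N q)) +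
            ε₁ * A0 * c₂ / 32 * (19 / 17 * g q)) := by
          apply Finset.sum_le_sum
          intro q hq
          have h1 := hplus q hq
          have h2 := cw_nonneg q hq
          have h3 := cw_le hN2 q hq
          have h4 : 0 ≤ g q := by rw [hg]; positivity
          have h5 := ta_pos hq
          have h7 : cw N q * (g q * MM P (tt N) g K true (ta N q) (za N q)) ≤
              ε₁ * A0 * (g q * (cw N q / ta N q)) + ε₁ * A0 * c₂ / 32 * (19 / 17 * g q) := by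
            calc cw N q * (g q * MM P (tt N) g K true (ta N q) (za N q))
                ≤ cw N q * (g q * (ε₁ * A0 / ta N q + ε₁ * A0 * c₂ / 32)) := by gcongr
              _ = ε₁ * A0 * (g q * (cw N q / ta N q)) +
                  ε₁ * A0 * c₂ / 32 * (cw N q * g q) := by ring
              _ ≤ _ := by gcongr
          calc cw N q * (X * (1 / (q : ℝ) * MM P (tt N) g K true (ta N q) (za N q)))
              = X * (cw N q * (g q * MM P (tt N) g K true (ta N q) (za N q))) := by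
                simp only [hg]
                ring
            _ ≤ _ := mul_le_mul_of_nonneg_left h7 hX
      _ = X * (ε₁ * A0 * (∑ q ∈ Q, g q * (cw N q / ta N q)) +
            ε₁ * A0 * c₂ / 32 * (19 / 17 * ∑ q ∈ Q, g q)) := by
          rw [← Finset.mul_sum, Finset.sum_add_distrib, ← Finset.mul_sum, ← Finset.mul_sum,
            ← Finset.mul_sum]
      _ ≤ _ := by
          have h1 : 0 ≤ ε₁ * A0 := by positivity
          have h2 : 0 ≤ ε₁ * A0 * c₂ / 32 := by positivity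
          gcongr
  have hmain : X * (ε₁ * A0 * Z - ε₁ * A0 * c₂ / 32) ≤
      X * (1 / ((1 : ℕ) : ℝ) * MM P (tt N) g K false (111 / 200) (1 / 7)) := by
    apply mul_le_mul_of_nonneg_left _ hX
    norm_num
    linarith
  have hE1' := (abs_le.1 hE1).1
  have hfin : A0 * c₂ / 2 * ε₁ * X ≤
      X * (ε₁ * A0 * Z - ε₁ * A0 * c₂ / 32) -
      X * (ε₁ * A0 * (J + c₂ / 4) + ε₁ * A0 * c₂ / 32 * (19 / 17 * 3)) := by
    have h1 : X * (ε₁ * A0 * Z - ε₁ * A0 * c₂ / 32) -
      X * (ε₁ * A0 * (J + c₂ / 4) + ε₁ * A0 * c₂ / 32 * (19 / 17 * 3)) =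
        X * (ε₁ * A0 * c₂) * (1 - 1 / 32 - 1 / 4 - 57 / 544) := by
      rw [hc₂]
      ring
    rw [h1]
    have h2 : 0 ≤ X * (ε₁ * A0 * c₂) := by positivity
    nlinarith
  linarith

end Pool.Agent.J4.H38.SR3
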