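import Mathlib
import Pool.Agent.J4.H38.SR3.Offd
import Pool.Agent.J4.H38.SR3.Rich
import Pool.Agent.H442R2.BX.Fi
import Pool.Agent.W583.DC.FIF

/-! The moduli of the weighted sieve are covered by boundedly many sets of moduli with the sieved correlation
estimate. -/

set_option autoImplicit false

namespace Pool.Agent.J4.H38.SR3

open Finset
open Pool.Agent.H442R2
open Pool.Agent.H442R2.KF
open Pool.Agent.H442R2.BX.TaskEX (II II_one II_abs summable_bd Wt_pos dl_eq dl_abs)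
open Pool.Agent.W41 (JJ)
open Pool.Agent.W23.DC (facR FacO tt le_tt_iff)

/-- the centred divisor sum over a set of moduli, without the value at `a` -/
noncomputable def rW (W : Finset ℕ) (c : ℕ → ℝ) (a n : ℤ) : ℝ :=
  if n = a then 0 else ∑ d ∈ W, c d * BX.dl d (n - a)

lemma rW_eq {W : Finset ℕ} {c : ℕ → ℝ} (hc : ∀ d, c d ≠ 0 → d ∈ W) {X : ℕ} (hW : ∀ d ∈ W, 1 ≤ d ∧ d ≤ X)
    (a n : ℤ) : rW W c a n = BX.rf c X a n := by
  unfold rW BX.rf BX.Rf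
  split_ifs
  · rfl
  · refine sum_subset ?_ ?_
    · intro d hd
      exact mem_Icc.2 (hW d hd)
    · intro d _ hd
      have : c d = 0 := by
        by_contra h
        exact hd (hc d h)
      rw [this, zero_mul]

/-- the sum of the reciprocals -/
noncomputable def SI (W : Finset ℕ) : ℝ := ∑ d ∈ W, 1 / (d : ℝ)

lemma SI_nonneg (W : Finset ℕ) : 0 ≤ SI W := sum_nonneg fun _ _ => by positivity

/-- the correlation property of a set of moduli -/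
def OD (N y : ℕ) (ε₀ E1 E2 : ℝ) (W : Finset ℕ) : Prop :=
  ∀ a a' : ℤ, |(a : ℝ)| ≤ N - (N : ℝ) ^ (1 / 2 : ℝ) → |(a' : ℝ)| ≤ N - (N : ℝ) ^ (1 / 2 : ℝ) → a ≠ a' →
    ∀ c c' : ℕ → ℝ, (∀ d, |c d| ≤ 1) → (∀ d, |c' d| ≤ 1) → (∀ d, c d ≠ 0 → d ∈ W) →
    (∀ d, c' d ≠ 0 → d ∈ W) →
    ∀ κd C0 K0 b : ℕ, FLH κd C0 K0 b y → ((K0 * y ^ (2 * (C0 * b)) : ℕ) : ℝ) ≤ (N : ℝ) ^ ε₀ →
    ∀ Ω : Finset ℤ, OmP N Ω → ∀ (P : Finset ℕ) (R : ℕ → ℕ → Prop),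
    (∀ p ∈ P, p.Prime ∧ Odd p ∧ p ≤ y ∧ cd R p ≤ κd) →
    |∑ n ∈ Ω, Wt N n * (rW W c a n * rW W c' a' n) * xr P R n| ≤
      8 * (1 / 2 : ℝ) ^ b * (N * (SI W ^ 2 * Vr P R)) + Er C0 K0 b y * E1 + E2

/-- the diagonal property of a set of moduli -/
def DGP (N y : ℕ) (E3 : ℝ) (W : Finset ℕ) : Prop :=
  ∀ a : ℤ, |(a : ℝ)| ≤ N → ∀ c : ℕ → ℝ, (∀ d, |c d| ≤ 1) → (∀ d, c d ≠ 0 → d ∈ W) →
    ∀ κd C0 K0 b : ℕ, FLH κd C0 K0 b y → ((K0 * y ^ (2 * (C0 * b)) : ℕ) : ℝ) ≤ (N : ℝ) ^ (1 / 10 : ℝ) →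
    ∀ Ω : Finset ℤ, OmP N Ω → ∀ (P : Finset ℕ) (R : ℕ → ℕ → Prop),
    (∀ p ∈ P, p.Prime ∧ Odd p ∧ p ≤ y ∧ cd R p ≤ κd) →
    ∑ n ∈ Ω, Wt N n * (rW W c a n * rW W c a n) * xr P R n ≤ E3 * (N * Vr P R + Er C0 K0 b y)

lemma Mc_le_SI {W : Finset ℕ} {c c' : ℕ → ℝ} (hb : ∀ d, |c d| ≤ 1) (hb' : ∀ d, |c' d| ≤ 1)
    (hc : ∀ d, c d ≠ 0 → d ∈ W) (hc' : ∀ d, c' d ≠ 0 → d ∈ W) (D0 X : ℕ) : Mc c c' D0 X ≤ SI W ^ 2 := by
  have h1 : ∀ e : ℕ → ℝ, (∀ d, |e d| ≤ 1) → (∀ d, e d ≠ 0 → d ∈ W) → ∑ d ∈ Ioc D0 X, |e d| / d ≤ SI W := by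
    classical
    intro e he he'
    unfold SI
    calc ∑ d ∈ Ioc D0 X, |e d| / (d : ℝ) = ∑ d ∈ (Ioc D0 X).filter (fun d => d ∈ W), |e d| / (d : ℝ) := by
          rw [sum_filter]
          refine sum_congr rfl fun d _ => ?_
          split_ifs with h
          · rfl
          · have : e d = 0 := by
              by_contra h2
              exact h (he' d h2)
            rw [this]
            simp
      _ ≤ ∑ d ∈ (Ioc D0 X).filter (fun d => d ∈ W), 1 / (d : ℝ) :=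
          sum_le_sum fun d _ => div_le_div_of_nonneg_right (he d) (Nat.cast_nonneg _)
      _ ≤ _ := sum_le_sum_of_subset_of_nonneg (fun d hd => (mem_filter.1 hd).2) fun _ _ _ => by positivity
  rw [sq]
  exact (Mc_le c c' D0 X).trans (mul_le_mul (h1 c hb hc) (h1 c' hb' hc')
    (sum_nonneg fun _ _ => by positivity) (SI_nonneg W))

lemma fin_min (f : ℕ → ℝ) (hf : ∀ j, 0 < f j) (I : ℕ) : ∃ m : ℝ, 0 < m ∧ ∀ j < I, m ≤ f j := by
  induction I with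
  | zero => exact ⟨1, one_pos, fun j hj => absurd hj (Nat.not_lt_zero j)⟩
  | succ I ih =>
    obtain ⟨m, hm, h⟩ := ih
    refine ⟨min m (f I), lt_min hm (hf I), fun j hj => ?_⟩
    rcases Nat.lt_succ_iff_lt_or_eq.1 hj with h1 | h1
    · exact (min_le_left _ _).trans (h j h1)
    · rw [h1]
      exact min_le_right _ _

lemma fin_max (f : ℕ → ℝ) (I : ℕ) : ∃ m : ℝ, 0 < m ∧ ∀ j < I, f j ≤ m := by
  induction I with
  | zero => exact ⟨1, one_pos, fun j hj => absurd hj (Nat.not_lt_zero j)⟩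
  | succ I ih =>
    obtain ⟨m, hm, h⟩ := ih
    refine ⟨max m (f I), lt_max_of_lt_left hm, fun j hj => ?_⟩
    rcases Nat.lt_succ_iff_lt_or_eq.1 hj with h1 | h1
    · exact (h j h1).trans (le_max_left _ _)
    · rw [h1]
      exact le_max_right _ _

/-- **windows** -/
theorem windows : ∃ ε₀ η : ℝ, 0 < ε₀ ∧ ε₀ ≤ 1 / 10 ∧ 0 < η ∧ η ≤ 1 ∧ ∃ J : Finset (ℕ × ℕ),
    ∀ κ : ℝ, 0 < κ → κ ≤ 1 / 25 → ∃ (C : ℝ) (N₀ : ℕ), 0 < C ∧ ∀ N : ℕ, N₀ ≤ N →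
    ∃ W : ℕ × ℕ → Finset ℕ, (∀ d ∈ FR N κ, ∃ j ∈ J, d ∈ W j) ∧ (∀ j, W j ⊆ FR N κ) ∧
      ∀ j ∈ J, ∀ y : ℕ, 2 ≤ y → (y : ℝ) < (N : ℝ) ^ κ →
        OD N y ε₀ (C * (N : ℝ) ^ (1 - η)) (C * (N : ℝ) ^ (1 - κ / 4)) (W j) := by
  classical
  obtain ⟨th, hth⟩ : ∃ th : ℕ → ℝ, ∀ j, th j = if j ≤ 315 then 51 / 100 + (j : ℝ) / 7000 else 51 / 100 :=
    ⟨_, fun _ => rfl⟩
  have hth0 : ∀ j, 51 / 100 ≤ th j := by
    intro j
    rw [hth]
    split_ifs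
    · have : (0 : ℝ) ≤ (j : ℝ) / 7000 := by positivity
      linarith
    · exact le_rfl
  have hth1 : ∀ j, th j ≤ 111 / 200 := by
    intro j
    rw [hth]
    split_ifs with h
    · have : (j : ℝ) ≤ 315 := by exact_mod_cast h
      linarith
    · norm_num
  choose e0 et he0 he01 het het1 H using fun j : ℕ => offd (th j) (1 / 1000) (by have := hth0 j; linarith)
    (by have := hth1 j; linarith) (by norm_num)
  obtain ⟨nj, hnj⟩ : ∃ nj : ℕ, nj = 316 := ⟨_, rfl⟩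
  obtain ⟨ε₀, hε₀, hε₀m⟩ := fin_min e0 he0 nj
  obtain ⟨η, hη, hηm⟩ := fin_min et het nj
  have hε₀1 : ε₀ ≤ 1 / 10 := (hε₀m 0 (by omega)).trans (he01 0)
  have hη1 : η ≤ 1 := (hηm 0 (by omega)).trans (het1 0)
  obtain ⟨ε₁, hε₁def⟩ : ∃ ε₁ : ℝ, ε₁ = ε₀ / 2 := ⟨_, rfl⟩
  have hε₁ : 0 < ε₁ := by rw [hε₁def]; linarith
  obtain ⟨I, hIdef⟩ : ∃ I : ℕ, I = ⌈1 / ε₁⌉₊ := ⟨_, rfl⟩
  have hI1 : 1 ≤ (I : ℝ) * ε₁ := by
    have h : 1 / ε₁ ≤ (I : ℝ) := by rw [hIdef]; exact Nat.le_ceil _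
    rwa [div_le_iff₀ hε₁] at h
  refine ⟨ε₀, η, hε₀, hε₀1, hη, hη1, range nj ×ˢ range I, fun κ hκ hκ1 => ?_⟩
  choose Cj Nj hCj Hj using fun j : ℕ => H j (κ / 2) (by linarith)
  obtain ⟨C, hC, hCm⟩ := fin_max Cj nj
  obtain ⟨N₁, _, hN₁⟩ := fin_max (fun j => (Nj j : ℝ)) nj
  obtain ⟨N₂, hN₂⟩ : ∃ N₂ : ℕ, ∀ N : ℕ, N₂ ≤ N → (2 : ℝ) ≤ (N : ℝ) ^ ε₁ := by
    have h1 := (tendsto_rpow_atTop hε₁).comp (tendsto_natCast_atTop_atTop (R := ℝ))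
    exact Filter.eventually_atTop.1 (h1.eventually_ge_atTop 2)
  refine ⟨2 * C, max 2 (max ⌈N₁⌉₊ N₂), by linarith, fun N hN => ?_⟩
  have hN2 : 2 ≤ N := (le_max_left _ _).trans hN
  have hNN₁ : N₁ ≤ N := by
    have h1 : ⌈N₁⌉₊ ≤ N := ((le_max_left _ _).trans (le_max_right _ _)).trans hN
    exact (Nat.le_ceil _).trans (by exact_mod_cast h1)
  have hN2' := hN₂ N (((le_max_right _ _).trans (le_max_right _ _)).trans hN)
  have hN1 : (1 : ℝ) ≤ N := by exact_mod_cast (by omega : 1 ≤ N)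
  have hN0 : (0 : ℝ) < N := by linarith
  obtain ⟨D, hD⟩ : ∃ D : ℕ → ℕ, ∀ i, D i = ⌊(N : ℝ) ^ ((i : ℝ) * ε₁)⌋₊ := ⟨_, fun _ => rfl⟩
  have hD1 : ∀ i, 1 ≤ D i := by
    intro i
    rw [hD]
    apply Nat.le_floor
    rw [Nat.cast_one]
    exact Real.one_le_rpow hN1 (by positivity)
  have hD0 : D 0 = 1 := by
    rw [hD]; simp
  have hratio : ∀ i, (D (i + 1) : ℝ) ≤ (N : ℝ) ^ ε₀ * D i := by
    intro i
    have h1 : (D (i + 1) : ℝ) ≤ (N : ℝ) ^ (((i + 1 : ℕ) : ℝ) * ε₁) := by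
      rw [hD]; exact Nat.floor_le (by positivity)
    have h2 : (N : ℝ) ^ ((i : ℝ) * ε₁) ≤ 2 * D i := by
      have h3 : (N : ℝ) ^ ((i : ℝ) * ε₁) < (D i : ℝ) + 1 := by
        rw [hD]; exact Nat.lt_floor_add_one _
      have h4 : (1 : ℝ) ≤ D i := by exact_mod_cast hD1 i
      linarith
    calc (D (i + 1) : ℝ) ≤ (N : ℝ) ^ (((i + 1 : ℕ) : ℝ) * ε₁) := h1
      _ = (N : ℝ) ^ ε₁ * (N : ℝ) ^ ((i : ℝ) * ε₁) := by
          rw [← Real.rpow_add hN0]; congr 1; push_cast; ring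
      _ ≤ (N : ℝ) ^ ε₁ * (2 * D i) := mul_le_mul_of_nonneg_left h2 (by positivity)
      _ = ((N : ℝ) ^ ε₁ * 2) * D i := by ring
      _ ≤ ((N : ℝ) ^ ε₁ * (N : ℝ) ^ ε₁) * D i := by
          apply mul_le_mul_of_nonneg_right _ (Nat.cast_nonneg _)
          exact mul_le_mul_of_nonneg_left hN2' (by positivity)
      _ = (N : ℝ) ^ ε₀ * D i := by
          rw [← Real.rpow_add hN0]; congr 2; rw [hε₁def]; ring
  obtain ⟨XX, hXX⟩ : ∃ XX : ℕ × ℕ → ℕ, ∀ j, XX j = min (D (j.2 + 1)) ⌊(N : ℝ) ^ (th j.1)⌋₊ :=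
    ⟨_, fun _ => rfl⟩
  obtain ⟨W, hW⟩ : ∃ W : ℕ × ℕ → Finset ℕ, ∀ j, W j = (FR N κ).filter (fun d => D j.2 < d ∧ d ≤ XX j ∧
      (j.1 = 0 ∨ FX.FacD N (th j.1) (1 / 1000) d)) := ⟨_, fun _ => rfl⟩
  have hFRm : ∀ d ∈ FR N κ, 1 < d ∧ (d : ℝ) ≤ (N : ℝ) ^ (111 / 200 : ℝ) ∧ BX.Rough ((N : ℝ) ^ (κ / 2)) d ∧
      ((d : ℝ) ≤ (N : ℝ) ^ (51 / 100 : ℝ) ∨ FacO N (1 / 500) d) ∧
      ∀ p : ℕ, p.Prime → p ∣ d → (N : ℝ) ^ κ ≤ p := by
    intro d hd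
    obtain ⟨h1, h2, h3, h4⟩ := mem_FR.1 hd
    unfold facR BX.roughs at h1
    rw [mem_filter, mem_filter, mem_Icc] at h1
    refine ⟨h2, ?_, h1.1.2, h1.2, fun p hp hpd => ?_⟩
    · exact (by exact_mod_cast h1.1.1.2 : (d : ℝ) ≤ (⌊(N : ℝ) ^ (111 / 200 : ℝ)⌋₊ : ℝ)).trans
        (Nat.floor_le (by positivity))
    · exact (le_tt_iff hN2 hp.pos κ).1 (h4 p (Nat.mem_primeFactors.2 ⟨hp, hpd, by omega⟩))
  refine ⟨W, ?_, ?_, ?_⟩
  · -- the covering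
    intro d hd
    obtain ⟨h1, h2, h3, h4, h5⟩ := hFRm d hd
    have hex : ∃ j : ℕ, (d : ℝ) ≤ (N : ℝ) ^ (51 / 100 + (j : ℝ) / 7000) := by
      refine ⟨315, h2.trans (le_of_eq ?_)⟩
      congr 1
      norm_num
    obtain ⟨j, hj1, hj2⟩ : ∃ j : ℕ, (d : ℝ) ≤ (N : ℝ) ^ (51 / 100 + (j : ℝ) / 7000) ∧
        ∀ i < j, ¬ (d : ℝ) ≤ (N : ℝ) ^ (51 / 100 + (i : ℝ) / 7000) :=
      ⟨Nat.find hex, Nat.find_spec hex, fun i hi => Nat.find_min hex hi⟩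
    have hj315 : j ≤ 315 := by
      by_contra h
      push Not at h
      refine hj2 315 h (h2.trans (le_of_eq ?_))
      congr 1
      norm_num
    have hthj : th j = 51 / 100 + (j : ℝ) / 7000 := by rw [hth, if_pos hj315]
    have hdN : (d : ℝ) ≤ (N : ℝ) ^ ((I : ℝ) * ε₁) :=
      h2.trans (Real.rpow_le_rpow_of_exponent_le hN1 (by linarith))
    obtain ⟨i, hi, h6, h7⟩ := BX.TaskFI.block D I d (by rw [hD0]; exact h1)
      (by rw [hD]; exact Nat.le_floor hdN)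
    refine ⟨(j, i), mem_product.2 ⟨mem_range.2 (by show j < nj; omega), hi⟩, ?_⟩
    rw [hW, mem_filter, hXX]
    refine ⟨hd, h6, le_min h7 (Nat.le_floor (by show (d : ℝ) ≤ (N : ℝ) ^ (th j); rw [hthj]; exact hj1)), ?_⟩
    rcases Nat.eq_zero_or_pos j with h0 | h0
    · exact Or.inl h0
    · right
      show FX.FacD N (th j) (1 / 1000) d
      have h8 := hj2 (j - 1) (by omega)
      push Not at h8
      have h9 : (N : ℝ) ^ (th j - 1 / 7000) < d := by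
        rw [hthj]
        refine lt_of_le_of_lt (le_of_eq ?_) h8
        congr 1
        rw [Nat.cast_sub h0]
        push_cast
        ring
      have h10 : FacO N (1 / 500) d := by
        rcases h4 with h | h
        · exfalso
          have h11 := hj2 0 h0
          apply h11
          simpa using h
        · exact h
      have h12 := Pool.Agent.W583.DC.facD_of_facO N (by omega) (th j) (1 / 500) (1 / 7000) (by norm_num)
        (by norm_num) d h9 h10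
      have e : (1 / 500 / 2 : ℝ) = 1 / 1000 := by norm_num
      rw [e] at h12
      exact h12
  · intro j
    rw [hW]
    exact filter_subset _ _
  · -- the correlations
    intro j hj y hy2 hyN a a' ha ha' hne c c' hb hb' hc hc' κd C0 K0 b hFL hKN Ω hΩ P R hP
    rw [mem_product, mem_range] at hj
    have hj1 : j.1 < nj := hj.1
    have hWm : ∀ d ∈ W j, d ∈ FR N κ ∧ D j.2 < d ∧ d ≤ XX j ∧
        (j.1 = 0 ∨ FX.FacD N (th j.1) (1 / 1000) d) := by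
      intro d hd
      rw [hW, mem_filter] at hd
      exact hd
    have hW1 : ∀ d ∈ W j, 1 ≤ d ∧ d ≤ XX j := fun d hd => by
      have h1 := hWm d hd
      have h2 := hD1 j.2
      exact ⟨by omega, h1.2.2.1⟩
    have hR : ∀ e : ℕ → ℝ, (∀ d, |e d| ≤ 1) → (∀ d, e d ≠ 0 → d ∈ W j) →
        BX.CofR ((N : ℝ) ^ (κ / 2)) (XX j) e := fun e he he' =>
      ⟨he, fun d hd => ⟨(hWm d (he' d hd)).2.2.1, (hFRm d (hWm d (he' d hd)).1).2.2.1⟩⟩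
    have hfl : (XX j : ℝ) ≤ (N : ℝ) ^ (th j.1) := by
      rw [hXX]
      calc ((min (D (j.2 + 1)) ⌊(N : ℝ) ^ (th j.1)⌋₊ : ℕ) : ℝ) ≤ (⌊(N : ℝ) ^ (th j.1)⌋₊ : ℝ) := by
            exact_mod_cast min_le_right _ _
        _ ≤ _ := Nat.floor_le (by positivity)
    have he0N : (N : ℝ) ^ ε₀ ≤ (N : ℝ) ^ (e0 j.1) :=
      Real.rpow_le_rpow_of_exponent_le hN1 (hε₀m j.1 hj1)
    have hcd : Cd N (th j.1) (1 / 1000) (κ / 2) (e0 j.1) (D j.2) (XX j) a a' c c' := by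
      refine ⟨hfl, hD1 _, ?_, ha, ha', hne, hR c hb hc, hR c' hb' hc', ?_⟩
      · rw [hXX]
        calc ((min (D (j.2 + 1)) ⌊(N : ℝ) ^ (th j.1)⌋₊ : ℕ) : ℝ) ≤ (D (j.2 + 1) : ℝ) := by
              exact_mod_cast min_le_left _ _
          _ ≤ (N : ℝ) ^ ε₀ * D j.2 := hratio _
          _ ≤ _ := mul_le_mul_of_nonneg_right he0N (Nat.cast_nonneg _)
      · rcases Nat.eq_zero_or_pos j.1 with h0 | h0
        · left
          rw [h0, hth, if_pos (by norm_num)]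
          norm_num
        · right
          exact ⟨fun d hd => ((hWm d (hc d hd)).2.2.2).resolve_left (by omega),
            fun d hd => ((hWm d (hc' d hd)).2.2.2).resolve_left (by omega)⟩
    have hcy : ∀ e : ℕ → ℝ, (∀ d, e d ≠ 0 → d ∈ W j) → ∀ d, e d ≠ 0 → ∀ p : ℕ, p.Prime → p ∣ d → y < p := by
      intro e he d hd p hp hpd
      have h1 := (hFRm d (hWm d (he d hd)).1).2.2.2.2 p hp hpd
      have h2 : (y : ℝ) < p := lt_of_lt_of_le hyN h1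
      exact_mod_cast h2
    have hNj : Nj j.1 ≤ N := by
      have h1 := (hN₁ j.1 hj1).trans hNN₁
      exact_mod_cast h1
    have key := Hj j.1 N (D j.2) (XX j) hNj a a' c c' hcd (fun d hd => (hWm d (hc d hd)).2.1)
      (fun d hd => (hWm d (hc' d hd)).2.1) κd C0 K0 b y hFL hy2 (hcy c hc) (hcy c' hc')
      (hKN.trans he0N) Ω hΩ P R hP
    have e1 : ∑ n ∈ Ω, Wt N n * (rW (W j) c a n * rW (W j) c' a' n) * xr P R n =
        ∑ n ∈ Ω, Wt N n * (BX.rf c (XX j) a n * BX.rf c' (XX j) a' n) * xr P R n := by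
      refine sum_congr rfl fun n _ => ?_
      rw [rW_eq hc hW1, rW_eq hc' hW1]
    rw [e1]
    refine key.trans ?_
    have hEr := Er_nonneg C0 K0 b y
    have hVr := Vr_nonneg P R
    have hMc := Mc_le_SI hb hb' hc hc' (D j.2) (XX j)
    have hCC := hCm j.1 hj1
    have t1 : 8 * (1 / 2 : ℝ) ^ b * (N * (Mc c c' (D j.2) (XX j) * Vr P R)) ≤
        8 * (1 / 2 : ℝ) ^ b * (N * (SI (W j) ^ 2 * Vr P R)) := by gcongr
    have t2 : Er C0 K0 b y * (Cj j.1 * (N : ℝ) ^ (1 - et j.1)) ≤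
        Er C0 K0 b y * (2 * C * (N : ℝ) ^ (1 - η)) := by
      refine mul_le_mul_of_nonneg_left ?_ hEr
      have h1 : (N : ℝ) ^ (1 - et j.1) ≤ (N : ℝ) ^ (1 - η) :=
        Real.rpow_le_rpow_of_exponent_le hN1 (by have := hηm j.1 hj1; linarith)
      exact mul_le_mul (by linarith) h1 (by positivity) (by positivity)
    have t3 : Cj j.1 * ((N : ℝ) ^ (1 - κ / 2 / 2) + (N : ℝ) ^ (th j.1)) ≤ 2 * C * (N : ℝ) ^ (1 - κ / 4) := by
      have h1 : (N : ℝ) ^ (1 - κ / 2 / 2) = (N : ℝ) ^ (1 - κ / 4) := by congr 1; ring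
      have h2 : (N : ℝ) ^ (th j.1) ≤ (N : ℝ) ^ (1 - κ / 4) :=
        Real.rpow_le_rpow_of_exponent_le hN1 (by have := hth1 j.1; linarith)
      rw [h1]
      have h3 : 0 ≤ (N : ℝ) ^ (1 - κ / 4) := by positivity
      have h4 := (hCj j.1).le
      calc Cj j.1 * ((N : ℝ) ^ (1 - κ / 4) + (N : ℝ) ^ (th j.1)) ≤
            Cj j.1 * ((N : ℝ) ^ (1 - κ / 4) + (N : ℝ) ^ (1 - κ / 4)) := by gcongr
        _ = Cj j.1 * (2 * (N : ℝ) ^ (1 - κ / 4)) := by ring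
        _ ≤ C * (2 * (N : ℝ) ^ (1 - κ / 4)) := by gcongr
        _ = _ := by ring
    linarith

end Pool.Agent.J4.H38.SR3
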