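import Mathlib
import Pool.Agent.J4.H38.SR3.Win

/-! The diagonal terms. -/

set_option autoImplicit false

namespace Pool.Agent.J4.H38.SR3

open Finset
open Pool.Agent.H442R2
open Pool.Agent.H442R2.KF
open Pool.Agent.H442R2.BX.TaskEX (II II_one II_abs summable_bd Wt_pos dl_eq dl_abs)
open Pool.Agent.W23.DC (facR FacO tt le_tt_iff)

/-- sums of the sifted integers with the wide weight -/
theorem wide : ∃ N₀ : ℕ, ∀ N : ℕ, N₀ ≤ N → ∀ κd C0 K0 b y : ℕ, FLH κd C0 K0 b y →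
    ((K0 * y ^ (2 * (C0 * b)) : ℕ) : ℝ) ≤ (N : ℝ) ^ (1 / 10 : ℝ) →
    ∀ Ω : Finset ℤ, OmP N Ω → ∀ (P : Finset ℕ) (R : ℕ → ℕ → Prop),
    (∀ p ∈ P, p.Prime ∧ Odd p ∧ p ≤ y ∧ cd R p ≤ κd) →
    ∑ n ∈ Ω, Wt (2 * N) n * xr P R n ≤ 4 * (N * Vr P R) + Er C0 K0 b y := by
  obtain ⟨N₁, hN₁⟩ := Pool.Agent.W347.PL.pois0
  obtain ⟨N₂, hN₂⟩ : ∃ N₂ : ℕ, ∀ N : ℕ, N₂ ≤ N → Real.log N ≤ (N : ℝ) ^ (9 / 10 : ℝ) := by
    have h1 := (isLittleO_log_rpow_atTop (by norm_num : (0 : ℝ) < 9 / 10)).bound (one_pos)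
    have h2 := (tendsto_natCast_atTop_atTop (R := ℝ)).eventually h1
    have h3 := h2.and (Filter.eventually_ge_atTop 1)
    obtain ⟨N₂, hN₂⟩ := Filter.eventually_atTop.mp h3
    refine ⟨N₂, fun N hN => ?_⟩
    obtain ⟨h4, h5⟩ := hN₂ N hN
    rw [one_mul, Real.norm_eq_abs, Real.norm_eq_abs, abs_of_nonneg (Real.log_natCast_nonneg N),
      abs_of_nonneg (by positivity)] at h4
    exact h4
  refine ⟨max 2 (max N₁ N₂), fun N hN κd C0 K0 b y hFL hKN Ω hΩ P R hP => ?_⟩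
  have hN2 : 2 ≤ N := (le_max_left _ _).trans hN
  have hNN₁ : N₁ ≤ N := ((le_max_left _ _).trans (le_max_right _ _)).trans hN
  have hNN₂ : N₂ ≤ N := ((le_max_right _ _).trans (le_max_right _ _)).trans hN
  have hN1 : (1 : ℝ) ≤ N := by exact_mod_cast (by omega : 1 ≤ N)
  have hN2r : (2 : ℝ) ≤ N := by exact_mod_cast hN2
  have hN0 : (0 : ℝ) < N := by linarith
  have hVr := Vr_nonneg P R
  have hEr := Er_nonneg C0 K0 b y
  have f1 := hFL Ω (fun n => Wt (2 * N) n) (2 * N) 1 P R (fun n _ => (Wt_pos _ n).le) (by positivity)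
    zero_le_one (fun p hp => ⟨(hP p hp).1, (hP p hp).2.2.1, (hP p hp).2.2.2⟩) (by
      intro S hS hSp z
      obtain ⟨g1, _, _⟩ := odd_prod (S := S) (fun p hp => ⟨(hP p (hS hp)).1, (hP p (hS hp)).2.1⟩)
      set q : ℕ := ∏ p ∈ S, p with hq
      have hqN : (q : ℝ) ≤ (N : ℝ) ^ (1 / 10 : ℝ) := le_trans (by exact_mod_cast hSp) hKN
      have hN2c : ((2 * N : ℕ) : ℝ) = 2 * N := by push_cast; ring
      have h2N0 : (0 : ℝ) < 2 * N := by linarith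
      have hle : (N : ℝ) ^ (1 / 10 : ℝ) ≤ ((2 * N : ℕ) : ℝ) ^ (1 / 10 : ℝ) := by
        rw [hN2c]
        exact Real.rpow_le_rpow hN0.le (by linarith) (by norm_num)
      have m1 : (q : ℝ) ≤ ((2 * N : ℕ) : ℝ) ^ 3 := by
        refine (hqN.trans hle).trans ?_
        rw [← Real.rpow_natCast ((2 * N : ℕ) : ℝ) 3]
        apply Real.rpow_le_rpow_of_exponent_le
        · rw [hN2c]; linarith
        · norm_num
      have m2 : (q : ℝ) * Real.log ((2 * N : ℕ) : ℝ) ≤ ((2 * N : ℕ) : ℝ) := by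
        calc (q : ℝ) * Real.log ((2 * N : ℕ) : ℝ) ≤
            ((2 * N : ℕ) : ℝ) ^ (1 / 10 : ℝ) * ((2 * N : ℕ) : ℝ) ^ (9 / 10 : ℝ) :=
              mul_le_mul (hqN.trans hle) (hN₂ (2 * N) (by omega)) (Real.log_natCast_nonneg _)
                (by positivity)
          _ = _ := by
              rw [← Real.rpow_add (by rw [hN2c]; exact h2N0)]
              norm_num
      have h1 := hN₁ (2 * N) (by omega) q g1 m1 m2 z
      have h2 := hΩ.t2 (fun n => II q (n - z)) 1 (fun n => II_abs _ _)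
      have e1 : ∑' n : ℤ, (if (q : ℤ) ∣ n - z then Wt (2 * N) n else 0) =
          ∑' n : ℤ, Wt (2 * N) n * II q (n - z) := by
        refine tsum_congr fun n => ?_
        unfold II
        split_ifs <;> simp
      rw [e1, hN2c] at h1
      have h3 : (1 : ℝ) / (2 * (N : ℝ)) ^ 5 ≤ 1 / 2 := by
        apply one_div_le_one_div_of_le (by norm_num)
        calc (2 : ℝ) ≤ 2 * N := by linarith
          _ ≤ (2 * (N : ℝ)) ^ 5 := le_self_pow₀ (by linarith) (by norm_num)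
      have h4 : (1 : ℝ) * (1 / (N : ℝ) ^ 10) ≤ 1 / 2 := by
        rw [one_mul]
        apply one_div_le_one_div_of_le (by norm_num)
        exact hN2r.trans (le_self_pow₀ hN1 (by norm_num))
      rw [abs_le] at h1 h2 ⊢
      constructor <;> linarith)
  have h1 := (abs_le.1 f1).2
  have h2 : (1 / 2 : ℝ) ^ b ≤ 1 := pow_le_one₀ (by norm_num) (by norm_num)
  have h3 : (1 / 2 : ℝ) ^ b * (2 * N * Vr P R) ≤ 1 * (2 * N * Vr P R) :=
    mul_le_mul_of_nonneg_right h2 (by positivity)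
  linarith

/-- **the diagonal** -/
theorem diagW (κ : ℝ) (hκ : 0 < κ) : ∃ (C : ℝ) (N₀ : ℕ), 0 < C ∧ ∀ N : ℕ, N₀ ≤ N →
    ∀ W : Finset ℕ, W ⊆ FR N κ → ∀ y : ℕ, DGP N y C W := by
  obtain ⟨N₁, H1⟩ := wide
  classical
  obtain ⟨N₃, C₃, hC₃, H3⟩ := BX.PB_thm (κ / 2) (by linarith)
  refine ⟨8 * C₃ ^ 2, max 2 (max N₁ N₃), by positivity, ?_⟩
  intro N hN W hW y a ha c hb hc κd C0 K0 b hFL hKN Ω hΩ P R hP
  have hN2 : 2 ≤ N := (le_max_left _ _).trans hN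
  have hNN₁ : N₁ ≤ N := ((le_max_left _ _).trans (le_max_right _ _)).trans hN
  have hNN₃ : N₃ ≤ N := ((le_max_right _ _).trans (le_max_right _ _)).trans hN
  have hN1 : (1 : ℝ) ≤ N := by exact_mod_cast (by omega : 1 ≤ N)
  have hN0 : (0 : ℝ) < N := by linarith
  have hFRm : ∀ d ∈ FR N κ, 1 ≤ d ∧ d ≤ N ∧ BX.Rough ((N : ℝ) ^ (κ / 2)) d := by
    intro d hd
    obtain ⟨h1, h2, h3, h4⟩ := mem_FR.1 hd
    unfold facR BX.roughs at h1
    rw [mem_filter, mem_filter, mem_Icc] at h1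
    refine ⟨h2.le, ?_, h1.1.2⟩
    have h5 : (d : ℝ) ≤ N := by
      calc (d : ℝ) ≤ (⌊(N : ℝ) ^ (111 / 200 : ℝ)⌋₊ : ℝ) := by exact_mod_cast h1.1.1.2
        _ ≤ (N : ℝ) ^ (111 / 200 : ℝ) := Nat.floor_le (by positivity)
        _ ≤ (N : ℝ) ^ (1 : ℝ) := Real.rpow_le_rpow_of_exponent_le hN1 (by norm_num)
        _ = N := Real.rpow_one _
    exact_mod_cast h5
  have hcR : BX.CofR ((N : ℝ) ^ (κ / 2)) N c := ⟨hb, fun d hd => (hFRm d (hW (hc d hd))).2⟩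
  have hpt : ∀ n : ℤ, Wt N n * (rW W c a n * rW W c a n) ≤ 2 * C₃ ^ 2 * Wt (2 * N) n := by
    intro n
    rw [rW_eq hc (fun d hd => ⟨(hFRm d (hW hd)).1, (hFRm d (hW hd)).2.1⟩)]
    have h1 := H3 N N hNN₃ le_rfl c hcR a n ha
    have hx0 : (1 : ℝ) ≤ 1 + |(n : ℝ)| / N := by
      have : 0 ≤ |(n : ℝ)| / N := by positivity
      linarith
    have h2 : BX.rf c N a n * BX.rf c N a n ≤ C₃ ^ 2 * (1 + |(n : ℝ)| / N) := by
      calc BX.rf c N a n * BX.rf c N a n = |BX.rf c N a n| * |BX.rf c N a n| := (abs_mul_abs_self _).symm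
        _ ≤ (C₃ * (1 + |(n : ℝ)| / N) ^ (1 / 4 : ℝ)) * (C₃ * (1 + |(n : ℝ)| / N) ^ (1 / 4 : ℝ)) :=
            mul_le_mul h1 h1 (abs_nonneg _) (by positivity)
        _ = C₃ ^ 2 * ((1 + |(n : ℝ)| / N) ^ (1 / 4 : ℝ) * (1 + |(n : ℝ)| / N) ^ (1 / 4 : ℝ)) := by ring
        _ = C₃ ^ 2 * (1 + |(n : ℝ)| / N) ^ (1 / 2 : ℝ) := by
            rw [← Real.rpow_add (by linarith)]
            norm_num
        _ ≤ C₃ ^ 2 * (1 + |(n : ℝ)| / N) := by
            refine mul_le_mul_of_nonneg_left ?_ (by positivity)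
            calc (1 + |(n : ℝ)| / N) ^ (1 / 2 : ℝ) ≤ (1 + |(n : ℝ)| / N) ^ (1 : ℝ) :=
                  Real.rpow_le_rpow_of_exponent_le hx0 (by norm_num)
              _ = _ := Real.rpow_one _
    have h3 := (BX.GS N (by omega)).1 n
    calc Wt N n * (BX.rf c N a n * BX.rf c N a n) ≤ Wt N n * (C₃ ^ 2 * (1 + |(n : ℝ)| / N)) :=
          mul_le_mul_of_nonneg_left h2 (Wt_pos N n).le
      _ = C₃ ^ 2 * (Wt N n * (1 + |(n : ℝ)| / N)) := by ring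
      _ ≤ C₃ ^ 2 * (2 * Wt (2 * N) n) := mul_le_mul_of_nonneg_left h3 (by positivity)
      _ = _ := by ring
  have h4 := H1 N hNN₁ κd C0 K0 b y hFL hKN Ω hΩ P R hP
  calc ∑ n ∈ Ω, Wt N n * (rW W c a n * rW W c a n) * xr P R n
      ≤ ∑ n ∈ Ω, 2 * C₃ ^ 2 * (Wt (2 * N) n * xr P R n) := by
        refine sum_le_sum fun n _ => ?_
        have h5 := mul_le_mul_of_nonneg_right (hpt n) (xr_bd P R n).1
        linarith
    _ = 2 * C₃ ^ 2 * ∑ n ∈ Ω, Wt (2 * N) n * xr P R n := by rw [mul_sum]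
    _ ≤ 2 * C₃ ^ 2 * (4 * (N * Vr P R) + Er C0 K0 b y) := mul_le_mul_of_nonneg_left h4 (by positivity)
    _ ≤ _ := by
        have hEr := Er_nonneg C0 K0 b y
        have h6 : 0 ≤ C₃ ^ 2 * Er C0 K0 b y := by positivity
        linarith

end Pool.Agent.J4.H38.SR3
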