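import Mathlib
import Pool.Agent.J4.H38.SR3.Rich
import Pool.Agent.W23.DC.Fin5
import Pool.Agent.Y822.Low2

/-! Richert's weighted sieve: one shift. -/

set_option autoImplicit false

namespace Pool.Agent.J4.H38.SR3

open Finset
open Pool.Agent.Y822
open Pool.Agent.W23
open Pool.Agent.W23.DC (tt pr mem_pr ind Wf)

open Classical in
/-- at most two prime factors, all at least `N ^ (1/7)` -/
noncomputable def g2 (N m : ℕ) : ℝ :=
  if m ≠ 0 ∧ m.primeFactorsList.length ≤ 2 ∧ ∀ q ∈ m.primeFactors, (N : ℝ) ^ (1 / 7 : ℝ) ≤ q then 1 else 0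

open Classical in
/-- divisible by the square of a large prime -/
noncomputable def bq7 (N m : ℕ) : ℝ :=
  if ∃ q : ℕ, q.Prime ∧ (N : ℝ) ^ (1 / 7 : ℝ) ≤ q ∧ q ^ 2 ∣ m then 1 else 0

lemma g2_bd (N m : ℕ) : 0 ≤ g2 N m ∧ g2 N m ≤ 1 := by
  unfold g2; split_ifs <;> norm_num

lemma bq7_nonneg (N m : ℕ) : 0 ≤ bq7 N m := by
  unfold bq7; split_ifs <;> norm_num

lemma g2_le_ro {N y : ℕ} (hy : (y : ℝ) < (N : ℝ) ^ (1 / 7 : ℝ)) (m : ℕ) : g2 N m ≤ ro y m := by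
  classical
  unfold g2 ro
  by_cases h : m ≠ 0 ∧ m.primeFactorsList.length ≤ 2 ∧ ∀ q ∈ m.primeFactors, (N : ℝ) ^ (1 / 7 : ℝ) ≤ q
  · rw [if_pos h, if_pos]
    intro p hp hpy hpm
    have h1 := h.2.2 p (Nat.mem_primeFactors.2 ⟨hp, hpm, h.1⟩)
    have h2 : (p : ℝ) ≤ y := by exact_mod_cast hpy
    linarith
  · rw [if_neg h]
    split_ifs <;> norm_num

/-- from a positive weight to an almost prime -/
theorem ptwR : ∃ N₀ : ℕ, ∀ N : ℕ, N₀ ≤ N → ∀ (y : ℕ) (κ : ℝ), (N : ℝ) ^ κ ≤ y + 1 →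
    ∀ m : ℕ, m ≠ 0 → m ≤ 2 * N → ro y m * Wf N κ m ≤ g2 N m + bq7 N m := by
  classical
  obtain ⟨N₀, H⟩ := DC.struct
  refine ⟨N₀, fun N hN y κ hy m hm hm2 => ?_⟩
  have hg := g2_bd N m
  have hb := bq7_nonneg N m
  by_cases hro : Ro y m
  swap
  · unfold ro
    rw [if_neg hro, zero_mul]
    linarith
  have h1 : ro y m = 1 := by unfold ro; rw [if_pos hro]
  rw [h1, one_mul]
  have hW1 := DC.Wf_le_one (N := N) (ε₁ := κ) m
  rcases le_or_gt (Wf N κ m) 0 with hW | hW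
  · linarith
  by_cases hq : ∃ q : ℕ, q.Prime ∧ (N : ℝ) ^ (1 / 7 : ℝ) ≤ q ∧ q ^ 2 ∣ m
  · have hbq : bq7 N m = 1 := if_pos hq
    rw [hbq]
    linarith
  · push Not at hq
    obtain ⟨u, s, hms, hu, hs1, hs2⟩ := H N hN κ m hm hm2 hW (fun q h1 h2 => hq q h1 h2)
    have hu1 : u = 1 := by
      by_contra hne
      obtain ⟨l, hl, hlu⟩ := Nat.exists_prime_and_dvd hne
      have h2 := hu l hl hlu
      have h3 : y < l := by
        by_contra h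
        exact hro l hl (by omega) (hms ▸ hlu.mul_right s)
      have h4 : (y : ℝ) + 1 ≤ l := by exact_mod_cast h3
      linarith
    rw [hu1, one_mul] at hms
    have hg1 : g2 N m = 1 := by
      unfold g2
      rw [if_pos ⟨hm, by rw [hms]; exact hs1, by rw [hms]; exact hs2⟩]
    rw [hg1]
    linarith

open Classical in
/-- numbers `n ≤ N` such that `n + t` is divisible by the square of a large prime -/
theorem squares7 {N : ℕ} (hN : 2 ≤ N) (t : ℕ) (ht : t ≤ N) :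
    ∑ n ∈ Icc 1 N, bq7 N (n + t) ≤ 12 * (N : ℝ) ^ (6 / 7 : ℝ) := by
  have hN1 : (1 : ℝ) ≤ N := by exact_mod_cast (by omega : 1 ≤ N)
  have hN0 : (0 : ℝ) < N := by linarith
  have hy1 : (1 : ℝ) ≤ (N : ℝ) ^ (1 / 7 : ℝ) := Real.one_le_rpow hN1 (by norm_num)
  obtain ⟨k, hk⟩ : ∃ k : ℕ, k + 1 = ⌈(N : ℝ) ^ (1 / 7 : ℝ)⌉₊ := by
    have : 0 < ⌈(N : ℝ) ^ (1 / 7 : ℝ)⌉₊ := Nat.ceil_pos.2 (by linarith)
    exact ⟨⌈(N : ℝ) ^ (1 / 7 : ℝ)⌉₊ - 1, by omega⟩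
  have h0 : ∀ n ∈ Icc 1 N, bq7 N (n + t) ≤
      ∑ q ∈ Ioo k (3 * N + 1), (if q ^ 2 ∣ n + t then (1 : ℝ) else 0) := by
    intro n hn
    rw [mem_Icc] at hn
    unfold bq7
    split_ifs with h
    · obtain ⟨q, hq, hqN, hqd⟩ := h
      have h1 : q ^ 2 ≤ n + t := Nat.le_of_dvd (by omega) hqd
      have h5 : q ≤ q ^ 2 := Nat.le_self_pow (by norm_num) q
      have h6 : ⌈(N : ℝ) ^ (1 / 7 : ℝ)⌉₊ ≤ q := Nat.ceil_le.2 hqN
      have h7 : q ∈ Ioo k (3 * N + 1) := by rw [mem_Ioo]; omega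
      refine le_trans ?_ (single_le_sum (f := fun q => if q ^ 2 ∣ n + t then (1 : ℝ) else 0)
        (fun q _ => by split_ifs <;> norm_num) h7)
      simp only [if_pos hqd, le_refl]
    · exact sum_nonneg fun q _ => by split_ifs <;> norm_num
  have h1 : ∑ n ∈ Icc 1 N, bq7 N (n + t) ≤
      ∑ q ∈ Ioo k (3 * N + 1), ∑ n ∈ Icc 1 N, (if q ^ 2 ∣ n + t then (1 : ℝ) else 0) := by
    rw [sum_comm]
    exact sum_le_sum h0
  have h4 : ∑ q ∈ Ioo k (3 * N + 1), ∑ n ∈ Icc 1 N, (if q ^ 2 ∣ n + t then (1 : ℝ) else 0) ≤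
      2 * N * ∑ q ∈ Ioo k (3 * N + 1), ((q : ℝ) ^ 2)⁻¹ := by
    rw [Finset.mul_sum]
    apply Finset.sum_le_sum
    intro q hq
    have hq0 : 1 ≤ q := by have := (mem_Ioo.1 hq).1; omega
    have hq2 : 0 < q ^ 2 := by positivity
    have h5 : ∑ n ∈ Icc 1 N, (if q ^ 2 ∣ n + t then (1 : ℝ) else 0) ≤
        (((Ioc 0 (2 * N)).filter (fun n => q ^ 2 ∣ n)).card : ℝ) := by
      rw [← sum_filter, sum_const, nsmul_eq_mul, mul_one]
      have h6 : ((Icc 1 N).filter (fun n => q ^ 2 ∣ n + t)).card ≤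
          ((Ioc 0 (2 * N)).filter (fun n => q ^ 2 ∣ n)).card := by
        refine card_le_card_of_injOn (fun n => n + t) (fun n hn => ?_) (fun a _ b _ h => by
          simpa using h)
        rw [mem_coe, mem_filter, mem_Icc] at hn
        rw [mem_coe, mem_filter, mem_Ioc]
        refine ⟨?_, hn.2⟩
        change 0 < n + t ∧ n + t ≤ 2 * N
        omega
      exact_mod_cast h6
    refine h5.trans ?_
    rw [Nat.Ioc_filter_dvd_card_eq_div]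
    refine Nat.cast_div_le.trans (le_of_eq ?_)
    push_cast
    rw [div_eq_mul_inv]
  have h6 := sum_Ioo_inv_sq_le (α := ℝ) k (3 * N + 1)
  have h7 : (2 : ℝ) / (k + 1) ≤ 2 / (N : ℝ) ^ (1 / 7 : ℝ) := by
    apply div_le_div_of_nonneg_left (by norm_num) (by linarith)
    have h8 := Nat.le_ceil ((N : ℝ) ^ (1 / 7 : ℝ))
    rw [← hk] at h8
    push_cast at h8
    exact h8
  have h9 : (N : ℝ) / (N : ℝ) ^ (1 / 7 : ℝ) = (N : ℝ) ^ (6 / 7 : ℝ) := by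
    rw [div_eq_iff (by positivity), ← Real.rpow_add hN0]
    norm_num
  calc _ ≤ 2 * N * ∑ q ∈ Ioo k (3 * N + 1), ((q : ℝ) ^ 2)⁻¹ := h1.trans h4
    _ ≤ 2 * N * (2 / (N : ℝ) ^ (1 / 7 : ℝ)) := by
        have : (0 : ℝ) ≤ 2 * N := by positivity
        exact mul_le_mul_of_nonneg_left (h6.trans h7) this
    _ = 4 * ((N : ℝ) / (N : ℝ) ^ (1 / 7 : ℝ)) := by ring
    _ = 4 * (N : ℝ) ^ (6 / 7 : ℝ) := by rw [h9]
    _ ≤ _ := by
        have : 0 ≤ (N : ℝ) ^ (6 / 7 : ℝ) := by positivity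
        linarith

/-- the total discrepancy of `f` along the shift `h`, over a set of moduli -/
noncomputable def LF (y : ℕ) (S : Finset ℕ) (N : ℕ) (f : ℕ → ℝ) (h : ℕ) : ℝ :=
  ∑ d ∈ S, |∑ n ∈ Icc 1 N, f n * (ro y (n + h) * cen d (n + h))|

lemma LF_nonneg (y : ℕ) (S : Finset ℕ) (N : ℕ) (f : ℕ → ℝ) (h : ℕ) : 0 ≤ LF y S N f h :=
  sum_nonneg fun _ _ => abs_nonneg _

/-- the error is the total discrepancy -/
lemma FR_eq_LF (N y : ℕ) (κ : ℝ) (f : ℕ → ℝ) (t : ℕ) :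
    ∑ d ∈ FR N κ, |(∑ n ∈ Icc 1 N, f n * ro y (n + t) * ind (n + t) d) -
      (∑ n ∈ Icc 1 N, f n * ro y (n + t)) * (1 / (d : ℝ))| = LF y (FR N κ) N f t := by
  classical
  unfold LF
  refine sum_congr rfl fun d _ => ?_
  congr 1
  rw [sum_mul, ← sum_sub_distrib]
  refine sum_congr rfl fun n _ => ?_
  unfold cen ind
  ring

/-- **one shift** -/
theorem stepR : ∃ c₀ : ℝ, 0 < c₀ ∧ ∀ κ : ℝ, 0 < κ → κ ≤ 1 / 25 → ∃ N₀ : ℕ, ∀ N : ℕ, N₀ ≤ N →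
    ∀ y : ℕ, (N : ℝ) ^ κ ≤ y + 1 → ∀ f : ℕ → ℝ, (∀ n, 0 ≤ f n) →
    (∀ n, f n ≤ 1) → ∀ t ≤ N, c₀ * κ * (∑ n ∈ Icc 1 N, f n * ro y (n + t)) -
      3 * LF y (FR N κ) N f t - 12 * (N : ℝ) ^ (6 / 7 : ℝ) ≤
      ∑ n ∈ Icc 1 N, f n * g2 N (n + t) := by
  classical
  obtain ⟨c₀, hc₀, H⟩ := lowR
  obtain ⟨N₁, H1⟩ := ptwR
  refine ⟨c₀, hc₀, fun κ hκ hκ1 => ?_⟩
  obtain ⟨N₀, H⟩ := H κ hκ hκ1
  refine ⟨max N₀ (max N₁ 2), fun N hN y hy2 f hf0 hf1 t ht => ?_⟩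
  have hN₁ : N₁ ≤ N := ((le_max_left _ _).trans (le_max_right _ _)).trans hN
  have hN2 : 2 ≤ N := ((le_max_right _ _).trans (le_max_right _ _)).trans hN
  have h1 := H N ((le_max_left _ _).trans hN) (Icc 1 N) (fun n => f n * ro y (n + t)) (fun n => n + t)
    (fun n _ => mul_nonneg (hf0 n) (ro_nonneg _ _))
  have h2 := FR_eq_LF N y κ f t
  rw [h2] at h1
  have h3 : ∑ n ∈ Icc 1 N, f n * ro y (n + t) * Wf N κ (n + t) ≤
      ∑ n ∈ Icc 1 N, f n * g2 N (n + t) + ∑ n ∈ Icc 1 N, bq7 N (n + t) := by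
    rw [← sum_add_distrib]
    refine sum_le_sum fun n hn => ?_
    rw [mem_Icc] at hn
    have h4 := mul_le_mul_of_nonneg_left (H1 N hN₁ y κ hy2 (n + t) (by omega) (by omega)) (hf0 n)
    have h5 : f n * bq7 N (n + t) ≤ bq7 N (n + t) := mul_le_of_le_one_left (bq7_nonneg _ _) (hf1 n)
    nlinarith
  have h6 := squares7 hN2 t ht
  linarith

end Pool.Agent.J4.H38.SR3
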