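import Mathlib
import Pool.Agent.J4.H38.SR3.Dia
import Pool.Agent.J4.H38.SR3.Step
import Pool.Agent.J4.H38.SR2.Few

/-! The number of the bad sets of shifts for one set of moduli. -/

set_option autoImplicit false

namespace Pool.Agent.J4.H38.SR3

open Finset
open Pool.Agent.H442R2
open Pool.Agent.H442R2.KF
open Pool.Agent.H442R2.BX.TaskEX (Wt_pos)
open Pool.Agent.Y822
open Pool.Agent.J4.H38.SR
open Pool.Agent.J4.H38.SR2
open Pool.Agent.W23.DC (facR FacO tt le_tt_iff)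

/-- the odd primes up to `y` -/
noncomputable def Po (y : ℕ) : Finset ℕ := ((Icc 1 y).filter Nat.Prime).erase 2

lemma mem_Po {y p : ℕ} : p ∈ Po y ↔ p.Prime ∧ p ≠ 2 ∧ p ≤ y := by
  unfold Po
  rw [mem_erase, mem_filter, mem_Icc]
  constructor
  · rintro ⟨h1, ⟨_, h2⟩, h3⟩
    exact ⟨h3, h1, h2⟩
  · rintro ⟨h3, h1, h2⟩
    exact ⟨h1, ⟨h3.one_lt.le, h2⟩, h3⟩

/-- the residues forbidden by the shifts -/
def RT (T : Finset ℕ) (p a : ℕ) : Prop := ∃ t ∈ T, p ∣ a + t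

lemma cd_RT (T : Finset ℕ) (p : ℕ) : cd (RT T) p = fT T p := by
  classical
  unfold cd fT RT
  congr!

lemma hP_Po {m y : ℕ} {T : Finset ℕ} (hT : T.card ≤ m) :
    ∀ p ∈ Po y, p.Prime ∧ Odd p ∧ p ≤ y ∧ cd (RT T) p ≤ m := by
  intro p hp
  rw [mem_Po] at hp
  refine ⟨hp.1, hp.1.odd_of_ne_two hp.2.1, hp.2.2, ?_⟩
  rw [cd_RT, fT_eq T hp.1.pos]
  exact (nuT_le_card T p).trans hT

lemma RT_rs {T : Finset ℕ} {p : ℕ} (hp : 0 < p) (n : ℤ) :
    RT T p (rs p n) ↔ ∃ t ∈ T, (p : ℤ) ∣ n + t := by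
  unfold RT
  refine exists_congr fun t => and_congr_right fun _ => ?_
  have h1 : ((rs p n : ℕ) : ℤ) = n % p := by
    unfold rs
    rw [Int.toNat_of_nonneg (Int.emod_nonneg n (by exact_mod_cast hp.ne'))]
  rw [← Int.natCast_dvd_natCast]
  push_cast
  rw [h1]
  have h2 : n + t = (n % p + t) + p * (n / p) := by
    have := Int.emod_add_mul_ediv n p
    linarith
  rw [h2]
  exact (dvd_add_left (dvd_mul_right _ _)).symm

/-- the shift `a` is free of small odd primes -/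
noncomputable def qo (y a : ℕ) (n : ℤ) : ℝ := xr (Po y) (RT {a}) n

lemma qo_sq (y a : ℕ) (n : ℤ) : qo y a n * qo y a n = qo y a n := by
  unfold qo xr
  split_ifs <;> norm_num

lemma xr_ins (y a : ℕ) (T : Finset ℕ) (n : ℤ) :
    xr (Po y) (RT (insert a T)) n = qo y a n * xr (Po y) (RT T) n := by
  classical
  have h : (∀ p ∈ Po y, ¬ RT (insert a T) p (rs p n)) ↔
      (∀ p ∈ Po y, ¬ RT {a} p (rs p n)) ∧ (∀ p ∈ Po y, ¬ RT T p (rs p n)) := by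
    unfold RT
    constructor
    · intro h
      refine ⟨fun p hp => ?_, fun p hp => ?_⟩
      · rintro ⟨t, ht, h1⟩
        exact h p hp ⟨t, mem_insert.2 (Or.inl (mem_singleton.1 ht)), h1⟩
      · rintro ⟨t, ht, h1⟩
        exact h p hp ⟨t, mem_insert_of_mem ht, h1⟩
    · rintro ⟨h1, h2⟩ p hp ⟨t, ht, h3⟩
      rcases mem_insert.1 ht with rfl | h4
      · exact h1 p hp ⟨t, mem_singleton_self t, h3⟩
      · exact h2 p hp ⟨t, h4, h3⟩
  unfold qo xr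
  by_cases h1 : ∀ p ∈ Po y, ¬ RT {a} p (rs p n)
  · by_cases h2 : ∀ p ∈ Po y, ¬ RT T p (rs p n)
    · rw [if_pos (h.2 ⟨h1, h2⟩), if_pos h1, if_pos h2, mul_one]
    · rw [if_neg (fun h3 => h2 (h.1 h3).2), if_neg h2, mul_zero]
  · rw [if_neg (fun h3 => h1 (h.1 h3).1), if_neg h1, zero_mul]

lemma ro_qo {y n a : ℕ} (h : Odd (n + a)) : ro y (n + a) = qo y a (n : ℤ) := by
  classical
  have e : Ro y (n + a) ↔ ∀ p ∈ Po y, ¬ RT {a} p (rs p (n : ℤ)) := by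
    constructor
    · intro h1 p hp h2
      rw [mem_Po] at hp
      rw [RT_rs hp.1.pos] at h2
      obtain ⟨t, ht, h3⟩ := h2
      rw [mem_singleton] at ht
      subst ht
      exact h1 p hp.1 hp.2.2 (by exact_mod_cast h3)
    · intro h1 p hp hpy hd
      by_cases h2 : p = 2
      · subst h2
        exact (Nat.not_even_iff_odd.2 h) (even_iff_two_dvd.2 hd)
      · exact h1 p (mem_Po.2 ⟨hp, h2, hpy⟩) ((RT_rs hp.pos _).2
          ⟨a, mem_singleton_self a, by exact_mod_cast hd⟩)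
  unfold ro qo xr
  by_cases h1 : Ro y (n + a)
  · rw [if_pos h1, if_pos (e.1 h1)]
  · rw [if_neg h1, if_neg (fun h2 => h1 (e.2 h2))]

lemma rT_le_xr (y : ℕ) (T : Finset ℕ) (n : ℕ) : rT T y n ≤ xr (Po y) (RT T) (n : ℤ) := by
  classical
  rw [rT_eq]
  split_ifs with h
  · unfold xr
    rw [if_pos]
    intro p hp h2
    rw [mem_Po] at hp
    rw [RT_rs hp.1.pos] at h2
    obtain ⟨t, ht, h3⟩ := h2
    exact h t ht p hp.1 hp.2.2 (by exact_mod_cast h3)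
  · exact (xr_bd _ _ _).1

lemma Vr_RT {y : ℕ} (hy : 2 ≤ y) {T : Finset ℕ} (hT : T.Nonempty)
    (hpar : ∀ t ∈ T, ∀ t' ∈ T, Even (t + t')) : Vr (Po y) (RT T) = 2 * VT y T := by
  have h2 : 2 ∈ (Icc 1 y).filter Nat.Prime := by
    rw [mem_filter, mem_Icc]
    exact ⟨⟨by norm_num, hy⟩, Nat.prime_two⟩
  unfold VT
  rw [← mul_prod_erase _ _ h2]
  have h3 : fT T 2 = 1 := by
    unfold fT
    rw [card_eq_one]
    obtain ⟨t, ht⟩ := hT
    refine ⟨t % 2, ?_⟩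
    ext r
    rw [mem_filter, mem_range, mem_singleton]
    constructor
    · rintro ⟨hr, t', ht', hd⟩
      have := hpar t ht t' ht'
      rw [Nat.even_iff] at this
      omega
    · rintro rfl
      exact ⟨by omega, t, ht, by omega⟩
  rw [h3]
  unfold Vr Po
  rw [prod_congr rfl (fun p _ => by rw [cd_RT])]
  norm_num
  ring

lemma GF_rW {y D : ℕ} {W : Finset ℕ} {c : ℕ → ℝ} (hc : ∀ d, c d ≠ 0 → d ∈ W)
    (hW : ∀ d ∈ W, 1 ≤ d ∧ d ≤ D) {n a : ℕ} (hn : 1 ≤ n) (ho : Odd (n + a)) :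
    GF y D c (n + a) = qo y a (n : ℤ) * rW W c (-(a : ℤ)) n := by
  rw [rW_eq hc hW]
  unfold GF BX.rf BX.Rf
  rw [if_neg (by omega), ro_qo ho]
  congr 1
  refine sum_congr rfl fun d _ => ?_
  unfold cen BX.dl
  have : (d : ℤ) ∣ (n : ℤ) - -(a : ℤ) ↔ d ∣ n + a := by
    rw [sub_neg_eq_add]
    exact_mod_cast Iff.rfl
  simp only [this]

lemma FR_facts {N : ℕ} {κ : ℝ} (hN : 2 ≤ N) {d : ℕ} (hd : d ∈ FR N κ) :
    1 ≤ d ∧ d ≤ N ∧ Squarefree d ∧ ∀ p : ℕ, p.Prime → p ∣ d → (N : ℝ) ^ κ ≤ p := by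
  classical
  have hN1 : (1 : ℝ) ≤ N := by exact_mod_cast (by omega : 1 ≤ N)
  obtain ⟨h1, h2, h3, h4⟩ := mem_FR.1 hd
  unfold facR BX.roughs at h1
  rw [mem_filter, mem_filter, mem_Icc] at h1
  refine ⟨h2.le, ?_, h3, fun p hp hpd => ?_⟩
  · have h5 : (d : ℝ) ≤ N := by
      calc (d : ℝ) ≤ (⌊(N : ℝ) ^ (111 / 200 : ℝ)⌋₊ : ℝ) := by exact_mod_cast h1.1.1.2
        _ ≤ (N : ℝ) ^ (111 / 200 : ℝ) := Nat.floor_le (by positivity)
        _ ≤ (N : ℝ) ^ (1 : ℝ) := Real.rpow_le_rpow_of_exponent_le hN1 (by norm_num)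
        _ = N := Real.rpow_one _
    exact_mod_cast h5
  · exact (le_tt_iff hN hp.pos κ).1 (h4 p (Nat.mem_primeFactors.2 ⟨hp, hpd, by omega⟩))

lemma FR_SD {N y : ℕ} {κ : ℝ} (hN : 2 ≤ N) (hy : (y : ℝ) < (N : ℝ) ^ κ) : FR N κ ⊆ SD y N := by
  intro d hd
  obtain ⟨h1, h2, h3, h4⟩ := FR_facts hN hd
  rw [mem_SD]
  refine ⟨⟨h1, h2⟩, h3, fun p hp hpy hpd => ?_⟩
  have h5 := h4 p hp hpd
  have h6 : (p : ℝ) ≤ y := by exact_mod_cast hpy
  linarith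

lemma SI_le {N y : ℕ} {κ : ℝ} (hN : 2 ≤ N) (hy : (y : ℝ) < (N : ℝ) ^ κ) {W : Finset ℕ}
    (hW : W ⊆ FR N κ) : SI W ≤ EE y N := by
  refine le_trans ?_ (sum_div_le y N)
  unfold SI
  calc ∑ d ∈ W, 1 / (d : ℝ) ≤ ∑ d ∈ W, (3 : ℝ) ^ d.primeFactors.card / d := by
        refine sum_le_sum fun d _ => div_le_div_of_nonneg_right ?_ (Nat.cast_nonneg _)
        exact one_le_pow₀ (by norm_num)
    _ ≤ _ := sum_le_sum_of_subset_of_nonneg (hW.trans (FR_SD hN hy)) fun _ _ _ => by positivity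

/-- extremal coefficients -/
lemma exists_coW (y D N : ℕ) {W : Finset ℕ} (hW : ∀ d ∈ W, 1 ≤ d ∧ d ≤ D) (f : ℕ → ℝ) (h : ℕ) :
    ∃ c : ℕ → ℝ, (∀ d, |c d| ≤ 1) ∧ (∀ d, c d ≠ 0 → d ∈ W) ∧
      ∑ n ∈ Icc 1 N, f n * GF y D c (n + h) = LF y W N f h := by
  classical
  obtain ⟨c, hcd⟩ : ∃ c : ℕ → ℝ, ∀ d, c d = if d ∈ W then
    (if 0 ≤ ∑ n ∈ Icc 1 N, f n * (ro y (n + h) * cen d (n + h)) then 1 else -1) else 0 :=
    ⟨_, fun _ => rfl⟩
  have hc1 : ∀ d, |c d| ≤ 1 := by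
    intro d
    rw [hcd]
    split_ifs <;> norm_num
  have hc2 : ∀ d, c d ≠ 0 → d ∈ W := by
    intro d hd
    by_contra h1
    rw [hcd, if_neg h1] at hd
    exact hd rfl
  refine ⟨c, hc1, hc2, ?_⟩
  have e : ∑ n ∈ Icc 1 N, f n * GF y D c (n + h) =
      ∑ d ∈ W, c d * ∑ n ∈ Icc 1 N, f n * (ro y (n + h) * cen d (n + h)) := by
    simp only [mul_sum]
    rw [sum_comm]
    refine sum_congr rfl fun n _ => ?_
    unfold GF
    have h1 : ∑ d ∈ Icc 1 D, c d * cen d (n + h) = ∑ d ∈ W, c d * cen d (n + h) := by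
      symm
      refine sum_subset (fun d hd => mem_Icc.2 (hW d hd)) ?_
      intro d _ hd
      have : c d = 0 := by
        by_contra h2
        exact hd (hc2 d h2)
      rw [this, zero_mul]
    rw [h1, mul_sum, mul_sum]
    refine sum_congr rfl fun d _ => ?_
    ring
  rw [e]
  unfold LF
  refine sum_congr rfl fun d hd => ?_
  rw [hcd, if_pos hd]
  split_ifs with h1
  · rw [one_mul, abs_of_nonneg h1]
  · rw [abs_of_neg (not_le.1 h1)]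
    ring

lemma Co_of {y N : ℕ} {κ : ℝ} (hN : 2 ≤ N) (hy : (y : ℝ) < (N : ℝ) ^ κ) {W : Finset ℕ}
    (hW : W ⊆ FR N κ) {c : ℕ → ℝ} (hb : ∀ d, |c d| ≤ 1) (hc : ∀ d, c d ≠ 0 → d ∈ W) : Co y c := by
  refine ⟨fun d => (hb d).trans (one_le_pow₀ (by norm_num)), fun d hd => ?_⟩
  exact (mem_SD.1 (FR_SD hN hy (hW (hc d hd)))).2

/-- the square of a sum of functions of integers -/
theorem gramZ {Ω : Finset ℤ} {R : ℤ → ℝ} {G : ℕ → ℤ → ℝ} {A B : Finset ℕ} (hBA : B ⊆ A) {dg : ℕ → ℝ}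
    {og : ℕ → ℕ → ℝ} (hd0 : ∀ a ∈ A, 0 ≤ dg a) (ho0 : ∀ a ∈ A, ∀ b ∈ A, 0 ≤ og a b)
    (hd : ∀ a ∈ A, ∑ n ∈ Ω, R n * (G a n * G a n) ≤ dg a)
    (ho : ∀ a ∈ A, ∀ b ∈ A, b ≠ a → |∑ n ∈ Ω, R n * (G a n * G b n)| ≤ og a b) :
    ∑ n ∈ Ω, R n * (∑ a ∈ B, G a n) ^ 2 ≤
      ∑ a ∈ A, dg a + ∑ a ∈ A, ∑ b ∈ A.erase a, og a b := by
  classical
  have e1 : ∑ n ∈ Ω, R n * (∑ a ∈ B, G a n) ^ 2 =
      ∑ a ∈ B, ∑ b ∈ B, ∑ n ∈ Ω, R n * (G a n * G b n) := by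
    have : ∀ n ∈ Ω, R n * (∑ a ∈ B, G a n) ^ 2 =
        ∑ a ∈ B, ∑ b ∈ B, R n * (G a n * G b n) := by
      intro n _
      rw [sq, sum_mul_sum, mul_sum]
      refine sum_congr rfl fun a _ => ?_
      rw [mul_sum]
    rw [sum_congr rfl this, sum_comm]
    refine sum_congr rfl fun a _ => ?_
    rw [sum_comm]
  rw [e1]
  have e2 : ∀ a ∈ B, ∑ b ∈ B, ∑ n ∈ Ω, R n * (G a n * G b n) ≤
      dg a + ∑ b ∈ A.erase a, og a b := by
    intro a ha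
    rw [← add_sum_erase B _ ha]
    refine add_le_add (hd a (hBA ha)) ?_
    calc ∑ b ∈ B.erase a, ∑ n ∈ Ω, R n * (G a n * G b n)
        ≤ ∑ b ∈ B.erase a, og a b := by
          refine sum_le_sum fun b hb => ?_
          rw [mem_erase] at hb
          exact (le_abs_self _).trans (ho a (hBA ha) b (hBA hb.2) hb.1)
      _ ≤ ∑ b ∈ A.erase a, og a b := by
          refine sum_le_sum_of_subset_of_nonneg (erase_subset_erase a hBA) fun b hb _ => ?_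
          exact ho0 a (hBA ha) b (mem_of_mem_erase hb)
  calc ∑ a ∈ B, ∑ b ∈ B, ∑ n ∈ Ω, R n * (G a n * G b n)
      ≤ ∑ a ∈ B, (dg a + ∑ b ∈ A.erase a, og a b) := sum_le_sum e2
    _ ≤ ∑ a ∈ A, (dg a + ∑ b ∈ A.erase a, og a b) := by
        refine sum_le_sum_of_subset_of_nonneg hBA fun a ha _ => ?_
        exact add_nonneg (hd0 a ha) (sum_nonneg fun b hb => ho0 a ha b (mem_of_mem_erase hb))
    _ = _ := by rw [sum_add_distrib]

lemma Wt_low {N n : ℕ} (hN : 1 ≤ N) (hn : n ≤ N) : (1 : ℝ) ≤ 25 * Wt N (n : ℤ) := by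
  unfold Wt
  have hN0 : (0 : ℝ) < N := by exact_mod_cast hN
  have h0 : 0 ≤ ((n : ℤ) : ℝ) / N := by positivity
  have h1 : ((n : ℤ) : ℝ) / N ≤ 1 := by
    rw [div_le_one hN0]
    push_cast
    exact_mod_cast hn
  have h2 : (((n : ℤ) : ℝ) / N) ^ 2 ≤ 1 := pow_le_one₀ h0 h1
  have h3 : Real.exp (-Real.pi) ≤ Real.exp (-Real.pi * (((n : ℤ) : ℝ) / N) ^ 2) := by
    apply Real.exp_le_exp.2
    nlinarith [Real.pi_pos]
  linarith [BX.TaskBK.exp_neg_pi]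

/-- **the squares** -/
theorem sqW {N y D : ℕ} (hN : 1 ≤ N) (hy : 2 ≤ y) {W : Finset ℕ} (hW : ∀ d ∈ W, 1 ≤ d ∧ d ≤ D)
    {Ω : Finset ℤ} (hΩ : OmP N Ω) {T A B : Finset ℕ} (hT : T.Nonempty) (hBA : B ⊆ A)
    (hpar : ∀ a ∈ A, ∀ t ∈ T, Even (a + t)) (c : ℕ → ℕ → ℝ) (hc : ∀ a d, c a d ≠ 0 → d ∈ W)
    {dg : ℕ → ℝ} {og : ℕ → ℕ → ℝ} (hd0 : ∀ a ∈ A, 0 ≤ dg a) (ho0 : ∀ a ∈ A, ∀ b ∈ A, 0 ≤ og a b)
    (hd : ∀ a ∈ A, ∑ n ∈ Ω, Wt N n * (rW W (c a) (-(a : ℤ)) n * rW W (c a) (-(a : ℤ)) n) *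
      xr (Po y) (RT (insert a T)) n ≤ dg a)
    (ho : ∀ a ∈ A, ∀ b ∈ A, b ≠ a → |∑ n ∈ Ω, Wt N n * (rW W (c a) (-(a : ℤ)) n *
      rW W (c b) (-(b : ℤ)) n) * xr (Po y) (RT (insert a (insert b T))) n| ≤ og a b) :
    ∑ n ∈ Icc 1 N, rT T y n * (∑ a ∈ B, GF y D (c a) (n + a)) ^ 2 ≤
      25 * (∑ a ∈ A, dg a + ∑ a ∈ A, ∑ b ∈ A.erase a, og a b) := by
  classical
  obtain ⟨G, hG⟩ : ∃ G : ℕ → ℤ → ℝ, ∀ a n, G a n = qo y a n * rW W (c a) (-(a : ℤ)) n :=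
    ⟨_, fun _ _ => rfl⟩
  obtain ⟨F, hF⟩ : ∃ F : ℤ → ℝ, ∀ n, F n = (Wt N n * xr (Po y) (RT T) n) * (∑ a ∈ B, G a n) ^ 2 :=
    ⟨_, fun _ => rfl⟩
  have hF0 : ∀ n, 0 ≤ F n := by
    intro n
    rw [hF]
    exact mul_nonneg (mul_nonneg (Wt_pos N n).le (xr_bd _ _ _).1) (sq_nonneg _)
  have hpt : ∀ n ∈ Icc 1 N, rT T y n * (∑ a ∈ B, GF y D (c a) (n + a)) ^ 2 ≤ 25 * F (n : ℤ) := by
    intro n hn
    rw [mem_Icc] at hn
    by_cases hr : ∀ t ∈ T, Ro y (n + t)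
    · have h1 : rT T y n = 1 := by rw [rT_eq, if_pos hr]
      have h2 : xr (Po y) (RT T) (n : ℤ) = 1 := by
        have h3 := rT_le_xr y T n
        have h4 := (xr_bd (Po y) (RT T) (n : ℤ)).2
        linarith
      obtain ⟨t, ht⟩ := hT
      have h3 : ∀ a ∈ B, Odd (n + a) := by
        intro a ha
        have h5 := hr t ht 2 Nat.prime_two hy
        have h6 := hpar a (hBA ha) t ht
        rw [Nat.even_iff] at h6
        rw [Nat.odd_iff]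
        omega
      have h4 : ∑ a ∈ B, GF y D (c a) (n + a) = ∑ a ∈ B, G a (n : ℤ) := by
        refine sum_congr rfl fun a ha => ?_
        rw [hG]
        exact GF_rW (hc a) hW hn.1 (h3 a ha)
      rw [h1, h4, hF, h2, one_mul, mul_one]
      have h7 := Wt_low hN hn.2
      have h8 := sq_nonneg (∑ a ∈ B, G a (n : ℤ))
      nlinarith
    · have h1 : rT T y n = 0 := by rw [rT_eq, if_neg hr]
      rw [h1, zero_mul]
      have := hF0 (n : ℤ)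
      linarith
  have h1 : ∑ n ∈ Icc 1 N, F (n : ℤ) ≤ ∑ n ∈ Ω, F n := by
    rw [← sum_image (f := F) (g := fun n : ℕ => (n : ℤ)) (s := Icc 1 N) (by
      intro a _ b _ hab
      have hab' : (a : ℤ) = (b : ℤ) := hab
      exact_mod_cast hab')]
    refine sum_le_sum_of_subset_of_nonneg ?_ fun n _ _ => hF0 n
    intro n hn
    obtain ⟨m, hm, rfl⟩ := mem_image.1 hn
    rw [mem_Icc] at hm
    exact hΩ.hsub m hm.1 hm.2
  have h2 : ∑ n ∈ Ω, F n ≤ ∑ a ∈ A, dg a + ∑ a ∈ A, ∑ b ∈ A.erase a, og a b := by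
    have e : ∀ n, F n = (Wt N n * xr (Po y) (RT T) n) * (∑ a ∈ B, G a n) ^ 2 := hF
    rw [sum_congr rfl fun n _ => e n]
    refine gramZ hBA hd0 ho0 ?_ ?_
    · intro a ha
      refine le_trans (le_of_eq ?_) (hd a ha)
      refine sum_congr rfl fun n _ => ?_
      rw [xr_ins, hG]
      calc (Wt N n * xr (Po y) (RT T) n) * ((qo y a n * rW W (c a) (-(a : ℤ)) n) *
            (qo y a n * rW W (c a) (-(a : ℤ)) n)) = Wt N n * (rW W (c a) (-(a : ℤ)) n *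
            rW W (c a) (-(a : ℤ)) n) * ((qo y a n * qo y a n) * xr (Po y) (RT T) n) := by ring
        _ = _ := by rw [qo_sq]
    · intro a ha b hb hne
      refine le_trans (le_of_eq ?_) (ho a ha b hb hne)
      congr 1
      refine sum_congr rfl fun n _ => ?_
      rw [xr_ins, xr_ins, hG, hG]
      ring
  calc ∑ n ∈ Icc 1 N, rT T y n * (∑ a ∈ B, GF y D (c a) (n + a)) ^ 2
      ≤ ∑ n ∈ Icc 1 N, 25 * F (n : ℤ) := sum_le_sum hpt
    _ = 25 * ∑ n ∈ Icc 1 N, F (n : ℤ) := by rw [mul_sum]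
    _ ≤ _ := by linarith

/-- the diagonal bound -/
noncomputable def dgW (E3 : ℝ) (C1 K1 b y N : ℕ) (T : Finset ℕ) (a : ℕ) : ℝ :=
  E3 * (N * (2 * VT y (insert a T)) + Er C1 K1 b y)

/-- the bound off the diagonal -/
noncomputable def ogW (E1 E2 s : ℝ) (C1 K1 b y N : ℕ) (T : Finset ℕ) (a a' : ℕ) : ℝ :=
  8 * (1 / 2 : ℝ) ^ b * (N * (s ^ 2 * (2 * VT y (insert a (insert a' T))))) +
    Er C1 K1 b y * E1 + E2

/-- the bound for the squares -/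
noncomputable def QW (E1 E2 E3 s : ℝ) (C1 K1 b y N : ℕ) (A T0 S : Finset ℕ) : ℝ :=
  25 * (∑ a ∈ A \ S, dgW E3 C1 K1 b y N (T0 ∪ S) a +
    ∑ a ∈ A \ S, ∑ a' ∈ A \ (insert a S), ogW E1 E2 s C1 K1 b y N (T0 ∪ S) a a')

lemma dgW_nonneg {E3 : ℝ} (hE3 : 0 ≤ E3) (C1 K1 b y N : ℕ) (T : Finset ℕ) (a : ℕ) :
    0 ≤ dgW E3 C1 K1 b y N T a := by
  unfold dgW
  have h1 := Er_nonneg C1 K1 b y
  have h3 := VT_nonneg y (insert a T)
  positivity

lemma ogW_nonneg {E1 E2 : ℝ} (hE1 : 0 ≤ E1) (hE2 : 0 ≤ E2) (s : ℝ) (C1 K1 b y N : ℕ) (T : Finset ℕ)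
    (a a' : ℕ) : 0 ≤ ogW E1 E2 s C1 K1 b y N T a a' := by
  unfold ogW
  have h1 := Er_nonneg C1 K1 b y
  have h3 := VT_nonneg y (insert a (insert a' T))
  positivity

lemma QW_nonneg {E1 E2 E3 : ℝ} (hE1 : 0 ≤ E1) (hE2 : 0 ≤ E2) (hE3 : 0 ≤ E3) (s : ℝ) (C1 K1 b y N : ℕ)
    (A T0 S : Finset ℕ) : 0 ≤ QW E1 E2 E3 s C1 K1 b y N A T0 S := by
  unfold QW
  have h1 : 0 ≤ ∑ a ∈ A \ S, dgW E3 C1 K1 b y N (T0 ∪ S) a :=
    sum_nonneg fun a _ => dgW_nonneg hE3 _ _ _ _ _ _ _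
  have h2 : 0 ≤ ∑ a ∈ A \ S, ∑ a' ∈ A \ (insert a S), ogW E1 E2 s C1 K1 b y N (T0 ∪ S) a a' :=
    sum_nonneg fun a _ => sum_nonneg fun a' _ => ogW_nonneg hE1 hE2 _ _ _ _ _ _ _ _ _
  positivity

/-- **the number of the bad sets of shifts** -/
theorem bad_leW {k C0 K0 C1 K1 b y N : ℕ} {κ ε₀ E1 E2 E3 s : ℝ} (hy : 2 ≤ y) (hN : 4 ≤ N)
    (hyκ : (y : ℝ) < (N : ℝ) ^ κ) (hε₀ : ε₀ ≤ 1 / 10) (hE1 : 0 ≤ E1) (hE2 : 0 ≤ E2) (hE3 : 0 ≤ E3)
    (hs : EE y N ≤ s) {W : Finset ℕ} (hW : W ⊆ FR N κ) (hOD : OD N y ε₀ E1 E2 W)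
    (hDG : DGP N y E3 W) (A T0 X0 : Finset ℕ) (hT0 : T0.Nonempty)
    (hAN : ∀ a ∈ A, (a : ℝ) ≤ N - (N : ℝ) ^ (1 / 2 : ℝ))
    (hpar : ∀ a ∈ A ∪ T0, ∀ t ∈ A ∪ T0, Even (a + t))
    (hdis : Disjoint T0 A) (hX0 : X0.card ≤ y)
    (hcnt : ∀ T : Finset ℕ, T.card ≤ T0.card + k + 2 → CntH C0 K0 b y T)
    (hFL : FLH (T0.card + k + 2) C1 K1 b y)
    (hKN : ((K1 * y ^ (2 * (C1 * b)) : ℕ) : ℝ) ≤ (N : ℝ) ^ ε₀)
    {e : ℕ → ℝ} (he : ∀ n, 0 ≤ e n ∧ e n ≤ 1) (heT : ∀ n ∈ Icc 1 N, n ∉ X0 → e n ≤ rT T0 y n)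
    {g : ℕ → ℝ} (hg : ∀ n, 0 ≤ g n ∧ g n ≤ ro y n) {x : ℝ} (hx : 0 < x)
    (hyM : (y : ℝ) * (4 ^ Nat.log y (2 * N) + EE y N) ≤ x / 2)
    (Bad : Finset (Finset ℕ))
    (hBad : ∀ D' ∈ Bad, D' ∈ A.powersetCard (k + 1) ∧ ¬ Good e g (ro y) (LF y W N) x D') :
    (Bad.card : ℝ) ≤ 2 ^ (k + 1) / x *
      (Real.sqrt (∑ S ∈ A.powersetCard k, PB2 C0 K0 b y N (T0 ∪ S)) *
        Real.sqrt (∑ S ∈ A.powersetCard k, QW E1 E2 E3 s C1 K1 b y N A T0 S)) := by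
  classical
  have hEE := (EE_pos y N).le
  have hN1 : (1 : ℝ) ≤ N := by exact_mod_cast (by omega : 1 ≤ N)
  have hg1 : ∀ n, 0 ≤ g n ∧ g n ≤ 1 := fun n => ⟨(hg n).1, (hg n).2.trans (ro_le_one y n)⟩
  have hWD : ∀ d ∈ W, 1 ≤ d ∧ d ≤ N := fun d hd =>
    ⟨(FR_facts (by omega) (hW hd)).1, (FR_facts (by omega) (hW hd)).2.1⟩
  have hSI : SI W ≤ s := (SI_le (by omega) hyκ hW).trans hs
  have hSI0 := SI_nonneg W
  have hmain := few_badS2 A (e := e) (g := g) (r := ro y)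
    (Z := LF y W N) (x := x) k
    (fun S => 2 / x * Real.sqrt (PB2 C0 K0 b y N (T0 ∪ S) * QW E1 E2 E3 s C1 K1 b y N A T0 S)) ?_
    Bad hBad
  · refine hmain.trans ?_
    have h1 : ∑ S ∈ A.powersetCard k,
        2 / x * Real.sqrt (PB2 C0 K0 b y N (T0 ∪ S) * QW E1 E2 E3 s C1 K1 b y N A T0 S) =
        2 / x * ∑ S ∈ A.powersetCard k,
          Real.sqrt (PB2 C0 K0 b y N (T0 ∪ S)) * Real.sqrt (QW E1 E2 E3 s C1 K1 b y N A T0 S) := by
      rw [mul_sum]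
      refine sum_congr rfl fun S _ => ?_
      rw [Real.sqrt_mul (PB2_nonneg _ _ _ _ _ _)]
    rw [h1]
    have h2 := Real.sum_sqrt_mul_sqrt_le (A.powersetCard k)
      (f := fun S => PB2 C0 K0 b y N (T0 ∪ S)) (g := fun S => QW E1 E2 E3 s C1 K1 b y N A T0 S)
      (fun S => PB2_nonneg _ _ _ _ _ _) (fun S => QW_nonneg hE1 hE2 hE3 _ _ _ _ _ _ _ _ _)
    have h3 : (2 : ℝ) ^ k * (2 / x * ∑ S ∈ A.powersetCard k,
        Real.sqrt (PB2 C0 K0 b y N (T0 ∪ S)) * Real.sqrt (QW E1 E2 E3 s C1 K1 b y N A T0 S)) =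
        2 ^ (k + 1) / x * ∑ S ∈ A.powersetCard k,
          Real.sqrt (PB2 C0 K0 b y N (T0 ∪ S)) *
            Real.sqrt (QW E1 E2 E3 s C1 K1 b y N A T0 S) := by
      rw [pow_succ]; ring
    rw [h3]
    exact mul_le_mul_of_nonneg_left h2 (by positivity)
  · intro S hS S1 hS1 B hB hbig
    rw [mem_powersetCard] at hS
    have hdS : Disjoint T0 S := hdis.mono_right hS.1
    have hpc : (T0 ∪ S).card ≤ T0.card + k := by
      refine (card_union_le _ _).trans ?_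
      rw [hS.2]
    have hA : ∀ a ∈ A \ S, a ∈ A := fun a ha => (mem_sdiff.1 ha).1
    have hTne : (T0 ∪ S).Nonempty := hT0.mono subset_union_left
    have hsubT : T0 ∪ S ⊆ A ∪ T0 := by
      intro t ht
      rcases mem_union.1 ht with h | h
      · exact mem_union_right _ h
      · exact mem_union_left _ (hS.1 h)
    obtain ⟨Ω, hΩ⟩ := exists_Om N (by omega)
    choose c hcb hcW hcf using exists_coW y N N hWD (WH e g (ro y) S S1)
    have hCo : ∀ a, Co y (c a) := fun a => Co_of (by omega) hyκ hW (hcb a) (hcW a)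
    have habs : ∀ a ∈ A, |((-(a : ℤ) : ℤ) : ℝ)| ≤ N - (N : ℝ) ^ (1 / 2 : ℝ) := by
      intro a ha
      push_cast
      rw [abs_neg, abs_of_nonneg (Nat.cast_nonneg a)]
      exact hAN a ha
    have hsq0 : 0 ≤ (N : ℝ) ^ (1 / 2 : ℝ) := by positivity
    have hAN' : ∀ a ∈ A, a ≤ N := by
      intro a ha
      have h1 : (a : ℝ) ≤ N := by
        have := hAN a ha
        linarith
      exact_mod_cast h1
    refine bessel2 (N := N) (y := y) (f := WH e g (ro y) S S1) (R := rT (T0 ∪ S) y)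
      (G := fun a n => GF y N (c a) (n + a)) (M0 := 4 ^ Nat.log y (2 * N) + EE y N) X0 hX0 hx
      (fun n => rT_nonneg _ _ _) (fun n => rT_sq _ _ _)
      (fun n => (WH_bd he hg1 (ro_bd y) S S1 n).1)
      (fun n => (WH_bd he hg1 (ro_bd y) S S1 n).2) (WH_le_rT he heT hg hS1 hdS) B ?_
      (fun a ha => by rw [hcf a]; exact hbig a ha) (by positivity) hyM ?_ ?_
    · -- the trivial bound
      intro a ha n hn1 hnN
      have haN := hAN' a (hA a (hB ha))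
      exact abs_GF_le (hCo a) hy (by omega) (by omega)
    · exact cnt_rT_le (hcnt (T0 ∪ S) (by omega)) N
    · -- the squares
      have hAe : ∀ a, (A \ S).erase a = A \ (insert a S) := by
        intro a
        ext t
        simp only [mem_erase, mem_sdiff, mem_insert, not_or]
        tauto
      have h := sqW (N := N) (y := y) (D := N) (by omega) hy hWD hΩ (T := T0 ∪ S)
        (A := A \ S) (B := B) hTne hB
        (fun a ha t ht => hpar a (mem_union_left _ (hA a ha)) t (hsubT ht)) c hcW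
        (dg := dgW E3 C1 K1 b y N (T0 ∪ S))
        (og := ogW E1 E2 s C1 K1 b y N (T0 ∪ S)) (fun a _ => dgW_nonneg hE3 _ _ _ _ _ _ _)
        (fun a _ a' _ => ogW_nonneg hE1 hE2 _ _ _ _ _ _ _ _ _) ?_ ?_
      · refine h.trans (le_of_eq ?_)
        unfold QW
        congr 2
        refine sum_congr rfl fun a _ => ?_
        rw [hAe]
      · intro a ha
        have hc1 : (insert a (T0 ∪ S)).card ≤ T0.card + k + 2 := by
          have := card_insert_le a (T0 ∪ S)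
          omega
        have hsubI : insert a (T0 ∪ S) ⊆ A ∪ T0 := by
          intro t ht
          rcases mem_insert.1 ht with h | h
          · rw [h]; exact mem_union_left _ (hA a ha)
          · exact hsubT h
        have h1 := hDG (-(a : ℤ)) (by have := habs a (hA a ha); linarith) (c a) (hcb a) (hcW a)
          (T0.card + k + 2) C1 K1 b hFL (hKN.trans (Real.rpow_le_rpow_of_exponent_le hN1 hε₀)) Ω hΩ
          (Po y) (RT (insert a (T0 ∪ S))) (hP_Po hc1)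
        refine h1.trans (le_of_eq ?_)
        unfold dgW
        rw [Vr_RT hy (insert_nonempty _ _) (fun t ht t' ht' => hpar t (hsubI ht) t' (hsubI ht'))]
      · intro a ha a' ha' hne
        have hc1 : (insert a (insert a' (T0 ∪ S))).card ≤ T0.card + k + 2 := by
          have h1 := card_insert_le a (insert a' (T0 ∪ S))
          have h2 := card_insert_le a' (T0 ∪ S)
          omega
        have hsubI : insert a (insert a' (T0 ∪ S)) ⊆ A ∪ T0 := by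
          intro t ht
          rcases mem_insert.1 ht with h | h
          · rw [h]; exact mem_union_left _ (hA a ha)
          · rcases mem_insert.1 h with h | h
            · rw [h]; exact mem_union_left _ (hA a' ha')
            · exact hsubT h
        have h1 := hOD (-(a : ℤ)) (-(a' : ℤ)) (habs a (hA a ha)) (habs a' (hA a' ha'))
          (by intro h2; apply hne; omega) (c a) (c a') (hcb a) (hcb a') (hcW a) (hcW a')
          (T0.card + k + 2) C1 K1 b hFL hKN Ω hΩ (Po y) (RT (insert a (insert a' (T0 ∪ S))))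
          (hP_Po hc1)
        refine h1.trans ?_
        unfold ogW
        rw [Vr_RT hy (insert_nonempty _ _) (fun t ht t' ht' => hpar t (hsubI ht) t' (hsubI ht'))]
        have hV := VT_nonneg y (insert a (insert a' (T0 ∪ S)))
        gcongr

end Pool.Agent.J4.H38.SR3
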