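import Mathlib
import Pool.Agent.J4.H38.SR3.Fx
import Pool.Agent.J4.H38.SR.Kuhn4

/-! Primes with shifts which have at most two prime factors, for almost all sets of shifts in a short
interval. -/

set_option autoImplicit false

namespace Pool.Agent.J4.H38.SR3

open Finset Filter
open Pool.Agent.Y822
open Pool.Agent.Y822.Low (step_lower')
open Pool.Agent.J4.H38.SR
open Pool.Agent.J4.H38.SR2
open Pool.Agent.H373R2.T7 (pz Vz mem_pz)
open Pool.Agent.H387R2.Uni (nuT Adm locT CT CT_nonneg)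

/-- not too close to `N` -/
def Lo (N d : ℕ) : Prop := (d : ℝ) ≤ N - (N : ℝ) ^ (1 / 2 : ℝ)

/-- averages of the local densities of the patterns -/
lemma sum_VT_pat (m : ℕ) : ∃ Cv : ℝ, 0 < Cv ∧ ∀ κ : ℝ, 0 < κ → ∀ L : ℝ, 0 < L → ∀ y : ℕ,
    2 * (m + 1) ^ 2 + 2 ≤ y → κ / 2 * L ≤ Real.log y → ∀ H : ℕ, ∀ A ⊆ Icc 1 H, ∀ j ≤ m,
    ∑ S ∈ A.powersetCard j, VT y ({0} ∪ S) ≤ Cv * (2 / κ) ^ (j + 1) * ((H : ℝ) ^ j / L ^ (j + 1)) := by
  choose Cf hCf hsum using sum_CT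
  refine ⟨∑ j ∈ range (m + 1), 2 * Cf j, ?_, ?_⟩
  · refine sum_pos (fun j _ => by have := hCf j; positivity) ⟨0, by simp⟩
  intro κ hκ L hL y hy hly H A hA j hj
  have hj' : 2 * Cf j ≤ ∑ j ∈ range (m + 1), 2 * Cf j :=
    single_le_sum (f := fun j => 2 * Cf j) (fun i _ => by have := hCf i; positivity)
      (mem_range.2 (by omega))
  have hκL : 0 < κ / 2 * L := by positivity
  have hly0 : 0 < Real.log y := lt_of_lt_of_le hκL hly
  have h1 : ∀ S ∈ A.powersetCard j, VT y ({0} ∪ S) ≤ 2 * CT (pat S) / (κ / 2 * L) ^ (j + 1) := by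
    intro S hS
    rw [mem_powersetCard] at hS
    have h0 : 0 ∉ S := fun h => by
      have := (mem_Icc.1 (hA (hS.1 h))).1
      omega
    have e : ({0} : Finset ℕ) ∪ S = pat S := rfl
    have hc : (pat S).card = j + 1 := by rw [card_pat h0, hS.2]
    rw [e]
    have h2 := VT_le y (m + 1) (pat S) (by omega) hy
    rw [hc] at h2
    refine h2.trans ?_
    have h3 : 0 ≤ 2 * CT (pat S) := mul_nonneg (by norm_num) (CT_nonneg _)
    exact div_le_div_of_nonneg_left h3 (by positivity) (pow_le_pow_left₀ hκL.le hly _)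
  calc ∑ S ∈ A.powersetCard j, VT y ({0} ∪ S)
      ≤ ∑ S ∈ A.powersetCard j, 2 * CT (pat S) / (κ / 2 * L) ^ (j + 1) := sum_le_sum h1
    _ ≤ ∑ S ∈ (Icc 1 H).powersetCard j, 2 * CT (pat S) / (κ / 2 * L) ^ (j + 1) := by
        refine sum_le_sum_of_subset_of_nonneg (powersetCard_mono hA) fun S _ _ => ?_
        have := CT_nonneg (pat S)
        positivity
    _ = 2 / (κ / 2 * L) ^ (j + 1) * ∑ S ∈ (Icc 1 H).powersetCard j, CT (pat S) := by
        rw [mul_sum]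
        refine sum_congr rfl fun S _ => ?_
        ring
    _ ≤ 2 / (κ / 2 * L) ^ (j + 1) * (Cf j * (H : ℝ) ^ j) :=
        mul_le_mul_of_nonneg_left (hsum j H) (by positivity)
    _ = (2 * Cf j) * ((2 / κ) ^ (j + 1) * ((H : ℝ) ^ j / L ^ (j + 1))) := by
        rw [mul_pow, div_pow κ, div_pow 2]
        field_simp
    _ ≤ (∑ j ∈ range (m + 1), 2 * Cf j) * ((2 / κ) ^ (j + 1) * ((H : ℝ) ^ j / L ^ (j + 1))) :=
        mul_le_mul_of_nonneg_right hj' (by positivity)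
    _ = _ := by ring

/-- **few sets of shifts are not good**, primes as base -/
theorem few_P (k : ℕ) {δ ε' κm : ℝ} (hδ : 0 < δ) (hε : 0 < ε') (hκm : 0 < κm) :
    ∃ κ Λ : ℝ, 0 < κ ∧ κ ≤ κm ∧ κ ≤ 1 / 25 ∧ 0 < Λ ∧ ∀ᶠ N : ℕ in atTop,
      ∀ y : ℕ, (y : ℝ) < (N : ℝ) ^ κ → (N : ℝ) ^ κ ≤ y + 1 →
      ∀ g : ℕ → ℝ, (∀ n, 0 ≤ g n ∧ g n ≤ ro y n) →
      ∀ H : ℕ, Λ * Real.log N ≤ H →
      ∀ Bad : Finset (Finset ℕ),
        (∀ D' ∈ Bad, D' ∈ (Icc 1 H).powersetCard (k + 1) ∧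
          (∀ d ∈ D', Even d ∧ Lo N d) ∧
          ¬ Good eP g (ro y) (LF y (FR N κ) N) (δ * (N / Real.log N ^ (k + 2))) D') →
        (Bad.card : ℝ) ≤ ε' * (H : ℝ) ^ (k + 1) := by
  classical
  obtain ⟨Cv, hCv, hVT⟩ := sum_VT_pat (k + 2)
  obtain ⟨κ, Λ, hκ, hκm', hκ25, hΛ, hfew⟩ := few_R k 1 hδ hε hκm hCv
  refine ⟨κ, Λ, hκ, hκm', hκ25, hΛ, ?_⟩
  obtain ⟨M, hM⟩ : ∃ M : ℕ, M = 2 * (k + 3) ^ 2 + 2 := ⟨_, rfl⟩
  filter_upwards [hfew, ev_logN (eventually_ge_atTop (max 1 ((M + 2) * (2 / κ)))),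
    eventually_ge_atTop 3] with N hfew hL1' hN3
  intro y hya hyb g hg H hH1 Bad hBad
  have hL1 : 1 ≤ Real.log N := (le_max_left _ _).trans hL1'
  have hLM : (M + 2) * (2 / κ) ≤ Real.log N := (le_max_right _ _).trans hL1'
  have hL0 : 0 < Real.log N := by linarith
  have hNκ := pow_exp (N := N) (by omega) κ
  have hya' : (y : ℝ) ≤ Real.exp (κ * Real.log N) := by rw [← hNκ]; exact hya.le
  have hyb' : Real.exp (κ * Real.log N) ≤ y + 1 := by rw [← hNκ]; exact hyb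
  have hML : (M : ℝ) + 2 ≤ κ / 2 * Real.log N := by
    have h1 : (M : ℝ) + 2 = κ / 2 * ((M + 2) * (2 / κ)) := by field_simp
    rw [h1]
    exact mul_le_mul_of_nonneg_left hLM (by positivity)
  obtain ⟨_, _, y3, y4, _, _⟩ := y_core (M := M) hκ (by omega : 1 ≤ N) hML hya' hyb'
  have hy2 : 2 ≤ y := by omega
  have h := hfew y hya hyb
    ((Icc 1 H).filter (fun d => Even d ∧ Lo N d)) {0} (Icc 1 y) (card_singleton 0)
    (singleton_nonempty 0) (by rw [Nat.card_Icc]; omega) ?_ ?_ ?_ eP eP_bd ?_ g hg H hH1 ?_ ?_ Bad ?_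
  · exact h
  · rw [disjoint_singleton_left, mem_filter, mem_Icc]
    omega
  · intro a ha
    exact (mem_filter.1 ha).2.2
  · intro a ha t ht
    have hev : ∀ a ∈ (Icc 1 H).filter (fun d => Even d ∧ Lo N d) ∪ {0},
        Even a := by
      intro a ha
      rcases mem_union.1 ha with h | h
      · exact (mem_filter.1 h).2.1
      · rw [mem_singleton.1 h]
        exact Even.zero
    exact (hev a ha).add (hev t ht)
  · intro n hn hn0
    rw [mem_Icc] at hn hn0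
    unfold rT eP ro
    rw [prod_singleton, add_zero]
    by_cases hp : n.Prime
    · rw [if_pos hp, if_pos]
      intro q hq hqy hqd
      have := (Nat.prime_dvd_prime_iff_eq hq hp).1 hqd
      omega
    · rw [if_neg hp]
      split_ifs <;> norm_num
  · refine (card_filter_le _ _).trans ?_
    rw [Nat.card_Icc]
    omega
  · intro j hj
    refine hVT κ hκ (Real.log N) hL0 y (by rw [show k + 2 + 1 = k + 3 by ring]; omega) y4 H _
      (filter_subset _ _) j hj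
  · intro D' hD'
    obtain ⟨b1, b2, b3⟩ := hBad D' hD'
    rw [mem_powersetCard] at b1
    refine ⟨mem_powersetCard.2 ⟨fun d hd => mem_filter.2 ⟨b1.1 hd, b2 d hd⟩, b1.2⟩, ?_⟩
    rw [show k + 1 + 1 = k + 2 by ring]
    exact b3

open Classical in
/-- the number of primes `p ≤ N` such that all `p + h`, `h ∈ H`, have at most two prime factors, all of
them at least `N ^ (1/7)` -/
noncomputable def pi2 (H : Finset ℕ) (N : ℕ) : ℕ :=
  ((Icc 1 N).filter (fun p => p.Prime ∧ ∀ h ∈ H, (p + h).primeFactorsList.length ≤ 2 ∧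
    ∀ q ∈ (p + h).primeFactors, (N : ℝ) ^ (1 / 7 : ℝ) ≤ q)).card

lemma WH_full_le2 (N y : ℕ) (H : Finset ℕ) :
    ∑ n ∈ Icc 1 N, WH eP (g2 N) (ro y) H H n ≤ pi2 H N := by
  classical
  unfold pi2
  rw [card_filter]
  push_cast
  refine sum_le_sum fun n _ => ?_
  unfold WH
  rw [sdiff_self, bot_eq_empty, prod_empty, mul_one]
  have p0 : 0 ≤ ∏ s ∈ H, g2 N (n + s) := prod_nonneg fun s _ => (g2_bd _ _).1
  have p1 : ∏ s ∈ H, g2 N (n + s) ≤ 1 := prod_le_one (fun s _ => (g2_bd _ _).1) fun s _ => (g2_bd _ _).2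
  by_cases h : n.Prime ∧ ∀ h ∈ H, (n + h).primeFactorsList.length ≤ 2 ∧
      ∀ q ∈ (n + h).primeFactors, (N : ℝ) ^ (1 / 7 : ℝ) ≤ q
  · rw [if_pos h]
    exact mul_le_one₀ (eP_bd n).2 p0 p1
  · rw [if_neg h]
    apply le_of_eq
    by_cases hp : n.Prime
    · have h2 : ¬ ∀ h ∈ H, (n + h).primeFactorsList.length ≤ 2 ∧
        ∀ q ∈ (n + h).primeFactors, (N : ℝ) ^ (1 / 7 : ℝ) ≤ q := fun h3 => h ⟨hp, h3⟩
      rw [not_forall] at h2
      obtain ⟨s, hs⟩ := h2
      rw [Classical.not_imp] at hs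
      rw [prod_eq_zero hs.1, mul_zero]
      unfold g2
      rw [if_neg]
      intro h4
      exact hs.2 h4.2
    · have h4 : eP n = 0 := by unfold eP; rw [if_neg hp]
      rw [h4, zero_mul]

/-- the elements of admissible patterns are even -/
lemma even_of_adm {D : Finset ℕ} (h : Adm (pat D)) : ∀ d ∈ D, Even d := by
  intro d hd
  by_contra hodd
  have h2 := h 2 Nat.prime_two
  have h3 : nuT (pat D) 2 = 2 := by
    apply le_antisymm
    · exact nuT_le_self _ 2 (by norm_num)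
    · unfold nuT
      have hsub : ({0, 1} : Finset ℕ) ⊆ (pat D).image (· % 2) := by
        intro r hr
        rw [mem_insert, mem_singleton] at hr
        rw [mem_image]
        rcases hr with rfl | rfl
        · exact ⟨0, mem_insert_self _ _, rfl⟩
        · refine ⟨d, mem_insert_of_mem hd, ?_⟩
          rw [Nat.even_iff] at hodd
          show d % 2 = 1
          omega
      have := card_le_card hsub
      simpa using this
  omega

/-- few sets of shifts contain an element close to `N` -/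
lemma few_top (k : ℕ) {ε : ℝ} (hε : 0 < ε) : ∀ᶠ N : ℕ in atTop, ∀ H : ℕ, H ≤ N →
    ∀ Bad : Finset (Finset ℕ), (∀ D ∈ Bad, D ∈ (Icc 1 H).powersetCard (k + 1) ∧
      ∃ d ∈ D, ¬ Lo N d) → (Bad.card : ℝ) ≤ ε * (H : ℝ) ^ (k + 1) := by
  classical
  have h1 : Tendsto (fun N : ℕ => (N : ℝ) ^ (1 / 2 : ℝ)) atTop atTop :=
    (tendsto_rpow_atTop (by norm_num)).comp tendsto_natCast_atTop_atTop
  filter_upwards [h1.eventually_ge_atTop (max 2 (4 / ε)), eventually_ge_atTop 4] with N hN hN4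
  intro H hH Bad hBad
  set s : ℝ := (N : ℝ) ^ (1 / 2 : ℝ) with hs
  have hs2 : 2 ≤ s := (le_max_left _ _).trans hN
  have hsε : 4 / ε ≤ s := (le_max_right _ _).trans hN
  have hN0 : (0 : ℝ) < N := by positivity
  have hss : s * s = N := by
    rw [hs, ← Real.rpow_add hN0]
    norm_num
  rcases Bad.eq_empty_or_nonempty with rfl | ⟨D0, hD0⟩
  · simp only [card_empty, Nat.cast_zero]
    positivity
  obtain ⟨b1, d0, hd0, hd1⟩ := hBad D0 hD0
  unfold Lo at hd1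
  push Not at hd1
  have hH0 : (N : ℝ) ≤ 2 * H := by
    have h2 : (d0 : ℝ) ≤ H := by exact_mod_cast (mem_Icc.1 ((mem_powersetCard.1 b1).1 hd0)).2
    nlinarith
  obtain ⟨m, hm⟩ : ∃ m : ℕ, m = ⌈s⌉₊ := ⟨_, rfl⟩
  have hms : (m : ℝ) ≤ 2 * s := by
    have := Nat.ceil_lt_add_one (by linarith : 0 ≤ s)
    rw [← hm] at this
    linarith
  have hsub : Bad ⊆ ((Ioc (N - m) N) ×ˢ ((Icc 1 H).powersetCard k)).image (fun q => insert q.1 q.2) := by
    intro D hD
    obtain ⟨b1, d, hd, hd1⟩ := hBad D hD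
    rw [mem_powersetCard] at b1
    unfold Lo at hd1
    push Not at hd1
    rw [mem_image]
    refine ⟨(d, D.erase d), ?_, insert_erase hd⟩
    rw [mem_product, mem_Ioc, mem_powersetCard, card_erase_of_mem hd, b1.2]
    have h2 := mem_Icc.1 (b1.1 hd)
    have h3 : (N : ℝ) < d + m := by
      have := Nat.le_ceil s
      rw [← hm] at this
      linarith
    have h4 : N < d + m := by exact_mod_cast h3
    refine ⟨?_, (erase_subset _ _).trans b1.1, by omega⟩
    show N - m < d ∧ d ≤ N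
    omega
  have hc : Bad.card ≤ m * H ^ k := by
    refine (card_le_card hsub).trans (card_image_le.trans ?_)
    rw [card_product, Nat.card_Ioc, card_powersetCard, Nat.card_Icc, Nat.add_sub_cancel]
    exact Nat.mul_le_mul (by omega) (Nat.choose_le_pow H k)
  have hH0' : (0 : ℝ) ≤ H := Nat.cast_nonneg _
  calc (Bad.card : ℝ) ≤ m * (H : ℝ) ^ k := by exact_mod_cast hc
    _ ≤ (ε * H) * (H : ℝ) ^ k := by
        refine mul_le_mul_of_nonneg_right ?_ (by positivity)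
        rw [div_le_iff₀ hε] at hsε
        have h5 : 4 * s ≤ ε * N := by
          rw [← hss]
          nlinarith
        nlinarith
    _ = _ := by ring

/-- **almost prime tuples** for almost all sets of shifts -/
theorem almost2 : ∃ c : ℝ, 0 < c ∧ ∀ (k : ℕ) (ε : ℝ), 0 < ε → ∃ Λ : ℝ, 0 < Λ ∧ ∀ᶠ N : ℕ in atTop,
    ∀ H : ℕ, Λ * Real.log N ≤ H → H ≤ N → ∀ Bad : Finset (Finset ℕ),
    (∀ D ∈ Bad, D ∈ (Icc 1 H).powersetCard (k + 1) ∧ Adm (pat D) ∧
      (pi2 D N : ℝ) < c ^ (k + 1) * CT (pat D) * (N / Real.log N ^ (k + 2))) →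
    (Bad.card : ℝ) ≤ ε * (H : ℝ) ^ (k + 1) := by
  classical
  obtain ⟨c₀', hc₀', STEP⟩ := stepR
  obtain ⟨cz, hcz, VZ⟩ := Vz_sharp
  obtain ⟨c₀, hc₀d⟩ : ∃ c₀ : ℝ, c₀ = min c₀' 1 := ⟨_, rfl⟩
  have hc₀ : 0 < c₀ := by rw [hc₀d]; exact lt_min hc₀' one_pos
  have hc₀1 : c₀ ≤ 1 := by rw [hc₀d]; exact min_le_right _ _
  have hc₀2 : c₀ ≤ c₀' := by rw [hc₀d]; exact min_le_left _ _
  refine ⟨c₀ * cz / 8, by positivity, fun k ε hε => ?_⟩
  obtain ⟨cs, hcs⟩ : ∃ cs : ℝ, cs = c₀ * cz := ⟨_, rfl⟩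
  have hcs0 : 0 < cs := by rw [hcs]; positivity
  obtain ⟨cp, hcp, hlow⟩ := Pool.Agent.Y822.PT_low (k + 1)
  obtain ⟨τ, hτ⟩ : ∃ τ : ℝ, τ = 1 / 16 * cs ^ (k + 1) * cp := ⟨_, rfl⟩
  have hτ0 : 0 < τ := by rw [hτ]; positivity
  obtain ⟨δ, hδ⟩ : ∃ δ : ℝ, δ = τ / (4 * (k + 1)) := ⟨_, rfl⟩
  have hδ0 : 0 < δ := by rw [hδ]; positivity
  obtain ⟨K, hK, hm0⟩ := main0K (k + 1) (1 / 2) (by norm_num) (by norm_num)
  obtain ⟨x0, hm0⟩ := hm0 (k + 3)
  have hK0 : (0 : ℝ) < K := by exact_mod_cast (by omega : 0 < K)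
  obtain ⟨κ, Λ, hκ, hκK, hκ25, hΛ, hfew⟩ := few_P k (δ := δ) (ε' := ε / 2)
    (κm := 1 / K) hδ0 (by linarith) (by positivity)
  obtain ⟨N₁, STEP⟩ := STEP κ hκ hκ25
  obtain ⟨M, hM⟩ : ∃ M : ℕ, M = 4 * (k + 2) ^ 3 * (⌈2 / κ⌉₊ + 1) + (x0 + 3) := ⟨_, rfl⟩
  refine ⟨Λ, hΛ, ?_⟩
  filter_upwards [hm0, hfew, ev_logN (eventually_ge_atTop (max 1 ((M + 2) * (2 / κ)))),
    ev_small (k + 2) (by norm_num : (0 : ℝ) < 1 / 7) 12 hδ0,
    ev_logN (eventually_ge_atTop (1 / τ)), eventually_ge_atTop (max N₁ 3),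
    few_top k (by linarith : 0 < ε / 2)]
    with N hm hfew hL1' hs8 hLτ hN htop
  intro H hH1 hHN Bad hBad
  have hNN₁ : N₁ ≤ N := (le_max_left _ _).trans hN
  have hN3 : 3 ≤ N := (le_max_right _ _).trans hN
  have hN2 : 2 ≤ N := by omega
  set L := Real.log N with hLd
  have hL1 : 1 ≤ L := (le_max_left _ _).trans hL1'
  have hLM : (M + 2) * (2 / κ) ≤ L := (le_max_right _ _).trans hL1'
  have hL0 : 0 < L := by linarith
  have hN0 : (0 : ℝ) < N := by positivity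
  have hNe : (N : ℝ) = Real.exp L := by rw [hLd, Real.exp_log hN0]
  have hrp : ∀ s : ℝ, (N : ℝ) ^ s = Real.exp (s * L) := by
    intro s
    rw [Real.rpow_def_of_pos hN0, ← hLd, mul_comm]
  -- the sifting limit
  obtain ⟨y, hy⟩ : ∃ y : ℕ, y + 1 = ⌈(N : ℝ) ^ κ⌉₊ := by
    have : 0 < ⌈(N : ℝ) ^ κ⌉₊ := Nat.ceil_pos.2 (by positivity)
    exact ⟨⌈(N : ℝ) ^ κ⌉₊ - 1, by omega⟩
  have hya : (y : ℝ) < (N : ℝ) ^ κ := Nat.lt_ceil.1 (by omega)
  have hyb : (N : ℝ) ^ κ ≤ y + 1 := by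
    have := Nat.le_ceil ((N : ℝ) ^ κ)
    rw [← hy] at this
    exact_mod_cast this
  have hya' : (y : ℝ) ≤ Real.exp (κ * L) := by rw [← hrp]; exact hya.le
  have hyb' : Real.exp (κ * L) ≤ y + 1 := by rw [← hrp]; exact hyb
  have hML : (M : ℝ) + 2 ≤ κ / 2 * L := by
    have h1 : (M : ℝ) + 2 = κ / 2 * ((M + 2) * (2 / κ)) := by field_simp
    rw [h1]
    exact mul_le_mul_of_nonneg_left hLM (by positivity)
  obtain ⟨_, _, y3, y4, _, y6⟩ := y_core (M := M) hκ (by omega : 1 ≤ N) hML hya' hyb'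
  have hyx0 : x0 ≤ y := by omega
  have hy3 : 3 ≤ y := by omega
  have hy0 : (0 : ℝ) < y := by positivity
  have hyK : y ^ K ≤ N := by
    have h1 : ((y : ℝ)) ^ K ≤ N := by
      calc ((y : ℝ)) ^ K ≤ (Real.exp (κ * L)) ^ K := pow_le_pow_left₀ (Nat.cast_nonneg _) hya' K
        _ = Real.exp (κ * K * L) := by rw [← Real.exp_nat_mul]; ring_nf
        _ ≤ Real.exp L := by
            apply Real.exp_le_exp.2
            have : κ * K ≤ 1 := by
              rw [le_div_iff₀ hK0] at hκK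
              exact hκK
            nlinarith
        _ = N := hNe.symm
    exact_mod_cast h1
  -- the factor of one step
  obtain ⟨u, hu⟩ : ∃ u : ℝ, u = c₀ * κ := ⟨_, rfl⟩
  have hu0 : 0 ≤ u := by rw [hu]; positivity
  have hu1 : u ≤ 1 := by rw [hu]; exact mul_le_one₀ hc₀1 hκ.le (by linarith)
  have hVz0 : 0 ≤ Vz y := by
    unfold Vz
    refine prod_nonneg fun p hp => ?_
    have hp1 : (1 : ℝ) ≤ p := by exact_mod_cast (mem_pz.1 hp).2.one_lt.le
    have : 1 / (p : ℝ) ≤ 1 := by rw [div_le_one (by linarith)]; exact hp1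
    linarith
  have hly : 0 < Real.log y := Real.log_pos (by exact_mod_cast (by omega : 1 < y))
  have hlyu : Real.log y ≤ κ * L := by
    rw [← Real.log_exp (κ * L)]
    exact Real.log_le_log hy0 hya'
  have huV : cs / L ≤ u * Vz y := by
    have t5 : cz / (κ * L) ≤ Vz y := (div_le_div_of_nonneg_left hcz.le hly hlyu).trans (VZ y hy3)
    calc cs / L = u * (cz / (κ * L)) := by rw [hcs, hu]; field_simp
      _ ≤ u * Vz y := mul_le_mul_of_nonneg_left t5 hu0
  -- the error of one step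
  obtain ⟨X, hX⟩ : ∃ X : ℝ, X = N / L ^ (k + 2) := ⟨_, rfl⟩
  have hX0 : 0 < X := by rw [hX]; positivity
  have h78 : 12 * (N : ℝ) ^ (6 / 7 : ℝ) ≤ δ * X := by
    rw [hrp, hX]
    have e : (6 / 7 : ℝ) * L = (1 - 1 / 7) * L := by ring
    rw [e]
    exact hs8
  have hx0 : 0 ≤ 4 * δ * X := by positivity
  have hsplit := card_filter_add_card_filter_not (s := Bad) (fun D => ∀ d ∈ D, Lo N d)
  have hB2 := htop H hHN (Bad.filter (fun D => ¬ ∀ d ∈ D, Lo N d)) (by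
    intro D hD
    rw [mem_filter] at hD
    have h1 := hD.2
    push Not at h1
    obtain ⟨d, hd, h2⟩ := h1
    exact ⟨(hBad D hD.1).1, d, hd, h2⟩)
  suffices hB1 : ((Bad.filter (fun D => ∀ d ∈ D, Lo N d)).card : ℝ) ≤
      ε / 2 * (H : ℝ) ^ (k + 1) by
    have h3 : (Bad.card : ℝ) = ((Bad.filter (fun D => ∀ d ∈ D, Lo N d)).card : ℝ) +
        ((Bad.filter (fun D => ¬ ∀ d ∈ D, Lo N d)).card : ℝ) := by
      exact_mod_cast hsplit.symm
    rw [h3]
    linarith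
  refine hfew y hya hyb (g2 N) ?_ H hH1 _ ?_
  · intro n
    refine ⟨(g2_bd N n).1, g2_le_ro ?_ n⟩
    refine hya.trans_le (Real.rpow_le_rpow_of_exponent_le (by exact_mod_cast (by omega : 1 ≤ N)) ?_)
    linarith
  · intro D hD
    rw [mem_filter] at hD
    obtain ⟨b1, b2, b3⟩ := hBad D hD.1
    refine ⟨b1, fun d hd => ⟨even_of_adm b2 d hd, hD.2 d hd⟩, fun hg => ?_⟩
    rw [mem_powersetCard] at b1
    have h0 : 0 ∉ D := fun h => by
      have := (mem_Icc.1 (b1.1 h)).1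
      omega
    have hDN : ∀ h ∈ D, h ≤ N := fun h hh => ((mem_Icc.1 (b1.1 hh)).2).trans hHN
    obtain ⟨c1, c2⟩ := hlow (pat D) (by rw [card_pat h0, b1.2]) b2
    have hCP : CT (pat D) ≤ 2 * PT (pat D) y := by
      have g1 := CT_up (pat D) (2 * N) y (fun t ht => by
        unfold pat at ht
        rw [mem_insert] at ht
        rcases ht with rfl | ht
        · omega
        · have := hDN t ht
          omega) (by omega)
      rw [card_pat h0, b1.2] at g1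
      refine g1.trans (mul_le_mul_of_nonneg_right ?_ (PT_nonneg _ _))
      have g6 : 2 * (((k + 1 + 1 : ℕ) : ℝ)) ^ 3 * (Nat.log y (2 * N)) / y ≤ 1 / 2 := by
        rw [div_le_div_iff₀ hy0 (by norm_num)]
        have g7 : 4 * (k + 2) ^ 3 * Nat.log y (2 * N) ≤ y := by
          refine le_trans ?_ y3
          rw [hM]
          exact (Nat.mul_le_mul_left _ y6).trans (Nat.le_add_right _ _)
        have g8 : (4 * ((k : ℝ) + 2) ^ 3 * Nat.log y (2 * N)) ≤ y := by exact_mod_cast g7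
        have g9 : (((k + 1 + 1 : ℕ) : ℝ)) ^ 3 = ((k : ℝ) + 2) ^ 3 := by push_cast; ring
        rw [g9]
        linarith
      calc Real.exp (2 * (((k + 1 + 1 : ℕ) : ℝ)) ^ 3 * (Nat.log y (2 * N)) / y) ≤ Real.exp (1 / 2) :=
            Real.exp_le_exp.2 g6
        _ ≤ 2 := by
            have h6 : Real.exp (1 / 2) * Real.exp (-(1 / 2)) = 1 := by
              rw [← Real.exp_add]; norm_num
            have h7 := Real.exp_pos (1 / 2)
            have h8 : 1 / 2 ≤ Real.exp (-(1 / 2)) := by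
              have := Real.add_one_le_exp (-(1 / 2) : ℝ)
              linarith
            nlinarith
    -- one step
    have hZ : ∀ t ∈ D, ∀ S1 ⊆ D.erase t,
        u * ∑ n ∈ Icc 1 N, WH eP (g2 N) (ro y) (D.erase t) S1 n * ro y (n + t) - 4 * δ * X ≤
          ∑ n ∈ Icc 1 N, WH eP (g2 N) (ro y) (D.erase t) S1 n * g2 N (n + t) := by
      intro t ht S1 hS1
      set f := WH eP (g2 N) (ro y) (D.erase t) S1 with hf
      have hf01 : ∀ n, 0 ≤ f n ∧ f n ≤ 1 := WH_bd eP_bd (g2_bd N) (ro_bd y) _ _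
      have hgood := hg t ht S1 hS1
      rw [← hf, ← hX] at hgood
      have hs := STEP N hNN₁ y hyb f (fun n => (hf01 n).1) (fun n => (hf01 n).2) t (hDN t ht)
      have hW0 : 0 ≤ ∑ n ∈ Icc 1 N, f n * ro y (n + t) :=
        sum_nonneg fun n _ => mul_nonneg (hf01 n).1 (ro_nonneg _ _)
      have h5 : u * ∑ n ∈ Icc 1 N, f n * ro y (n + t) ≤
          c₀' * κ * ∑ n ∈ Icc 1 N, f n * ro y (n + t) := by
        rw [hu]
        exact mul_le_mul_of_nonneg_right (mul_le_mul_of_nonneg_right hc₀2 hκ.le) hW0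
      linarith
    have hlower := step_lower' (H := D) hx0 hu0 hu1 hZ D (subset_refl _)
    rw [b1.2] at hlower
    have hmain := (abs_le.1 (hm y hyx0 hyK (g2 N) D h0 b1.2)).1
    have hfull := WH_full_le2 N y D
    have hfin := low_calcK (k := k) (cs := cs) (cp := cp) (L := L) (n := N) (u := u) (V := Vz y)
      (PTy := PT (pat D) y) (W := ∑ n ∈ Icc 1 N, WH eP (g2 N) (ro y) D ∅ n) (e := N / L ^ (k + 3))
      (x := 4 * δ * X) (CTy := CT (pat D))
      (P := pi2 D N) hcs0 hcp hL1 hN0 hu0 hu1 hVz0 huV (PT_nonneg _ _) c2 hCP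
      (by linarith) (by positivity) ?_ ?_ (by push_cast at hlower; linarith)
    · rw [hcs] at hfin
      linarith
    · rw [← hτ]
      have h1 : (N : ℝ) / L ^ (k + 3) = 1 / L * (N / L ^ (k + 2)) := by
        rw [pow_succ L (k + 2)]
        field_simp
      rw [h1]
      refine mul_le_mul_of_nonneg_right ?_ (by positivity)
      rw [div_le_iff₀ hL0]
      rw [div_le_iff₀ hτ0] at hLτ
      linarith
    · rw [← hτ, ← hX, hδ]
      apply le_of_eq
      field_simp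

end Pool.Agent.J4.H38.SR3
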