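import Mathlib
import Pool.Agent.J4.H38.SR3.Alm
import Pool.Agent.J4.H38.SR2.Gold2

/-! Primes `N - n` with shifts `n + d` having at most two prime factors, for every `N` and almost all sets of
shifts in a short interval. -/

set_option autoImplicit false

namespace Pool.Agent.J4.H38.SR3

open Finset Filter
open Pool.Agent.Y822
open Pool.Agent.Y822.Low (step_lower')
open Pool.Agent.J4.H38.SR
open Pool.Agent.J4.H38.SR2
open Pool.Agent.H387R2.Uni (nuT Adm locT CT CT_nonneg)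
open Pool.Agent.H373R2.T7 (pz Vz mem_pz rhoA PerA lam_fund)

open Classical in
/-- the number of the positive integers `n` such that `N - n` is prime and all `n + d`, `d ∈ D`, have at most
two prime factors, all of them at least `N ^ (1/7)` -/
noncomputable def pi2G (D : Finset ℕ) (N : ℕ) : ℕ :=
  ((Icc 1 N).filter (fun n => (N - n).Prime ∧ ∀ d ∈ D, (n + d).primeFactorsList.length ≤ 2 ∧
    ∀ q ∈ (n + d).primeFactors, (N : ℝ) ^ (1 / 7 : ℝ) ≤ q)).card

lemma WH_full_leG2 (N y : ℕ) (H : Finset ℕ) :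
    ∑ n ∈ Icc 1 N, WH (eG N) (g2 N) (ro y) H H n ≤ pi2G H N := by
  classical
  unfold pi2G
  rw [card_filter]
  push_cast
  refine sum_le_sum fun n _ => ?_
  unfold WH
  rw [sdiff_self, bot_eq_empty, prod_empty, mul_one]
  have p0 : 0 ≤ ∏ s ∈ H, g2 N (n + s) := prod_nonneg fun s _ => (g2_bd _ _).1
  have p1 : ∏ s ∈ H, g2 N (n + s) ≤ 1 := prod_le_one (fun s _ => (g2_bd _ _).1) fun s _ => (g2_bd _ _).2
  by_cases h : (N - n).Prime ∧ ∀ h ∈ H, (n + h).primeFactorsList.length ≤ 2 ∧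
      ∀ q ∈ (n + h).primeFactors, (N : ℝ) ^ (1 / 7 : ℝ) ≤ q
  · rw [if_pos h]
    exact mul_le_one₀ (eG_bd N n).2 p0 p1
  · rw [if_neg h]
    apply le_of_eq
    by_cases hp : (N - n).Prime
    · have h2 : ¬ ∀ h ∈ H, (n + h).primeFactorsList.length ≤ 2 ∧
        ∀ q ∈ (n + h).primeFactors, (N : ℝ) ^ (1 / 7 : ℝ) ≤ q := fun h3 => h ⟨hp, h3⟩
      rw [not_forall] at h2
      obtain ⟨s, hs⟩ := h2
      rw [Classical.not_imp] at hs
      rw [prod_eq_zero hs.1, mul_zero]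
      unfold g2
      rw [if_neg]
      intro h4
      exact hs.2 h4.2
    · have h4 : eG N n = 0 := by unfold eG; rw [if_neg hp]
      rw [h4, zero_mul]

/-- **almost prime tuples** for every `N` and almost all sets of shifts -/
theorem almostG2 : ∃ c : ℝ, 0 < c ∧ ∀ (k : ℕ) (ε : ℝ), 0 < ε → ∃ Λ : ℝ, 0 < Λ ∧ ∀ᶠ N : ℕ in atTop,
    ∀ H : ℕ, Λ * Real.log N ≤ H → H ≤ N → ∀ Bad : Finset (Finset ℕ),
    (∀ D ∈ Bad, D ∈ (Icc 1 H).powersetCard (k + 1) ∧ Adm (pat (sh N D)) ∧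
      (pi2G D N : ℝ) < c ^ (k + 1) * CT (pat (sh N D)) * (N / Real.log N ^ (k + 2))) →
    (Bad.card : ℝ) ≤ ε * (H : ℝ) ^ (k + 1) := by
  classical
  obtain ⟨c₀', hc₀', STEP⟩ := stepR
  obtain ⟨cz, hcz, VZ⟩ := Vz_sharp
  obtain ⟨c₀, hc₀d⟩ : ∃ c₀ : ℝ, c₀ = min c₀' 1 := ⟨_, rfl⟩
  have hc₀ : 0 < c₀ := by rw [hc₀d]; exact lt_min hc₀' one_pos
  have hc₀1 : c₀ ≤ 1 := by rw [hc₀d]; exact min_le_right _ _
  have hc₀2 : c₀ ≤ c₀' := by rw [hc₀d]; exact min_le_left _ _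
  refine ⟨c₀ * cz / 8, by positivity, fun k ε hε => ?_⟩
  obtain ⟨cs, hcs⟩ : ∃ cs : ℝ, cs = c₀ * cz := ⟨_, rfl⟩
  have hcs0 : 0 < cs := by rw [hcs]; positivity
  obtain ⟨cp, hcp, hlow⟩ := Pool.Agent.Y822.PT_low (k + 1)
  obtain ⟨τ, hτ⟩ : ∃ τ : ℝ, τ = 1 / 16 * cs ^ (k + 1) * cp := ⟨_, rfl⟩
  have hτ0 : 0 < τ := by rw [hτ]; positivity
  obtain ⟨δ, hδ⟩ : ∃ δ : ℝ, δ = τ / (4 * (k + 1)) := ⟨_, rfl⟩
  have hδ0 : 0 < δ := by rw [hδ]; positivity
  obtain ⟨K, hK, hm0⟩ := main0G (k + 1)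
  obtain ⟨x0, hm0⟩ := hm0 (k + 4)
  have hK0 : (0 : ℝ) < K := by exact_mod_cast (by omega : 0 < K)
  choose Cj hCj havg using avgG
  obtain ⟨Cv, hCv⟩ : ∃ Cv : ℝ, Cv = ∑ j ∈ range (k + 3), Cj j := ⟨_, rfl⟩
  have hCv1 : ∀ j ≤ k + 2, Cj j ≤ Cv := fun j hj => by
    rw [hCv]
    exact single_le_sum (f := Cj) (fun i _ => (hCj i).le) (mem_range.2 (by omega))
  have hCv0 : 0 < Cv := lt_of_lt_of_le (hCj 0) (hCv1 0 (by omega))
  obtain ⟨κ, Λ, hκ, hκK, hκ25, hΛ, hfew⟩ := few_R k 1 (δ := δ)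
    (ε' := ε / 2) (κm := 1 / K) (Cv := Cv) hδ0 (by linarith) (by positivity) hCv0
  obtain ⟨N₁, STEP⟩ := STEP κ hκ hκ25
  obtain ⟨M, hM⟩ : ∃ M : ℕ, M = 4 * (k + 2) ^ 3 * (⌈2 / κ⌉₊ + 1) + (x0 + 3) + (2 * (k + 2) ^ 2 + 2) :=
    ⟨_, rfl⟩
  refine ⟨max Λ 1, lt_max_of_lt_right one_pos, ?_⟩
  filter_upwards [hm0, hfew, ev_logN (eventually_ge_atTop (max 3 ((M + 2) * (2 / κ)))),
    ev_small (k + 2) (by norm_num : (0 : ℝ) < 1 / 7) 12 hδ0,
    ev_logN (eventually_ge_atTop (1 / τ)), eventually_ge_atTop (max N₁ 3),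
    ev_small (k + 4) (by norm_num : (0 : ℝ) < 1) 1 one_pos,
    few_top k (by linarith : 0 < ε / 2)]
    with N hm hfew hL1' hs8 hLτ hN hs1 htop
  intro H hH1' hHN Bad hBad
  have hNN₁ : N₁ ≤ N := (le_max_left _ _).trans hN
  have hN3 : 3 ≤ N := (le_max_right _ _).trans hN
  have hN2 : 2 ≤ N := by omega
  set L := Real.log N with hLd
  have hL3 : 3 ≤ L := (le_max_left _ _).trans hL1'
  have hL1 : 1 ≤ L := by linarith
  have hLM : (M + 2) * (2 / κ) ≤ L := (le_max_right _ _).trans hL1'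
  have hL0 : 0 < L := by linarith
  have hH1 : Λ * L ≤ H := (mul_le_mul_of_nonneg_right (le_max_left _ _) hL0.le).trans hH1'
  have hHL : L ≤ H := by
    have := (mul_le_mul_of_nonneg_right (le_max_right Λ 1) hL0.le).trans hH1'
    linarith
  have hH3 : 3 ≤ H := by exact_mod_cast hL3.trans hHL
  have hN0 : (0 : ℝ) < N := by positivity
  have hNe : (N : ℝ) = Real.exp L := by rw [hLd, Real.exp_log hN0]
  have hrp : ∀ s : ℝ, (N : ℝ) ^ s = Real.exp (s * L) := by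
    intro s
    rw [Real.rpow_def_of_pos hN0, ← hLd, mul_comm]
  -- the sifting limit
  obtain ⟨y, hy⟩ : ∃ y : ℕ, y + 1 = ⌈(N : ℝ) ^ κ⌉₊ := by
    have : 0 < ⌈(N : ℝ) ^ κ⌉₊ := Nat.ceil_pos.2 (by positivity)
    exact ⟨⌈(N : ℝ) ^ κ⌉₊ - 1, by omega⟩
  have hya : (y : ℝ) < (N : ℝ) ^ κ := Nat.lt_ceil.1 (by omega)
  have hyb : (N : ℝ) ^ κ ≤ y + 1 := by
    have := Nat.le_ceil ((N : ℝ) ^ κ)
    rw [← hy] at this
    exact_mod_cast this
  have hya' : (y : ℝ) ≤ Real.exp (κ * L) := by rw [← hrp]; exact hya.le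
  have hyb' : Real.exp (κ * L) ≤ y + 1 := by rw [← hrp]; exact hyb
  have hML : (M : ℝ) + 2 ≤ κ / 2 * L := by
    have h1 : (M : ℝ) + 2 = κ / 2 * ((M + 2) * (2 / κ)) := by field_simp
    rw [h1]
    exact mul_le_mul_of_nonneg_left hLM (by positivity)
  obtain ⟨_, _, y3, y4, _, y6⟩ := y_core (M := M) hκ (by omega : 1 ≤ N) hML hya' hyb'
  have hyx0 : x0 ≤ y := by omega
  have hy3 : 3 ≤ y := by omega
  have hy0 : (0 : ℝ) < y := by positivity
  have hyK : y ^ K ≤ N := by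
    have h1 : ((y : ℝ)) ^ K ≤ N := by
      calc ((y : ℝ)) ^ K ≤ (Real.exp (κ * L)) ^ K := pow_le_pow_left₀ (Nat.cast_nonneg _) hya' K
        _ = Real.exp (κ * K * L) := by rw [← Real.exp_nat_mul]; ring_nf
        _ ≤ Real.exp L := by
            apply Real.exp_le_exp.2
            have : κ * K ≤ 1 := by
              rw [le_div_iff₀ hK0] at hκK
              exact hκK
            nlinarith
        _ = N := hNe.symm
    exact_mod_cast h1
  -- the factor of one step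
  obtain ⟨u, hu⟩ : ∃ u : ℝ, u = c₀ * κ := ⟨_, rfl⟩
  have hu0 : 0 ≤ u := by rw [hu]; positivity
  have hu1 : u ≤ 1 := by rw [hu]; exact mul_le_one₀ hc₀1 hκ.le (by linarith)
  have hVz0 : 0 ≤ Vz y := (Vz_pos' y).le
  have hly : 0 < Real.log y := Real.log_pos (by exact_mod_cast (by omega : 1 < y))
  have hlyu : Real.log y ≤ κ * L := by
    rw [← Real.log_exp (κ * L)]
    exact Real.log_le_log hy0 hya'
  have huV : cs / L ≤ u * Vz y := by
    have t5 : cz / (κ * L) ≤ Vz y := (div_le_div_of_nonneg_left hcz.le hly hlyu).trans (VZ y hy3)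
    calc cs / L = u * (cz / (κ * L)) := by rw [hcs, hu]; field_simp
      _ ≤ u * Vz y := mul_le_mul_of_nonneg_left t5 hu0
  -- the error of one step
  obtain ⟨X, hX⟩ : ∃ X : ℝ, X = N / L ^ (k + 2) := ⟨_, rfl⟩
  have hX0 : 0 < X := by rw [hX]; positivity
  have h78 : 12 * (N : ℝ) ^ (6 / 7 : ℝ) ≤ δ * X := by
    rw [hrp, hX]
    have e : (6 / 7 : ℝ) * L = (1 - 1 / 7) * L := by ring
    rw [e]
    exact hs8
  have hx0 : 0 ≤ 4 * δ * X := by positivity
  -- the base point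
  obtain ⟨b, hb, hHb⟩ := base_exists N y H hHN
  obtain ⟨A, hA⟩ : ∃ A : Finset ℕ, A = (Icc 1 H).filter (fun d => Even (d + N) ∧ Lo N d) := ⟨_, rfl⟩
  have hAm : ∀ d, d ∈ A ↔ (1 ≤ d ∧ d ≤ H) ∧ Even (d + N) ∧ Lo N d := by
    intro d
    rw [hA, mem_filter, mem_Icc]
  have hAsub : A ⊆ Icc 1 H := fun d hd => mem_Icc.2 ((hAm d).1 hd).1
  have hsplit := card_filter_add_card_filter_not (s := Bad) (fun D => ∀ d ∈ D, Lo N d)
  have hB2 := htop H hHN (Bad.filter (fun D => ¬ ∀ d ∈ D, Lo N d)) (by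
    intro D hD
    rw [mem_filter] at hD
    have h1 := hD.2
    push Not at h1
    obtain ⟨d, hd, h2⟩ := h1
    exact ⟨(hBad D hD.1).1, d, hd, h2⟩)
  suffices hB1 : ((Bad.filter (fun D => ∀ d ∈ D, Lo N d)).card : ℝ) ≤
      ε / 2 * (H : ℝ) ^ (k + 1) by
    have h3 : (Bad.card : ℝ) = ((Bad.filter (fun D => ∀ d ∈ D, Lo N d)).card : ℝ) +
        ((Bad.filter (fun D => ¬ ∀ d ∈ D, Lo N d)).card : ℝ) := by
      exact_mod_cast hsplit.symm
    rw [h3]
    linarith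
  refine hfew y hya hyb A {b} ((Icc 1 N).filter (fun n => 1 ≤ N - n ∧ N - n ≤ y)) (card_singleton b)
    (singleton_nonempty b) (X0_card N y) ?_ ?_ ?_ (eG N) (eG_bd N) (eG_le hb) (g2 N) ?_ H hH1 ?_ ?_ _ ?_
  · rw [disjoint_singleton_left, hAm]
    omega
  · intro a ha
    exact ((hAm a).1 ha).2.2
  · have hev : ∀ a ∈ A ∪ {b}, Even (a + N) := by
      intro a ha
      rcases mem_union.1 ha with h | h
      · exact ((hAm a).1 h).2.1
      · rw [mem_singleton.1 h]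
        exact even_iff_two_dvd.2 (hb 2 (mem_pz.2 ⟨by omega, Nat.prime_two⟩))
    intro a ha t ht
    have h1 := hev a ha
    have h2 := hev t ht
    rw [Nat.even_iff] at h1 h2 ⊢
    omega
  · intro n
    refine ⟨(g2_bd N n).1, g2_le_ro ?_ n⟩
    refine hya.trans_le (Real.rpow_le_rpow_of_exponent_le (by exact_mod_cast (by omega : 1 ≤ N)) ?_)
    linarith
  · refine (card_le_card hAsub).trans ?_
    rw [Nat.card_Icc, Nat.add_sub_cancel]
  · intro j hj
    have h0 : ∑ S ∈ A.powersetCard j, VT y ({b} ∪ S) ≤ ∑ S ∈ (Icc 1 H).powersetCard j, VT y ({b} ∪ S) :=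
      sum_le_sum_of_subset_of_nonneg (powersetCard_mono hAsub) fun S _ _ => VT_nonneg _ _
    refine h0.trans ?_
    have h1 := havg j N H y b hH3 hHN hHL ?_ hb
    · refine h1.trans ?_
      have h2 : (κ / 2 * L) ^ (j + 1) ≤ Real.log y ^ (j + 1) :=
        pow_le_pow_left₀ (by positivity) y4 _
      have h3 : (H : ℝ) ^ j / Real.log y ^ (j + 1) ≤ (H : ℝ) ^ j / (κ / 2 * L) ^ (j + 1) :=
        div_le_div_of_nonneg_left (by positivity) (by positivity) h2
      have h4 : (H : ℝ) ^ j / (κ / 2 * L) ^ (j + 1) = (2 / κ) ^ (j + 1) * ((H : ℝ) ^ j / L ^ (j + 1)) := by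
        rw [mul_pow, div_pow, div_pow]
        field_simp
      calc Cj j * ((H : ℝ) ^ j / Real.log y ^ (j + 1)) ≤ Cv * ((H : ℝ) ^ j / (κ / 2 * L) ^ (j + 1)) :=
            mul_le_mul (hCv1 j hj) h3 (by positivity) hCv0.le
        _ = _ := by rw [h4]; ring
    · have h5 : j ^ 2 ≤ (k + 2) ^ 2 := Nat.pow_le_pow_left hj 2
      have h6 : M = 4 * (k + 2) ^ 3 * (⌈2 / κ⌉₊ + 1) + (x0 + 3) + (2 * (k + 2) ^ 2 + 2) := hM
      omega
  · intro D hD
    rw [mem_filter] at hD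
    obtain ⟨b1, b2, b3⟩ := hBad D hD.1
    have hevD := even_of_adm b2
    refine ⟨?_, fun hg => ?_⟩
    · rw [mem_powersetCard] at b1 ⊢
      refine ⟨fun d hd => (hAm d).2 ⟨mem_Icc.1 (b1.1 hd), ?_, hD.2 d hd⟩, b1.2⟩
      exact hevD (d + N) (mem_image.2 ⟨d, hd, rfl⟩)
    rw [mem_powersetCard] at b1
    have h0 : 0 ∉ sh N D := zero_notMem_sh (by omega) D
    have hcs' : (sh N D).card = k + 1 := by rw [card_sh, b1.2]
    have hDN : ∀ h ∈ D, h ≤ N := fun h hh => ((mem_Icc.1 (b1.1 hh)).2).trans hHN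
    obtain ⟨c1, c2⟩ := hlow (pat (sh N D)) (by rw [card_pat h0, hcs']) b2
    have hCP : CT (pat (sh N D)) ≤ 2 * PT (pat (sh N D)) y := by
      have g1 := CT_up (pat (sh N D)) (2 * N) y (fun t ht => by
        unfold pat sh at ht
        rw [mem_insert, mem_image] at ht
        rcases ht with rfl | ⟨d, hd, rfl⟩
        · omega
        · have := hDN d hd
          omega) (by omega)
      rw [card_pat h0, hcs'] at g1
      refine g1.trans (mul_le_mul_of_nonneg_right ?_ (PT_nonneg _ _))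
      have g6 : 2 * (((k + 1 + 1 : ℕ) : ℝ)) ^ 3 * (Nat.log y (2 * N)) / y ≤ 1 / 2 := by
        rw [div_le_div_iff₀ hy0 (by norm_num)]
        have g7 : 4 * (k + 2) ^ 3 * Nat.log y (2 * N) ≤ y := by
          refine le_trans ?_ y3
          rw [hM]
          exact (Nat.mul_le_mul_left _ y6).trans ((Nat.le_add_right _ _).trans (Nat.le_add_right _ _))
        have g8 : (4 * ((k : ℝ) + 2) ^ 3 * Nat.log y (2 * N)) ≤ y := by exact_mod_cast g7
        have g9 : (((k + 1 + 1 : ℕ) : ℝ)) ^ 3 = ((k : ℝ) + 2) ^ 3 := by push_cast; ring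
        rw [g9]
        linarith
      calc Real.exp (2 * (((k + 1 + 1 : ℕ) : ℝ)) ^ 3 * (Nat.log y (2 * N)) / y) ≤ Real.exp (1 / 2) :=
            Real.exp_le_exp.2 g6
        _ ≤ 2 := by
            have h6 : Real.exp (1 / 2) * Real.exp (-(1 / 2)) = 1 := by
              rw [← Real.exp_add]; norm_num
            have h7 := Real.exp_pos (1 / 2)
            have h8 : 1 / 2 ≤ Real.exp (-(1 / 2)) := by
              have := Real.add_one_le_exp (-(1 / 2) : ℝ)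
              linarith
            nlinarith
    -- one step
    have hZ : ∀ t ∈ D, ∀ S1 ⊆ D.erase t,
        u * ∑ n ∈ Icc 1 N, WH (eG N) (g2 N) (ro y) (D.erase t) S1 n * ro y (n + t) - 4 * δ * X ≤
          ∑ n ∈ Icc 1 N, WH (eG N) (g2 N) (ro y) (D.erase t) S1 n * g2 N (n + t) := by
      intro t ht S1 hS1
      set f := WH (eG N) (g2 N) (ro y) (D.erase t) S1 with hf
      have hf01 : ∀ n, 0 ≤ f n ∧ f n ≤ 1 := WH_bd (eG_bd N) (g2_bd N) (ro_bd y) _ _
      have hgood := hg t ht S1 hS1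
      rw [← hf, show k + 1 + 1 = k + 2 by ring, ← hX] at hgood
      have hs := STEP N hNN₁ y hyb f (fun n => (hf01 n).1) (fun n => (hf01 n).2) t (hDN t ht)
      have hW0 : 0 ≤ ∑ n ∈ Icc 1 N, f n * ro y (n + t) :=
        sum_nonneg fun n _ => mul_nonneg (hf01 n).1 (ro_nonneg _ _)
      have h5 : u * ∑ n ∈ Icc 1 N, f n * ro y (n + t) ≤
          c₀' * κ * ∑ n ∈ Icc 1 N, f n * ro y (n + t) := by
        rw [hu]
        exact mul_le_mul_of_nonneg_right (mul_le_mul_of_nonneg_right hc₀2 hκ.le) hW0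
      linarith
    have hlower := step_lower' (H := D) hx0 hu0 hu1 hZ D (subset_refl _)
    rw [b1.2] at hlower
    have hmain := hm y hyx0 hyK (sh N D) h0 hcs'
    have hrefl := count_refl N y D (g2 N)
    have hfull := WH_full_leG2 N y D
    have hone : (1 : ℝ) ≤ N / L ^ (k + 4) := by
      simpa using hs1
    have hfin := low_calcK (k := k) (cs := cs) (cp := cp) (L := L) (n := N) (u := u) (V := Vz y)
      (PTy := PT (pat (sh N D)) y) (W := ∑ n ∈ Icc 1 N, WH (eG N) (g2 N) (ro y) D ∅ n)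
      (e := N / L ^ (k + 3))
      (x := 4 * δ * X) (CTy := CT (pat (sh N D)))
      (P := pi2G D N) hcs0 hcp hL1 hN0 hu0 hu1 hVz0 huV (PT_nonneg _ _) c2 hCP
      ?_ (by positivity) ?_ ?_ (by push_cast at hlower; linarith)
    · rw [hcs] at hfin
      linarith
    · have h1 : (N : ℝ) / L ^ (k + 4) * 3 ≤ N / L ^ (k + 3) := by
        have e : (N : ℝ) / L ^ (k + 3) = N / L ^ (k + 4) * L := by
          rw [pow_succ L (k + 3)]
          field_simp
        rw [e]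
        exact mul_le_mul_of_nonneg_left hL3 (by positivity)
      linarith
    · rw [← hτ]
      have h1 : (N : ℝ) / L ^ (k + 3) = 1 / L * (N / L ^ (k + 2)) := by
        rw [pow_succ L (k + 2)]
        field_simp
      rw [h1]
      refine mul_le_mul_of_nonneg_right ?_ (by positivity)
      rw [div_le_iff₀ hL0]
      rw [div_le_iff₀ hτ0] at hLτ
      linarith
    · rw [← hτ, ← hX, hδ]
      apply le_of_eq
      field_simp

end Pool.Agent.J4.H38.SR3
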