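import Mathlib
import Pool.Agent.J4.H38.SR3.Alm
import Pool.Agent.J4.H38.SR2.Uni2

/-! Primes with shifts having at most two prime factors, for almost all sets of shifts in arbitrary sparse sets. -/

set_option autoImplicit false

namespace Pool.Agent.J4.H38.SR3

open Finset Filter
open Pool.Agent.Y822
open Pool.Agent.Y822.Low (step_lower')
open Pool.Agent.J4.H38.SR
open Pool.Agent.J4.H38.SR2
open Pool.Agent.H387R2.Uni (nuT Adm locT CT CT_nonneg)
open Pool.Agent.H373R2.T7 (pz Vz mem_pz)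

lemma Lo_half {N a : ℕ} (hN : 4 ≤ N) (ha : 2 * a ≤ N) : Lo N a := by
  unfold Lo
  have h4 : (4 : ℝ) ≤ N := by exact_mod_cast hN
  have h1 : (2 : ℝ) * a ≤ N := by exact_mod_cast ha
  have hsq : (N : ℝ) ^ (1 / 2 : ℝ) ≤ N / 2 := by
    rw [← Real.sqrt_eq_rpow, Real.sqrt_le_left (by positivity)]
    nlinarith
  linarith

/-- **almost prime tuples** for almost all sets of shifts -/
theorem almostU2 : ∃ c : ℝ, 0 < c ∧ ∀ (k : ℕ) (ε K : ℝ), 0 < ε → 0 ≤ K → ∃ Λ : ℝ, 0 < Λ ∧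
    ∀ᶠ N : ℕ in atTop, ∀ H : ℕ, Λ * Real.log N ≤ H → ∀ A ⊆ Icc 1 N, (∀ a ∈ A, 2 * a ≤ N) → A.card ≤ H →
    (∀ y : ℕ, ∑ q ∈ A.offDiag, gy y (CK k) (dd q) ≤ K * (H : ℝ) ^ 2) →
    (∀ y : ℕ, ∑ a ∈ A, gy y (CK k) a ≤ K * H) → ∀ Bad : Finset (Finset ℕ),
    (∀ D ∈ Bad, D ∈ A.powersetCard (k + 1) ∧ Adm (pat D) ∧
      (pi2 D N : ℝ) < c ^ (k + 1) * CT (pat D) * (N / Real.log N ^ (k + 2))) →
    (Bad.card : ℝ) ≤ ε * (H : ℝ) ^ (k + 1) := by
  classical
  obtain ⟨c₀', hc₀', STEP⟩ := stepR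
  obtain ⟨cz, hcz, VZ⟩ := Vz_sharp
  obtain ⟨c₀, hc₀d⟩ : ∃ c₀ : ℝ, c₀ = min c₀' 1 := ⟨_, rfl⟩
  have hc₀ : 0 < c₀ := by rw [hc₀d]; exact lt_min hc₀' one_pos
  have hc₀1 : c₀ ≤ 1 := by rw [hc₀d]; exact min_le_right _ _
  have hc₀2 : c₀ ≤ c₀' := by rw [hc₀d]; exact min_le_left _ _
  refine ⟨c₀ * cz / 8, by positivity, fun k ε K' hε hK' => ?_⟩
  obtain ⟨cs, hcs⟩ : ∃ cs : ℝ, cs = c₀ * cz := ⟨_, rfl⟩
  have hcs0 : 0 < cs := by rw [hcs]; positivity
  obtain ⟨cp, hcp, hlow⟩ := Pool.Agent.Y822.PT_low (k + 1)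
  obtain ⟨τ, hτ⟩ : ∃ τ : ℝ, τ = 1 / 16 * cs ^ (k + 1) * cp := ⟨_, rfl⟩
  have hτ0 : 0 < τ := by rw [hτ]; positivity
  obtain ⟨δ, hδ⟩ : ∃ δ : ℝ, δ = τ / (4 * (k + 1)) := ⟨_, rfl⟩
  have hδ0 : 0 < δ := by rw [hδ]; positivity
  obtain ⟨K, hK, hm0⟩ := main0K (k + 1) (1 / 2) (by norm_num) (by norm_num)
  obtain ⟨x0, hm0⟩ := hm0 (k + 3)
  have hK0 : (0 : ℝ) < K := by exact_mod_cast (by omega : 0 < K)
  obtain ⟨κ, Λ, hκ, hκK, hκ25, hΛ, hfew⟩ := few_R k 1 (δ := δ)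
    (ε' := ε) (κm := 1 / K) (Cv := 3 * K' + 1) hδ0 hε (by positivity) (by positivity)
  obtain ⟨N₁, STEP⟩ := STEP κ hκ hκ25
  obtain ⟨M, hM⟩ : ∃ M : ℕ, M = 4 * (k + 2) ^ 3 * (⌈2 / κ⌉₊ + 1) + (x0 + 3) := ⟨_, rfl⟩
  refine ⟨Λ, hΛ, ?_⟩
  filter_upwards [hm0, hfew, ev_logN (eventually_ge_atTop (max 1 ((M + 2) * (2 / κ)))),
    ev_small (k + 2) (by norm_num : (0 : ℝ) < 1 / 7) 12 hδ0,
    ev_logN (eventually_ge_atTop (1 / τ)), eventually_ge_atTop (max N₁ 4)]
    with N hm hfew hL1' hs8 hLτ hN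
  intro H hH1 A hAN hAN2 hAH hP2 hP1 Bad hBad
  have hNN₁ : N₁ ≤ N := (le_max_left _ _).trans hN
  have hN4 : 4 ≤ N := (le_max_right _ _).trans hN
  have hN3 : 3 ≤ N := by omega
  have hN2 : 2 ≤ N := by omega
  set L := Real.log N with hLd
  have hL1 : 1 ≤ L := (le_max_left _ _).trans hL1'
  have hLM : (M + 2) * (2 / κ) ≤ L := (le_max_right _ _).trans hL1'
  have hL0 : 0 < L := by linarith
  have hN0 : (0 : ℝ) < N := by positivity
  have hNe : (N : ℝ) = Real.exp L := by rw [hLd, Real.exp_log hN0]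
  have hrp : ∀ s : ℝ, (N : ℝ) ^ s = Real.exp (s * L) := by
    intro s
    rw [Real.rpow_def_of_pos hN0, ← hLd, mul_comm]
  -- the sifting limit
  obtain ⟨y, hy⟩ : ∃ y : ℕ, y + 1 = ⌈(N : ℝ) ^ κ⌉₊ := by
    have : 0 < ⌈(N : ℝ) ^ κ⌉₊ := Nat.ceil_pos.2 (by positivity)
    exact ⟨⌈(N : ℝ) ^ κ⌉₊ - 1, by omega⟩
  have hya : (y : ℝ) < (N : ℝ) ^ κ := Nat.lt_ceil.1 (by omega)
  have hyb : (N : ℝ) ^ κ ≤ y + 1 := by
    have := Nat.le_ceil ((N : ℝ) ^ κ)
    rw [← hy] at this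
    exact_mod_cast this
  have hya' : (y : ℝ) ≤ Real.exp (κ * L) := by rw [← hrp]; exact hya.le
  have hyb' : Real.exp (κ * L) ≤ y + 1 := by rw [← hrp]; exact hyb
  have hML : (M : ℝ) + 2 ≤ κ / 2 * L := by
    have h1 : (M : ℝ) + 2 = κ / 2 * ((M + 2) * (2 / κ)) := by field_simp
    rw [h1]
    exact mul_le_mul_of_nonneg_left hLM (by positivity)
  obtain ⟨_, _, y3, y4, _, y6⟩ := y_core (M := M) hκ (by omega : 1 ≤ N) hML hya' hyb'
  have hyx0 : x0 ≤ y := by omega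
  have hy3 : 3 ≤ y := by omega
  have hy0 : (0 : ℝ) < y := by positivity
  have hyK : y ^ K ≤ N := by
    have h1 : ((y : ℝ)) ^ K ≤ N := by
      calc ((y : ℝ)) ^ K ≤ (Real.exp (κ * L)) ^ K := pow_le_pow_left₀ (Nat.cast_nonneg _) hya' K
        _ = Real.exp (κ * K * L) := by rw [← Real.exp_nat_mul]; ring_nf
        _ ≤ Real.exp L := by
            apply Real.exp_le_exp.2
            have : κ * K ≤ 1 := by
              rw [le_div_iff₀ hK0] at hκK
              exact hκK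
            nlinarith
        _ = N := hNe.symm
    exact_mod_cast h1
  -- the factor of one step
  obtain ⟨u, hu⟩ : ∃ u : ℝ, u = c₀ * κ := ⟨_, rfl⟩
  have hu0 : 0 ≤ u := by rw [hu]; positivity
  have hu1 : u ≤ 1 := by rw [hu]; exact mul_le_one₀ hc₀1 hκ.le (by linarith)
  have hVz0 : 0 ≤ Vz y := by
    unfold Vz
    refine prod_nonneg fun p hp => ?_
    have hp1 : (1 : ℝ) ≤ p := by exact_mod_cast (mem_pz.1 hp).2.one_lt.le
    have : 1 / (p : ℝ) ≤ 1 := by rw [div_le_one (by linarith)]; exact hp1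
    linarith
  have hly : 0 < Real.log y := Real.log_pos (by exact_mod_cast (by omega : 1 < y))
  have hlyu : Real.log y ≤ κ * L := by
    rw [← Real.log_exp (κ * L)]
    exact Real.log_le_log hy0 hya'
  have huV : cs / L ≤ u * Vz y := by
    have t5 : cz / (κ * L) ≤ Vz y := (div_le_div_of_nonneg_left hcz.le hly hlyu).trans (VZ y hy3)
    calc cs / L = u * (cz / (κ * L)) := by rw [hcs, hu]; field_simp
      _ ≤ u * Vz y := mul_le_mul_of_nonneg_left t5 hu0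
  -- the error of one step
  obtain ⟨X, hX⟩ : ∃ X : ℝ, X = N / L ^ (k + 2) := ⟨_, rfl⟩
  have hX0 : 0 < X := by rw [hX]; positivity
  have h78 : 12 * (N : ℝ) ^ (6 / 7 : ℝ) ≤ δ * X := by
    rw [hrp, hX]
    have e : (6 / 7 : ℝ) * L = (1 - 1 / 7) * L := by ring
    rw [e]
    exact hs8
  have hx0 : 0 ≤ 4 * δ * X := by positivity
  have h0A : 0 ∉ A := fun h => by
    have := (mem_Icc.1 (hAN h)).1
    omega
  have hly1 : κ / 2 * L ≤ Real.log y := y4
  have hAsub : A.filter Even ⊆ A := filter_subset _ _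
  refine hfew y hya hyb (A.filter Even) {0} (Icc 1 y) (card_singleton 0) (singleton_nonempty 0) ?_ ?_
    ?_ ?_ eP eP_bd ?_ (g2 N) ?_ H hH1 ((card_le_card hAsub).trans hAH) ?_ Bad ?_
  · rw [Nat.card_Icc, Nat.add_sub_cancel]
  · rw [disjoint_singleton_left]
    exact fun h => h0A (hAsub h)
  · intro a ha
    exact Lo_half hN4 (hAN2 a (hAsub ha))
  · intro a ha t ht
    have hev : ∀ a ∈ A.filter Even ∪ {0}, Even a := by
      intro a ha
      rcases mem_union.1 ha with h | h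
      · exact (mem_filter.1 h).2
      · rw [mem_singleton.1 h]
        exact Even.zero
    exact (hev a ha).add (hev t ht)
  · intro n hn hny
    unfold rT
    rw [prod_singleton, add_zero]
    unfold eP
    split_ifs with hp
    · unfold ro
      rw [if_pos]
      intro p hpp hpy hpn
      have h1 : p = n := (Nat.prime_dvd_prime_iff_eq hpp hp).1 hpn
      refine hny (mem_Icc.2 ⟨hp.one_lt.le, ?_⟩)
      omega
    · exact ro_nonneg _ _
  · intro n
    refine ⟨(g2_bd N n).1, g2_le_ro ?_ n⟩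
    refine hya.trans_le (Real.rpow_le_rpow_of_exponent_le (by exact_mod_cast (by omega : 1 ≤ N)) ?_)
    linarith
  · intro j hj
    have h0 : ∑ S ∈ (A.filter Even).powersetCard j, VT y ({0} ∪ S) ≤ ∑ S ∈ A.powersetCard j, VT y ({0} ∪ S) :=
      sum_le_sum_of_subset_of_nonneg (powersetCard_mono hAsub) fun S _ _ => VT_nonneg _ _
    refine h0.trans ((avgA k hK' hAH (hP2 y) (hP1 y) j hj h0A).trans ?_)
    have h1 : Vz y ≤ (2 / κ) / L := by
      refine (Vz_le y (by omega)).trans ?_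
      rw [div_div, one_div_le hly (by positivity)]
      calc 1 / (2 / (κ * L)) = κ / 2 * L := by field_simp
        _ ≤ Real.log y := hly1
    have h2 : Vz y ^ (j + 1) ≤ ((2 / κ) / L) ^ (j + 1) := pow_le_pow_left₀ hVz0 h1 _
    have h3 : Vz y ^ (j + 1) * (H : ℝ) ^ j ≤ (2 / κ) ^ (j + 1) * ((H : ℝ) ^ j / L ^ (j + 1)) := by
      calc Vz y ^ (j + 1) * (H : ℝ) ^ j ≤ ((2 / κ) / L) ^ (j + 1) * (H : ℝ) ^ j :=
            mul_le_mul_of_nonneg_right h2 (by positivity)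
        _ = _ := by rw [div_pow]; ring
    rw [mul_assoc]
    exact mul_le_mul_of_nonneg_left h3 (by positivity)
  · intro D hD
    obtain ⟨b1, b2, b3⟩ := hBad D hD
    have hevD := even_of_adm b2
    refine ⟨?_, fun hg => ?_⟩
    · rw [mem_powersetCard] at b1 ⊢
      exact ⟨fun d hd => mem_filter.2 ⟨b1.1 hd, hevD d hd⟩, b1.2⟩
    rw [mem_powersetCard] at b1
    have h0 : 0 ∉ D := fun h => h0A (b1.1 h)
    have hDN : ∀ h ∈ D, h ≤ N := fun h hh => (mem_Icc.1 (hAN (b1.1 hh))).2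
    obtain ⟨c1, c2⟩ := hlow (pat D) (by rw [card_pat h0, b1.2]) b2
    have hCP : CT (pat D) ≤ 2 * PT (pat D) y := by
      have g1 := CT_up (pat D) (2 * N) y (fun t ht => by
        unfold pat at ht
        rw [mem_insert] at ht
        rcases ht with rfl | ht
        · omega
        · have := hDN t ht
          omega) (by omega)
      rw [card_pat h0, b1.2] at g1
      refine g1.trans (mul_le_mul_of_nonneg_right ?_ (PT_nonneg _ _))
      have g6 : 2 * (((k + 1 + 1 : ℕ) : ℝ)) ^ 3 * (Nat.log y (2 * N)) / y ≤ 1 / 2 := by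
        rw [div_le_div_iff₀ hy0 (by norm_num)]
        have g7 : 4 * (k + 2) ^ 3 * Nat.log y (2 * N) ≤ y := by
          refine le_trans ?_ y3
          rw [hM]
          exact (Nat.mul_le_mul_left _ y6).trans (Nat.le_add_right _ _)
        have g8 : (4 * ((k : ℝ) + 2) ^ 3 * Nat.log y (2 * N)) ≤ y := by exact_mod_cast g7
        have g9 : (((k + 1 + 1 : ℕ) : ℝ)) ^ 3 = ((k : ℝ) + 2) ^ 3 := by push_cast; ring
        rw [g9]
        linarith
      calc Real.exp (2 * (((k + 1 + 1 : ℕ) : ℝ)) ^ 3 * (Nat.log y (2 * N)) / y) ≤ Real.exp (1 / 2) :=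
            Real.exp_le_exp.2 g6
        _ ≤ 2 := by
            have h6 : Real.exp (1 / 2) * Real.exp (-(1 / 2)) = 1 := by
              rw [← Real.exp_add]; norm_num
            have h7 := Real.exp_pos (1 / 2)
            have h8 : 1 / 2 ≤ Real.exp (-(1 / 2)) := by
              have := Real.add_one_le_exp (-(1 / 2) : ℝ)
              linarith
            nlinarith
    -- one step
    have hZ : ∀ t ∈ D, ∀ S1 ⊆ D.erase t,
        u * ∑ n ∈ Icc 1 N, WH eP (g2 N) (ro y) (D.erase t) S1 n * ro y (n + t) - 4 * δ * X ≤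
          ∑ n ∈ Icc 1 N, WH eP (g2 N) (ro y) (D.erase t) S1 n * g2 N (n + t) := by
      intro t ht S1 hS1
      set f := WH eP (g2 N) (ro y) (D.erase t) S1 with hf
      have hf01 : ∀ n, 0 ≤ f n ∧ f n ≤ 1 := WH_bd eP_bd (g2_bd N) (ro_bd y) _ _
      have hgood := hg t ht S1 hS1
      rw [← hf, show k + 1 + 1 = k + 2 by ring, ← hX] at hgood
      have hs := STEP N hNN₁ y hyb f (fun n => (hf01 n).1) (fun n => (hf01 n).2) t (hDN t ht)
      have hW0 : 0 ≤ ∑ n ∈ Icc 1 N, f n * ro y (n + t) :=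
        sum_nonneg fun n _ => mul_nonneg (hf01 n).1 (ro_nonneg _ _)
      have h5 : u * ∑ n ∈ Icc 1 N, f n * ro y (n + t) ≤
          c₀' * κ * ∑ n ∈ Icc 1 N, f n * ro y (n + t) := by
        rw [hu]
        exact mul_le_mul_of_nonneg_right (mul_le_mul_of_nonneg_right hc₀2 hκ.le) hW0
      linarith
    have hlower := step_lower' (H := D) hx0 hu0 hu1 hZ D (subset_refl _)
    rw [b1.2] at hlower
    have hmain := (abs_le.1 (hm y hyx0 hyK (g2 N) D h0 b1.2)).1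
    have hfull := WH_full_le2 N y D
    have hfin := low_calcK (k := k) (cs := cs) (cp := cp) (L := L) (n := N) (u := u) (V := Vz y)
      (PTy := PT (pat D) y) (W := ∑ n ∈ Icc 1 N, WH eP (g2 N) (ro y) D ∅ n) (e := N / L ^ (k + 3))
      (x := 4 * δ * X) (CTy := CT (pat D))
      (P := pi2 D N) hcs0 hcp hL1 hN0 hu0 hu1 hVz0 huV (PT_nonneg _ _) c2 hCP
      (by linarith) (by positivity) ?_ ?_ (by push_cast at hlower; linarith)
    · rw [hcs] at hfin
      linarith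
    · rw [← hτ]
      have h1 : (N : ℝ) / L ^ (k + 3) = 1 / L * (N / L ^ (k + 2)) := by
        rw [pow_succ L (k + 2)]
        field_simp
      rw [h1]
      refine mul_le_mul_of_nonneg_right ?_ (by positivity)
      rw [div_le_iff₀ hL0]
      rw [div_le_iff₀ hτ0] at hLτ
      linarith
    · rw [← hτ, ← hX, hδ]
      apply le_of_eq
      field_simp

end Pool.Agent.J4.H38.SR3
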